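import Mathlib
import Pool.Agent.Helper72.WT.ULang

set_option autoImplicit false

/-!
# TW, part 1: local types, addresses, scattered sets, configurations (definitions)
-/

namespace Pool.Agent.Helper72.TW

open FirstOrder FirstOrder.Language
open Pool.Agent.Helper72.WT (istr)

/-! ### Structures on a part of an ambient set, capped local types -/

/-- A relational structure on the part `D` of `X`. -/
structure Str (L : FirstOrder.Language.{0, 0}) (X : Type) where
  D : X → Prop
  rel : ∀ n, L.Relations n → (Fin n → X) → Prop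

/-- A pseudo-metric with natural values. -/
structure PM {X : Type} (d : X → X → ℕ) : Prop where
  zero : ∀ x, d x x = 0
  symm : ∀ x y, d x y = d y x
  tri : ∀ x y z, d x z ≤ d x y + d y z

variable {L : FirstOrder.Language.{0, 0}} {X : Type}

/-- Related points have distance at most `1`. -/
def Str.Local (S : Str L X) (d : X → X → ℕ) : Prop :=
  ∀ n (R : L.Relations n) (v : Fin n → X), S.rel n R v → ∀ i j, d (v i) (v j) ≤ 1

/-- The structure on the subtype. -/
@[instance_reducible]
def Str.toStructure (S : Str L X) (hL : ∀ n, IsEmpty (L.Functions n)) :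
    L.Structure {x : X // S.D x} :=
  istr hL fun n R v => S.rel n R fun i => (v i).1

/-- Satisfaction of a sentence. -/
def Str.Models (S : Str L X) (hL : ∀ n, IsEmpty (L.Functions n)) (φ : L.Sentence) : Prop :=
  @Sentence.Realize L {x : X // S.D x} (S.toStructure hL) φ

/-- Atomic types of `m`-tuples with distances up to the cap `3 ^ g + 1`. -/
abbrev At (L : FirstOrder.Language.{0, 0}) (g m : ℕ) : Type :=
  ((s : Σ n, L.Relations n) → (Fin s.1 → Fin m) → Prop) × (Fin m → Fin m → Prop) ×
    (Fin m → Fin m → Fin (3 ^ g + 2))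

/-- Local types of level `g` of `m`-tuples. -/
def LT (L : FirstOrder.Language.{0, 0}) : ℕ → ℕ → Type
  | 0, m => At L 0 m
  | g + 1, m => At L (g + 1) m × Set (LT L g (m + 1))

/-- The atomic type of a tuple. -/
def aty (S : Str L X) (d : X → X → ℕ) (g : ℕ) {m : ℕ} (a : Fin m → X) : At L g m :=
  (fun s v => S.rel s.1 s.2 (fun i => a (v i)), fun i j => a i = a j,
    fun i j => ⟨min (d (a i) (a j)) (3 ^ g + 1), by omega⟩)

/-- The local type of level `g` of a tuple: the atomic type and the types of level `g - 1` of the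
extensions by one point at distance at most `3 ^ (g - 1)`. -/
def lt (S : Str L X) (d : X → X → ℕ) : ∀ (g m : ℕ), (Fin m → X) → LT L g m
  | 0, _, a => aty S d 0 a
  | g + 1, m, a => (aty S d (g + 1) a,
      {t | ∃ x, S.D x ∧ (∃ i, d x (a i) ≤ 3 ^ g) ∧
        lt S d g (m + 1) (Fin.snoc (α := fun _ => X) a x) = t})

/-- There are `n` points of type `τ` at pairwise distance more than `2 * 3 ^ g`. -/
def Scat (S : Str L X) (d : X → X → ℕ) (g : ℕ) (τ : LT L g 1) (n : ℕ) : Prop :=
  ∃ y : Fin n → X, (∀ i, S.D (y i) ∧ lt S d g 1 (fun _ => y i) = τ) ∧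
    ∀ i j, i ≠ j → 2 * 3 ^ g < d (y i) (y j)

/-- The radius on which a type of level `g` depends. -/
def rad : ℕ → ℕ
  | 0 => 0
  | g + 1 => 3 ^ g + rad g

/-! ### Addresses: nodes of the tree with branching `b` -/

/-- Addresses (words, the root is the empty word). -/
abbrev Adr (b : ℕ) : Type := List (Fin b)

/-- The tree distance of two addresses. -/
def td {b : ℕ} : Adr b → Adr b → ℕ
  | [], β => β.length
  | i :: α, [] => (i :: α).length
  | i :: α, j :: β => if i = j then td α β else α.length + β.length + 2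

/-- The distance of two points of `Adr b × N`. -/
def dX {b : ℕ} {N : Type} (x y : Adr b × N) : ℕ := td x.1 y.1

/-- `A` contains `n` addresses of length at least `e` and pairwise distance more than `R`. -/
def SA {b : ℕ} (R : ℕ) (A : Set (Adr b)) (n e : ℕ) : Prop :=
  ∃ Y : Finset (Adr b), Y.card = n ∧ ∀ y ∈ Y, y ∈ A ∧ e ≤ y.length ∧
    ∀ y' ∈ Y, y ≠ y' → R < td y y'

/-- Scatter information: for which numbers `n ≤ k` and lengths `e ≤ 2 * 3 ^ G + 1`. -/
abbrev Inf (G k : ℕ) : Type := Fin (k + 1) → Fin (2 * 3 ^ G + 2) → Prop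

/-- The scatter information of a set of addresses. -/
def jinf {b : ℕ} (G k R : ℕ) (A : Set (Adr b)) : Inf G k := fun n e => SA R A n e

/-- The scatter information of a set of addresses from those of the subtrees. -/
def combine {b : ℕ} (G k R : ℕ) (root : Prop) (J : Fin b → Inf G k) : Inf G k := fun n e =>
  ∃ (c : Fin b → Fin (k + 1)) (f : Fin b → Fin (2 * 3 ^ G + 2)), (∀ i, J i (c i) (f i)) ∧
    ((n.1 = ∑ i, (c i).1 ∧ (∀ i, e.1 ≤ (f i).1 + 1) ∧
      ∀ i j, i ≠ j → (c i).1 ≠ 0 → (c j).1 ≠ 0 → R < (f i).1 + (f j).1 + 2) ∨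
    (root ∧ e.1 = 0 ∧ n.1 = 1 + ∑ i, (c i).1 ∧ ∀ i, R ≤ (f i).1))

/-! ### Configurations -/

/-- A configuration: the node `α` has the points `(α, i)`, `i < p α`. -/
structure Cfg (L : FirstOrder.Language.{0, 0}) (b : ℕ) where
  p : Adr b → ℕ
  rel : ∀ n, L.Relations n → (Fin n → Adr b × ℕ) → Prop

variable {b : ℕ}

/-- The structure of a configuration. -/
def Cfg.str (C : Cfg L b) : Str L (Adr b × ℕ) where
  D := fun x => x.2 < C.p x.1
  rel := fun n R v => C.rel n R v ∧ ∀ i j, td (v i).1 (v j).1 ≤ 1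

/-- The configuration on the `i`-th subtree of the root. -/
def Cfg.sub (C : Cfg L b) (i : Fin b) : Cfg L b where
  p := fun α => C.p (i :: α)
  rel := fun n R v => C.rel n R fun j => (i :: (v j).1, (v j).2)

/-- `C` and `C'` agree at the depths at most `H`. -/
def WinEq (H : ℕ) (C C' : Cfg L b) : Prop :=
  (∀ α : Adr b, α.length ≤ H → C.p α = C'.p α) ∧
    ∀ n (R : L.Relations n) (v : Fin n → Adr b × ℕ), (∀ i, (v i).1.length ≤ H) →
      (∀ i, (v i).2 < C.p (v i).1) → (∀ i j, td (v i).1 (v j).1 ≤ 1) →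
      (C.rel n R v ↔ C'.rel n R v)

/-- Finitely many nonempty nodes, closed under predecessors, with at most `W` points. -/
def Cfg.Valid (C : Cfg L b) (W : ℕ) : Prop :=
  (∀ α, C.p α ≤ W) ∧ (∀ α i, C.p (α ++ [i]) ≠ 0 → C.p α ≠ 0) ∧ {α | C.p α ≠ 0}.Finite

/-- The number of points. -/
noncomputable def Cfg.size (C : Cfg L b) : ℕ := Nat.card {x : Adr b × ℕ // x.2 < C.p x.1}

/-- The addresses with a point of type `τ`. -/
def TA (C : Cfg L b) (g : ℕ) (τ : LT L g 1) : Set (Adr b) :=
  {α | ∃ u, u < C.p α ∧ lt C.str dX g 1 (fun _ => (α, u)) = τ}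

/-- The types of single points of the levels at most `G`. -/
abbrev Ty (L : FirstOrder.Language.{0, 0}) (G : ℕ) : Type := Σ g : Fin (G + 1), LT L g.1 1

/-- Scatter information at all nodes of depth `rad G + 1`. -/
abbrev FI (L : FirstOrder.Language.{0, 0}) (b G k : ℕ) : Type :=
  {α : Adr b // α.length = rad G + 1} → Ty L G → Inf G k

/-- The types of points at the nodes of depth at most `rad G`. -/
abbrev TI (L : FirstOrder.Language.{0, 0}) (b G : ℕ) : Type :=
  {α : Adr b // α.length ≤ rad G} → Ty L G → Prop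

/-- The scatter informations of a configuration at depth `rad G + 1`. -/
def finfo (G k : ℕ) (C : Cfg L b) : FI L b G k := fun α t =>
  jinf G k (2 * 3 ^ t.1.1) {γ | α.1 ++ γ ∈ TA C t.1.1 t.2}

/-- The types of points at small depth. -/
def tinfo (G : ℕ) (C : Cfg L b) : TI L b G := fun α t => α.1 ∈ TA C t.1.1 t.2

/-- The information of the empty configuration. -/
def finfo0 (L : FirstOrder.Language.{0, 0}) (b G k : ℕ) : FI L b G k := fun _ _ n _ => n.1 = 0

/-- The scatter information at a node of depth `rad G + 1 - δ`. -/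
def lift (G k : ℕ) (θ : TI L b G) (F : FI L b G k) :
    ∀ (δ : ℕ) (α : Adr b), α.length + δ = rad G + 1 → Ty L G → Inf G k
  | 0, α, h, t => F ⟨α, h⟩ t
  | δ + 1, α, h, t => combine G k (2 * 3 ^ t.1.1) (θ ⟨α, by omega⟩ t) fun i =>
      lift G k θ F δ (α ++ [i]) (by simp only [List.length_append, List.length_singleton]; omega) t

/-- The informations at depth `rad G + 1` from those of the subtrees. -/
def upd (G k : ℕ) (θ : Fin b → TI L b G) (F : Fin b → FI L b G k) : FI L b G k
  | ⟨[], h⟩, _ => absurd h (by simp)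
  | ⟨i :: α, h⟩, t => lift G k (θ i) (F i) 1 α (by simpa using h) t

/-- The scatter information at the root. -/
def root (G k : ℕ) (θ : TI L b G) (F : FI L b G k) : Ty L G → Inf G k := fun t =>
  lift G k θ F (rad G + 1) [] (by simp) t

/-- `K` is the window and `F` the information of a valid configuration with `s` points. -/
def PP (G k W s : ℕ) (K : Cfg L b) (F : FI L b G k) : Prop :=
  ∃ C : Cfg L b, C.Valid W ∧ C.size = s ∧ WinEq (2 * rad G + 1) K C ∧ finfo G k C = F

/-! ### Tree-layerings -/

/-- A tree-layering with branching `b` and width `w`. -/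
def TreeLayering (b w : ℕ) (L : FirstOrder.Language.{0, 0}) (M : Type) [L.Structure M] : Prop :=
  ∃ β : M → List (Fin b), (∀ α, Nat.card {x // β x = α} ≤ w) ∧
    (∀ x α i, β x = α ++ [i] → ∃ y, β y = α) ∧
    ∀ n (R : L.Relations n) (v : Fin n → M), Structure.RelMap R v → ∀ i j,
      β (v i) = β (v j) ∨ (∃ c, β (v i) = β (v j) ++ [c]) ∨ ∃ c, β (v j) = β (v i) ++ [c]

end Pool.Agent.Helper72.TW
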