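import Mathlib
import Pool.Agent.Helper72.TW.Defs

set_option autoImplicit false

/-!
# TW-3: local types depend on a ball, there are finitely many of them
-/

namespace Pool.Agent.Helper72.TW

open FirstOrder FirstOrder.Language

theorem finite_LT {L : FirstOrder.Language.{0, 0}} (hf : Finite (Σ n, L.Relations n)) :
    ∀ g m : ℕ, Finite (LT L g m) := by
  have hAt : ∀ g m : ℕ, Finite (At L g m) := by
    intro g m
    unfold At
    infer_instance
  intro g
  induction g with
  | zero =>
    intro m
    exact hAt 0 m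
  | succ g ih =>
    intro m
    have := hAt (g + 1) m
    have := ih (m + 1)
    show Finite (At L (g + 1) m × Set (LT L g (m + 1)))
    infer_instance

theorem rad_lt (g : ℕ) : rad g < 3 ^ g := by
  induction g with
  | zero => simp [rad]
  | succ g ih =>
    simp only [rad, pow_succ]
    omega

theorem rad_mono {g g' : ℕ} (h : g ≤ g') : rad g ≤ rad g' := by
  induction h with
  | refl => exact le_rfl
  | step _ ih => exact ih.trans (Nat.le_add_left _ _)

private theorem aty_map {L : FirstOrder.Language.{0, 0}} {X X' : Type} {S : Str L X}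
    {S' : Str L X'} {d : X → X → ℕ} {d' : X' → X' → ℕ} (hd : PM d) (e : X' → X)
    (he : Function.Injective e)
    (hde : ∀ x y, d (e x) (e y) = d' x y) (g g' m : ℕ) (a : Fin m → X') (ha : ∀ i, S'.D (a i))
    (h3 : ∀ n (R : L.Relations n) (v : Fin n → X'),
      (∀ j, S'.D (v j) ∧ ∃ i, d' (v j) (a i) ≤ rad g) →
      (S'.rel n R v ↔ S.rel n R fun j => e (v j))) :
    aty S' d' g' a = aty S d g' (fun i => e (a i)) := by
  unfold aty
  refine Prod.ext ?_ (Prod.ext ?_ ?_)
  · funext s v
    refine propext (h3 s.1 s.2 (fun i => a (v i)) fun j => ⟨ha _, v j, ?_⟩)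
    rw [← hde, hd.zero]
    exact Nat.zero_le _
  · funext i j
    exact propext ⟨fun h => congrArg e h, fun h => he h⟩
  · funext i j
    exact Fin.ext (by simp only [hde])

/-- `e` is an injective isometry, `S` and `S'` agree via `e` on the ball of radius `rad g`
around the tuple and the points of `S.D` in this ball are in the range of `e`. Induction on `g`: the
extension points of level `g + 1` are within `3 ^ g` and `rad (g + 1) = 3 ^ g + rad g`. -/
theorem lt_map {L : FirstOrder.Language.{0, 0}} {X X' : Type} {S : Str L X} {S' : Str L X'}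
    {d : X → X → ℕ} {d' : X' → X' → ℕ} (hd : PM d) (e : X' → X) (he : Function.Injective e)
    (hde : ∀ x y, d (e x) (e y) = d' x y) (g m : ℕ) (a : Fin m → X') (ha : ∀ i, S'.D (a i))
    (h1 : ∀ x, S.D x → (∃ i, d x (e (a i)) ≤ rad g) → ∃ x', e x' = x)
    (h2 : ∀ x', (∃ i, d' x' (a i) ≤ rad g) → (S'.D x' ↔ S.D (e x')))
    (h3 : ∀ n (R : L.Relations n) (v : Fin n → X'),
      (∀ j, S'.D (v j) ∧ ∃ i, d' (v j) (a i) ≤ rad g) →
      (S'.rel n R v ↔ S.rel n R fun j => e (v j))) :
    lt S' d' g m a = lt S d g m (fun i => e (a i)) := by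
  induction g generalizing m with
  | zero => exact aty_map hd e he hde 0 0 m a ha h3
  | succ g ih =>
    have hstep : ∀ x', S'.D x' → (∃ i, d' x' (a i) ≤ 3 ^ g) →
        lt S' d' g (m + 1) (Fin.snoc (α := fun _ => X') a x') =
          lt S d g (m + 1) (Fin.snoc (α := fun _ => X) (fun i => e (a i)) (e x')) := by
      intro x' hx' ⟨i₀, hi₀⟩
      have hball : ∀ y' : X', (∃ i, d' y' (Fin.snoc (α := fun _ => X') a x' i) ≤ rad g) →
          ∃ i, d' y' (a i) ≤ rad (g + 1) := by
        rintro y' ⟨i, hi⟩
        refine Fin.lastCases (motive := fun i => d' y' (Fin.snoc (α := fun _ => X') a x' i) ≤ rad g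
          → ∃ i, d' y' (a i) ≤ rad (g + 1)) ?_ (fun j => ?_) i hi
        · intro h
          rw [Fin.snoc_last] at h
          refine ⟨i₀, ?_⟩
          have := hd.tri (e y') (e x') (e (a i₀))
          rw [hde, hde, hde] at this
          simp only [rad]
          omega
        · intro h
          rw [Fin.snoc_castSucc] at h
          exact ⟨j, h.trans (by simp only [rad]; omega)⟩
      have hsn : (fun i => e (Fin.snoc (α := fun _ => X') a x' i)) =
          (Fin.snoc (α := fun _ => X) (fun i => e (a i)) (e x') : Fin (m + 1) → X) := by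
        funext i
        refine Fin.lastCases ?_ (fun j => ?_) i
        · simp only [Fin.snoc_last]
        · simp only [Fin.snoc_castSucc]
      have := ih (m + 1) (Fin.snoc (α := fun _ => X') a x') ?_ ?_ ?_ ?_
      · rw [this, hsn]
      · intro i
        refine Fin.lastCases ?_ (fun j => ?_) i
        · simpa only [Fin.snoc_last] using hx'
        · simpa only [Fin.snoc_castSucc] using ha j
      · rintro x hx ⟨i, hi⟩
        refine h1 x hx ?_
        refine Fin.lastCases (motive := fun i => d x (e (Fin.snoc (α := fun _ => X') a x' i)) ≤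
          rad g → ∃ i, d x (e (a i)) ≤ rad (g + 1)) ?_ (fun j => ?_) i hi
        · intro h
          rw [Fin.snoc_last] at h
          refine ⟨i₀, ?_⟩
          have := hd.tri x (e x') (e (a i₀))
          rw [hde] at this
          simp only [rad]
          omega
        · intro h
          rw [Fin.snoc_castSucc] at h
          exact ⟨j, h.trans (by simp only [rad]; omega)⟩
      · intro y' hy'
        exact h2 y' (hball y' hy')
      · intro n R v hv
        exact h3 n R v fun j => ⟨(hv j).1, hball _ (hv j).2⟩
    show (aty S' d' (g + 1) a, _) = (aty S d (g + 1) (fun i => e (a i)), _)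
    refine Prod.ext (aty_map hd e he hde (g + 1) (g + 1) m a ha h3) ?_
    ext t
    constructor
    · rintro ⟨x', hx', hi, rfl⟩
      obtain ⟨i, hi⟩ := hi
      refine ⟨e x', (h2 x' ⟨i, hi.trans (by simp only [rad]; omega)⟩).1 hx', ⟨i, ?_⟩,
        (hstep x' hx' ⟨i, hi⟩).symm⟩
      show d (e x') (e (a i)) ≤ 3 ^ g
      rw [hde]
      exact hi
    · rintro ⟨x, hx, ⟨i, hi⟩, rfl⟩
      obtain ⟨x', rfl⟩ := h1 x hx ⟨i, hi.trans (by simp only [rad]; omega)⟩
      rw [hde] at hi
      have hx' := (h2 x' ⟨i, hi.trans (by simp only [rad]; omega)⟩).2 hx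
      exact ⟨x', hx', ⟨i, hi⟩, hstep x' hx' ⟨i, hi⟩⟩

end Pool.Agent.Helper72.TW
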