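import Mathlib
import Pool.Agent.Helper72.TW.Defs

set_option autoImplicit false

/-!
# TW-4: the tree distance
-/

namespace Pool.Agent.Helper72.TW

variable {b : ℕ}

@[simp] theorem td_nil_left (β : Adr b) : td [] β = β.length := by
  simp [td]

@[simp] theorem td_nil_right (α : Adr b) : td α [] = α.length := by
  cases α <;> simp [td]

@[simp] theorem td_cons_same (i : Fin b) (α β : Adr b) : td (i :: α) (i :: β) = td α β := by
  simp [td]

theorem td_cons_ne {i j : Fin b} (h : i ≠ j) (α β : Adr b) :
    td (i :: α) (j :: β) = α.length + β.length + 2 := by
  simp [td, h]

theorem td_append (γ α β : Adr b) : td (γ ++ α) (γ ++ β) = td α β := by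
  induction γ with
  | nil => rfl
  | cons i γ ih => simpa using ih

theorem td_self (α : Adr b) : td α α = 0 := by
  induction α with
  | nil => simp
  | cons i α ih => simpa using ih

theorem td_symm (α β : Adr b) : td α β = td β α := by
  induction α generalizing β with
  | nil => simp
  | cons i α ih =>
    cases β with
    | nil => simp
    | cons j β =>
      by_cases h : i = j
      · subst h
        simpa using ih β
      · rw [td_cons_ne h, td_cons_ne (fun e => h e.symm)]
        omega

theorem td_eq_zero {α β : Adr b} : td α β = 0 ↔ α = β := by
  induction α generalizing β with
  | nil =>
    cases β with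
    | nil => simp
    | cons j β => simp
  | cons i α ih =>
    cases β with
    | nil => simp
    | cons j β =>
      by_cases h : i = j
      · subst h
        simpa using ih
      · rw [td_cons_ne h]
        constructor
        · intro h1
          omega
        · intro h1
          exact absurd (List.cons.inj h1).1 h

private theorem td_bounds (α β : Adr b) : td α β ≤ α.length + β.length ∧
    α.length ≤ td α β + β.length ∧ β.length ≤ td α β + α.length := by
  induction α generalizing β with
  | nil => simp
  | cons i α ih =>
    cases β with
    | nil => simp
    | cons j β =>
      by_cases h : i = j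
      · subst h
        obtain ⟨h1, h2, h3⟩ := ih β
        rw [td_cons_same]
        simp only [List.length_cons]
        omega
      · rw [td_cons_ne h]
        simp only [List.length_cons]
        omega

/-- Hint: induction on the first word; first show `td (α) (β) ≤ α.length + β.length` and
`α.length ≤ td α β + β.length`. -/
theorem td_tri (α β γ : Adr b) : td α γ ≤ td α β + td β γ := by
  induction α generalizing β γ with
  | nil =>
    have h := (td_bounds β γ).2.2
    simp only [td_nil_left]
    omega
  | cons i α ih =>
    cases β with
    | nil =>
      have h := (td_bounds (i :: α) γ).1
      simp only [td_nil_left, td_nil_right]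
      exact h
    | cons j β =>
      cases γ with
      | nil =>
        have h := (td_bounds (i :: α) (j :: β)).2.1
        simp only [td_nil_right]
        exact h
      | cons k γ =>
        have h1 := td_bounds α β
        have h2 := td_bounds β γ
        have h3 := td_bounds α γ
        by_cases hij : i = j
        · subst hij
          by_cases hik : i = k
          · subst hik
            simpa using ih β γ
          · rw [td_cons_ne hik, td_cons_ne hik, td_cons_same]
            omega
        · by_cases hjk : j = k
          · subst hjk
            rw [td_cons_ne hij, td_cons_ne hij, td_cons_same]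
            omega
          · rw [td_cons_ne hij, td_cons_ne hjk]
            by_cases hik : i = k
            · subst hik
              rw [td_cons_same]
              omega
            · rw [td_cons_ne hik]
              omega

theorem td_le_one {α β : Adr b} :
    td α β ≤ 1 ↔ α = β ∨ (∃ c, α = β ++ [c]) ∨ ∃ c, β = α ++ [c] := by
  induction α generalizing β with
  | nil =>
    rcases β with _ | ⟨j, _ | ⟨k, β⟩⟩
    · simp
    · simp
    · simp
  | cons i α ih =>
    rcases β with _ | ⟨j, β⟩
    · rcases α with _ | ⟨k, α⟩
      · simp
      · simp
    · by_cases h : i = j
      · subst h
        rw [td_cons_same, ih]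
        simp
      · rw [td_cons_ne h]
        constructor
        · intro h1
          omega
        · rintro (h1 | ⟨c, h1⟩ | ⟨c, h1⟩)
          · exact absurd (List.cons.inj h1).1 h
          · exact absurd (List.cons.inj h1).1 h
          · exact absurd (List.cons.inj h1).1.symm h

theorem length_le_td (α β : Adr b) : α.length ≤ td α β + β.length :=
  (td_bounds α β).2.1

/-- `dX` is a pseudo-metric. -/
theorem pm_dX {N : Type} : PM (dX (b := b) (N := N)) :=
  ⟨fun x => td_self x.1, fun x y => td_symm x.1 y.1, fun x y z => td_tri x.1 y.1 z.1⟩

theorem finite_adr (n : ℕ) : Finite {α : Adr b // α.length ≤ n} :=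
  (List.finite_length_le (Fin b) n).to_subtype

theorem finite_adr' (n : ℕ) : Finite {α : Adr b // α.length = n} :=
  (List.finite_length_eq (Fin b) n).to_subtype

end Pool.Agent.Helper72.TW
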