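import Mathlib
import Pool.Agent.Helper72.TW.CfgL
import Pool.Agent.Helper72.TW.LtMap
import Pool.Agent.Helper72.TW.Comb

set_option autoImplicit false

/-!
# TW-7: types of points in subtrees and in windows

Both theorems are `lt_map`. `ta_sub`: `e (α, u) = (i :: α, u)`; a point of `C` at distance `≤ rad g ≤ |α|` from
`i :: α` has an address starting with `i`. `ta_winEq`: `e = id`; points at distance `≤ rad g` from `(α, u)` have
addresses of length `≤ |α| + rad g ≤ H` (`length_le_td`).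
-/

namespace Pool.Agent.Helper72.TW

open FirstOrder FirstOrder.Language

variable {L : FirstOrder.Language.{0, 0}} {b : ℕ}

private theorem lt_sub (C : Cfg L b) (i : Fin b) (g : ℕ) (α : Adr b) (u : ℕ)
    (h : rad g ≤ α.length) (hu : u < C.p (i :: α)) :
    lt (C.sub i).str dX g 1 (fun _ => (α, u)) = lt C.str dX g 1 (fun _ => (i :: α, u)) := by
  refine lt_map (S := C.str) (S' := (C.sub i).str) (d := dX) (d' := dX) pm_dX
    (fun x : Adr b × ℕ => (i :: x.1, x.2)) ?_ ?_ g 1 (fun _ => (α, u)) (fun _ => hu) ?_ ?_ ?_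
  · rintro ⟨x1, x2⟩ ⟨y1, y2⟩ hxy
    simp only [Prod.mk.injEq, List.cons.injEq] at hxy
    exact Prod.ext hxy.1.2 hxy.2
  · intro x y
    exact td_cons_same i x.1 y.1
  · rintro ⟨β, w⟩ _ ⟨_, hx⟩
    have hx' : td β (i :: α) ≤ rad g := hx
    rcases β with _ | ⟨j, β⟩
    · rw [td_nil_left, List.length_cons] at hx'
      omega
    · by_cases hj : j = i
      · subst hj
        exact ⟨(β, w), rfl⟩
      · rw [td_cons_ne hj] at hx'
        omega
  · intro x' _
    exact Iff.rfl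
  · intro n R v _
    show ((C.sub i).rel n R v ∧ ∀ j l, td (v j).1 (v l).1 ≤ 1) ↔
      (C.rel n R (fun j => (i :: (v j).1, (v j).2)) ∧
        ∀ j l, td (i :: (v j).1) (i :: (v l).1) ≤ 1)
    simp only [td_cons_same]
    exact Iff.rfl

theorem ta_sub (C : Cfg L b) (i : Fin b) (g : ℕ) (τ : LT L g 1) (α : Adr b)
    (h : rad g ≤ α.length) : i :: α ∈ TA C g τ ↔ α ∈ TA (C.sub i) g τ := by
  constructor
  · rintro ⟨u, hu, ht⟩
    exact ⟨u, hu, (lt_sub C i g α u h hu).trans ht⟩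
  · rintro ⟨u, hu, ht⟩
    exact ⟨u, hu, (lt_sub C i g α u h hu).symm.trans ht⟩

private theorem lt_winEq {H : ℕ} {C C' : Cfg L b} (hC : WinEq H C C') (g : ℕ)
    (α : Adr b) (u : ℕ) (h : α.length + rad g ≤ H) (hu : u < C.p α) :
    lt C.str dX g 1 (fun _ => (α, u)) = lt C'.str dX g 1 (fun _ => (α, u)) := by
  have hlen : ∀ x : Adr b × ℕ, dX x (α, u) ≤ rad g → x.1.length ≤ H := by
    intro x hx
    have h1 := length_le_td x.1 α
    have h2 : td x.1 α ≤ rad g := hx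
    omega
  refine lt_map (S := C'.str) (S' := C.str) (d := dX) (d' := dX) pm_dX
    (fun x : Adr b × ℕ => x) (fun _ _ h => h) (fun _ _ => rfl) g 1 (fun _ => (α, u))
    (fun _ => hu) (fun x _ _ => ⟨x, rfl⟩) ?_ ?_
  · rintro x' ⟨_, hx⟩
    show x'.2 < C.p x'.1 ↔ x'.2 < C'.p x'.1
    rw [hC.1 x'.1 (hlen x' hx)]
  · intro n R v hv
    show (C.rel n R v ∧ ∀ j l, td (v j).1 (v l).1 ≤ 1) ↔
      (C'.rel n R v ∧ ∀ j l, td (v j).1 (v l).1 ≤ 1)
    constructor
    · rintro ⟨h1, h2⟩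
      exact ⟨(hC.2 n R v (fun j => by
        obtain ⟨_, i, hi⟩ := hv j
        exact hlen _ hi) (fun j => (hv j).1) h2).mp h1, h2⟩
    · rintro ⟨h1, h2⟩
      exact ⟨(hC.2 n R v (fun j => by
        obtain ⟨_, i, hi⟩ := hv j
        exact hlen _ hi) (fun j => (hv j).1) h2).mpr h1, h2⟩

theorem ta_winEq {H : ℕ} {C C' : Cfg L b} (hC : WinEq H C C') (g : ℕ) (τ : LT L g 1)
    (α : Adr b) (h : α.length + rad g ≤ H) : α ∈ TA C g τ ↔ α ∈ TA C' g τ := by
  have hp : C.p α = C'.p α := hC.1 α (by omega)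
  constructor
  · rintro ⟨u, hu, ht⟩
    exact ⟨u, hp ▸ hu, (lt_winEq hC g α u h hu).symm.trans ht⟩
  · rintro ⟨u, hu, ht⟩
    have hu' : u < C.p α := hp ▸ hu
    exact ⟨u, hu', (lt_winEq hC g α u h hu').trans ht⟩

theorem tinfo_winEq {G : ℕ} {C C' : Cfg L b} (hC : WinEq (2 * rad G) C C') :
    tinfo G C = tinfo G C' := by
  funext α t
  apply propext
  refine ta_winEq hC t.1.1 t.2 α.1 ?_
  have h1 := α.2
  have h2 : rad t.1.1 ≤ rad G := rad_mono (by have := t.1.2; omega)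
  omega

theorem finfo_congr {G k : ℕ} {C C' : Cfg L b} (hC : ∀ H, WinEq H C C') :
    finfo G k C = finfo G k C' := by
  funext α t
  unfold finfo
  congr 1
  ext γ
  exact ta_winEq (hC _) t.1.1 t.2 (α.1 ++ γ) le_rfl

theorem finfo_of_empty {G k : ℕ} {C : Cfg L b} (hC : ∀ α, C.p α = 0) :
    finfo G k C = finfo0 L b G k := by
  funext α t
  refine jinf_empty G k _ _ ?_
  rw [Set.eq_empty_iff_forall_notMem]
  rintro γ ⟨u, hu, _⟩
  rw [hC] at hu
  exact absurd hu (Nat.not_lt_zero u)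

end Pool.Agent.Helper72.TW
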