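import Mathlib
import Pool.Agent.Helper72.TW.CodeDefs
import Pool.Agent.Helper72.WT.AxDef

set_option autoImplicit false

/-!
# TW-18: the axioms without `reach` are definable

Closure lemmas: `Helper87/AU/UDef.lean` (`and`, `or`, `not`, `imp`, `iff`, `allFin`, `exFin`, `exu`, `allu`, `ex`, `all`, `relabel`,
`rel`, `varEq`, `const`, `congr`). First the basic relations (`axu_a` … `axu_tup`: `UDef.rel` with variables, then
`congr`), then `ltt`, `zero`, `succ`, `small`, `top`, and the axioms one after the other; model: `Helper72/WT/AxDef.lean`.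
Equality of tuples `x = x'` is `∀ i, x i = x' i`, quantification over tuples is `UDef.all` / `UDef.ex`
(`β = Fin C` etc.), over `α`, `s`, `w`, `s'`, `w'` it is `UDef.allFin` (finite types: `finite_adr`-like instance and
`Finite (Σ n, L.Relations n)`).
-/

namespace Pool.Agent.Helper72.TW

open FirstOrder FirstOrder.Language Pool.Agent.Helper87.AU

variable (L : FirstOrder.Language.{0, 0}) (b G k A C r : ℕ)

/-- A relation of variables is definable; the tuple of the variables may be written in any way. -/
private theorem axu_rel {n : ℕ} (R : RR L b G k A C r n) (α : Type) (ts : Fin n → α)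
    (w : ∀ U : Type, (α → U) → Fin n → U) (hw : ∀ (U : Type) (v : α → U), (fun i => v (ts i)) = w U v) :
    UDef (LR L b G k A C r) α
      (fun U _ v => Structure.RelMap (L := LR L b G k A C r) R (w U v)) := by
  refine (UDef.rel (L := LR L b G k A C r) R (fun i => Term.var (ts i))).congr fun U _ v => ?_
  rw [← hw U v]
  rfl

theorem axu_a (α : Type) (x : α) :
    UDef (LR L b G k A C r) α (fun U _ v => (toRc L b G k A C r U).a (v x)) := by
  refine axu_rel L b G k A C r RR.a α ![x] (fun U v => ![v x]) fun U v => ?_
  funext i
  fin_cases i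
  rfl

theorem axu_le (α : Type) (x y : α) :
    UDef (LR L b G k A C r) α (fun U _ v => (toRc L b G k A C r U).le (v x) (v y)) := by
  refine axu_rel L b G k A C r RR.le α ![x, y] (fun U v => ![v x, v y]) fun U v => ?_
  funext i
  fin_cases i <;> rfl

theorem axu_add (α : Type) (x y z : α) :
    UDef (LR L b G k A C r) α (fun U _ v => (toRc L b G k A C r U).add (v x) (v y) (v z)) := by
  refine axu_rel L b G k A C r RR.add α ![x, y, z] (fun U v => ![v x, v y, v z]) fun U v => ?_
  funext i
  fin_cases i <;> rfl

theorem axu_wp (α : Type) (x : α) :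
    UDef (LR L b G k A C r) α (fun U _ v => (toRc L b G k A C r U).wp (v x)) := by
  refine axu_rel L b G k A C r RR.wp α ![x] (fun U v => ![v x]) fun U v => ?_
  funext i
  fin_cases i
  rfl

theorem axu_cert (α : Type) (x : Fin C → α) (i : Fin A → α) :
    UDef (LR L b G k A C r) α (fun U _ v =>
      (toRc L b G k A C r U).cert (fun j => v (x j)) (fun j => v (i j))) := by
  refine axu_rel L b G k A C r RR.cert α (Fin.append x i)
    (fun U v => Fin.append (fun j => v (x j)) (fun j => v (i j))) fun U v => ?_
  funext j
  refine Fin.addCases (fun j => ?_) (fun j => ?_) j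
  · simp only [Fin.append_left]
  · simp only [Fin.append_right]

theorem axu_sz (α : Type) (γ : Win b (2 * rad G + 1)) (x y : α) :
    UDef (LR L b G k A C r) α (fun U _ v => (toRc L b G k A C r U).sz γ (v x) (v y)) := by
  refine axu_rel L b G k A C r (RR.sz γ) α ![x, y] (fun U v => ![v x, v y]) fun U v => ?_
  funext i
  fin_cases i <;> rfl

theorem axu_bit (α : Type) (s : Σ n, L.Relations n) (w : Fin s.1 → Win b (2 * rad G + 1))
    (x : α) (y : Fin s.1 → α) :
    UDef (LR L b G k A C r) α (fun U _ v =>
      (toRc L b G k A C r U).bit s w (v x) (fun j => v (y j))) := by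
  refine axu_rel L b G k A C r (RR.bit s w) α (Fin.append ![x] y)
    (fun U v => Fin.append ![v x] (fun j => v (y j))) fun U v => ?_
  funext j
  refine Fin.addCases (fun j => ?_) (fun j => ?_) j
  · simp only [Fin.append_left]
    fin_cases j
    rfl
  · simp only [Fin.append_right]

theorem axu_reach (α : Type) (F : FI L b G k) (x y : α) :
    UDef (LR L b G k A C r) α (fun U _ v => (toRc L b G k A C r U).reach F (v x) (v y)) := by
  refine axu_rel L b G k A C r (RR.reach F) α ![x, y] (fun U v => ![v x, v y]) fun U v => ?_
  funext i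
  fin_cases i <;> rfl

theorem axu_tup (α : Type) (x : α) (y : Fin (r + 1) → α) :
    UDef (LR L b G k A C r) α (fun U _ v =>
      (toRc L b G k A C r U).tup (v x) (fun j => v (y j))) := by
  refine axu_rel L b G k A C r RR.tup α (Fin.append ![x] y)
    (fun U v => Fin.append ![v x] (fun j => v (y j))) fun U v => ?_
  funext j
  refine Fin.addCases (fun j => ?_) (fun j => ?_) j
  · simp only [Fin.append_left]
    fin_cases j
    rfl
  · simp only [Fin.append_right]

theorem axu_ltt (α : Type) (x y : α) :
    UDef (LR L b G k A C r) α (fun U _ v => (toRc L b G k A C r U).ltt (v x) (v y)) := by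
  exact (axu_le L b G k A C r α x y).and (UDef.varEq x y).not

theorem axu_zero (α : Type) (x : α) :
    UDef (LR L b G k A C r) α (fun U _ v => (toRc L b G k A C r U).zero (v x)) := by
  refine UDef.allu (P := fun U _ v u => (toRc L b G k A C r U).le (v x) u) ?_
  exact axu_le L b G k A C r _ (Sum.inl x) (Sum.inr ())

theorem axu_small (α : Type) (x : α) :
    UDef (LR L b G k A C r) α (fun U _ v => (toRc L b G k A C r U).small (v x)) := by
  refine UDef.allu (P := fun U _ v u => (toRc L b G k A C r U).ltt u (v x) →
    (toRc L b G k A C r U).wp u) ?_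
  exact (axu_ltt L b G k A C r _ (Sum.inr ()) (Sum.inl x)).imp
    (axu_wp L b G k A C r _ (Sum.inr ()))

theorem axu_top (α : Type) (x : α) :
    UDef (LR L b G k A C r) α (fun U _ v => (toRc L b G k A C r U).top (v x)) := by
  refine UDef.allu (P := fun U _ v u => ((toRc L b G k A C r U).a u ↔
    (toRc L b G k A C r U).ltt u (v x))) ?_
  exact (axu_a L b G k A C r _ (Sum.inr ())).iff
    (axu_ltt L b G k A C r _ (Sum.inr ()) (Sum.inl x))

end Pool.Agent.Helper72.TW
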