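import Mathlib
import Pool.Agent.Helper87.AU.UDef

set_option autoImplicit false

/-!
# TW, part 3: layered structures with counters (definitions)

`O`: linear orders of the layers (points of different layers are not comparable), `N`: order isomorphisms between
consecutive layers.
-/

namespace Pool.Agent.Helper72.TW

open FirstOrder FirstOrder.Language

/-- The relations of a layered structure. -/
structure Ly (M : Type) where
  O : M → M → Prop
  N : M → M → Prop

variable {M : Type}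

/-- The same layer. -/
def Ly.E (Y : Ly M) (x y : M) : Prop := Y.O x y ∨ Y.O y x

/-- The first point of its layer. -/
def Ly.Min (Y : Ly M) (z : M) : Prop := ∀ u, Y.E z u → Y.O z u

/-- The last point of its layer. -/
def Ly.Max (Y : Ly M) (z : M) : Prop := ∀ u, Y.E z u → Y.O u z

/-- `w` follows `z` in its layer. -/
def Ly.S (Y : Ly M) (z w : M) : Prop := Y.O z w ∧ z ≠ w ∧ ∀ u, Y.O z u → u = z ∨ Y.O w u

/-- The axioms of layered structures. -/
structure Ly.Ax (Y : Ly M) : Prop where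
  refl : ∀ x, Y.O x x
  antisymm : ∀ x y, Y.O x y → Y.O y x → x = y
  trans : ∀ x y z, Y.O x y → Y.O y z → Y.O x z
  cls : ∀ x y z, Y.E x y → Y.E y z → Y.E x z
  nfun : ∀ x y y', Y.N x y → Y.N x y' → y = y'
  ninj : ∀ x x' y, Y.N x y → Y.N x' y → x = x'
  nfor : ∀ x y x', Y.N x y → Y.E x x' → ∃ y', Y.N x' y' ∧ Y.E y y'
  nback : ∀ x y y', Y.N x y → Y.E y y' → ∃ x', Y.N x' y' ∧ Y.E x x'
  nord : ∀ x x' y y', Y.O x x' → Y.N x y → Y.N x' y' → Y.O y y'

/-- All digits of the layer of `x` are zero. -/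
def Zr {d : ℕ} (Y : Ly M) (D : Fin d → M → Prop) (x : M) : Prop :=
  ∀ i z, Y.E x z → D i z → Y.Min z

/-- The layers carry `d` digits (marked points) that count them in base `m`, the size of the layers. -/
structure DigAx {d : ℕ} (Y : Ly M) (D : Fin d → M → Prop) : Prop where
  ly : Y.Ax
  dig : ∀ i x, ∃ y, Y.E x y ∧ D i y ∧ ∀ y', Y.E x y' → D i y' → y' = y
  inc : ∀ x y, Y.N x y → ∃ i : Fin d,
    (∀ j, j < i → (∀ z, Y.E x z → D j z → Y.Max z) ∧ ∀ z, Y.E y z → D j z → Y.Min z) ∧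
    (∀ z z' w, Y.E x z → D i z → Y.N z z' → Y.E y w → D i w → Y.S z' w) ∧
    ∀ j, i < j → ∀ z z', Y.E x z → D j z → Y.N z z' → D j z'
  pre : ∀ x, ¬ Zr Y D x → ∃ y, Y.N y x
  suc : ∀ x, (∃ i z, Y.E x z ∧ D i z ∧ ¬ Y.Max z) → ∃ y, Y.N x y
  uni : ∀ x y, Zr Y D x → Zr Y D y → Y.E x y

/-- The lexicographic order of pairs. -/
def Ly.lex (Y : Ly M) (p q z w : M) : Prop := (Y.O p z ∧ p ≠ z) ∨ (p = z ∧ Y.O q w ∧ q ≠ w)

/-- All bits of the layer of `x` are zero. -/
def Br (Y : Ly M) (B : M → M → Prop) (x : M) : Prop := ∀ z w, Y.E x z → Y.E x w → ¬ B z w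

/-- The layers carry a matrix of bits that counts them in base `2`. -/
structure BitAx (Y : Ly M) (B : M → M → Prop) : Prop where
  ly : Y.Ax
  loc : ∀ z w, B z w → Y.E z w
  inc : ∀ x y, Y.N x y → ∃ z w, Y.E x z ∧ Y.E x w ∧ ¬ B z w ∧
    (∀ z' w', Y.N z z' → Y.N w w' → B z' w') ∧
    ∀ p q p' q', Y.E x p → Y.E x q → Y.N p p' → Y.N q q' →
      (Y.lex p q z w → B p q ∧ ¬ B p' q') ∧ (Y.lex z w p q → (B p q ↔ B p' q'))
  pre : ∀ x, ¬ Br Y B x → ∃ y, Y.N y x
  suc : ∀ x, (∃ z w, Y.E x z ∧ Y.E x w ∧ ¬ B z w) → ∃ y, Y.N x y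
  uni : ∀ x y, Br Y B x → Br Y B y → Y.E x y

/-- The layered structure given by two binary relation symbols. -/
def lyOf (LL : FirstOrder.Language.{0, 0}) (o n : LL.Relations 2) (M : Type) [LL.Structure M] :
    Ly M where
  O := fun x y => Structure.RelMap o ![x, y]
  N := fun x y => Structure.RelMap n ![x, y]

/-- The language for digits. -/
inductive RD (L : FirstOrder.Language.{0, 0}) (d : ℕ) : ℕ → Type
  | O : RD L d 2
  | N : RD L d 2
  | D (i : Fin d) : RD L d 1
  | rel {n : ℕ} (R : L.Relations n) : RD L d n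

/-- The language for digits. -/
abbrev LD2 (L : FirstOrder.Language.{0, 0}) (d : ℕ) : FirstOrder.Language.{0, 0} :=
  ⟨fun _ => Empty, RD L d⟩

/-- The layered structure and the digits of an `LD2`-structure. -/
def lyD (L : FirstOrder.Language.{0, 0}) (d : ℕ) (M : Type) [(LD2 L d).Structure M] : Ly M :=
  lyOf (LD2 L d) RD.O RD.N M

/-- The digits. -/
def dgD (L : FirstOrder.Language.{0, 0}) (d : ℕ) (M : Type) [(LD2 L d).Structure M]
    (i : Fin d) (x : M) : Prop := Structure.RelMap (L := LD2 L d) (RD.D i) ![x]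

/-- The language for matrices of bits. -/
inductive RB : ℕ → Type
  | O : RB 2
  | N : RB 2
  | B : RB 2

/-- The language for matrices of bits. -/
abbrev LB : FirstOrder.Language.{0, 0} := ⟨fun _ => Empty, RB⟩

/-- The layered structure of an `LB`-structure. -/
def lyB (M : Type) [LB.Structure M] : Ly M := lyOf LB RB.O RB.N M

/-- The bits. -/
def btB (M : Type) [LB.Structure M] (x y : M) : Prop :=
  Structure.RelMap (L := LB) RB.B ![x, y]

end Pool.Agent.Helper72.TW
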