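import Mathlib
import Pool.Agent.Helper72.TW.LayDefs

set_option autoImplicit false

/-!
# TW-26: existence of structures with a digit counter

On `Fin (m ^ d) × M₀` with `|M₀| = m ≥ 1`; identify `M₀` with `Fin m`. `O (t, x) (t', x') ↔ t = t' ∧ x ≤ x'`,
`N (t, x) (t', x') ↔ t' = t + 1 ∧ x = x'`, `D i (t, x) ↔ x` is the `i`-th digit of `t` in base `m`
(`finFunctionFinEquiv`, or `t / m ^ i % m`). Structures on `{x // Zr x}`, i.e. `t = 0`.
-/

namespace Pool.Agent.Helper72.TW

open FirstOrder FirstOrder.Language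

namespace DigEx

theorem dg_succ (m i t : ℕ) : t / m ^ (i + 1) % m = t / m / m ^ i % m := by
  rw [pow_succ', Nat.div_div_eq_div_mul]

theorem dg_zero (m : ℕ) (hm : 0 < m) : ∀ d t : ℕ, t < m ^ d →
    (∀ i, i < d → t / m ^ i % m = 0) → t = 0 := by
  intro d
  induction d with
  | zero => intro t ht _; simpa using ht
  | succ d ih =>
    intro t ht h
    have h0 := h 0 (Nat.succ_pos d)
    rw [pow_zero, Nat.div_one] at h0
    have h1 : t / m < m ^ d := by
      rw [Nat.div_lt_iff_lt_mul hm, ← pow_succ]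
      exact ht
    have h2 := ih (t / m) h1 (fun i hi => by
      rw [← dg_succ]
      exact h (i + 1) (Nat.succ_lt_succ hi))
    have h3 := Nat.div_add_mod t m
    rw [h2, h0] at h3
    omega

theorem dg_max (m : ℕ) (hm : 0 < m) : ∀ d t : ℕ, t + 1 = m ^ d →
    ∀ i, i < d → t / m ^ i % m = m - 1 := by
  intro d
  induction d with
  | zero => intro t _ i hi; omega
  | succ d ih =>
    intro t ht i hi
    have h3 := Nat.div_add_mod t m
    have h4 := Nat.mod_lt t hm
    have h5 : t % m = m - 1 ∧ t / m + 1 = m ^ d := by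
      rw [pow_succ'] at ht
      have h6 : m * (t / m) + (t % m + 1) = m * m ^ d := by omega
      have h7 : m ∣ t % m + 1 := by
        rw [← Nat.dvd_add_right (dvd_mul_right m (t / m)), h6]
        exact dvd_mul_right m _
      have h8 : m ≤ t % m + 1 := Nat.le_of_dvd (Nat.succ_pos _) h7
      have h9 : t % m + 1 = m := by omega
      refine ⟨by omega, ?_⟩
      rw [h9] at h6
      have h10 : m * (t / m + 1) = m * m ^ d := by rw [mul_add, mul_one]; exact h6
      exact Nat.eq_of_mul_eq_mul_left hm h10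
    rcases i with _ | i
    · rw [pow_zero, Nat.div_one]
      exact h5.1
    · rw [dg_succ]
      exact ih (t / m) h5.2 i (Nat.lt_of_succ_lt_succ hi)

theorem dg_inc (m : ℕ) (hm : 0 < m) : ∀ d t : ℕ, t + 1 < m ^ d →
    ∃ i, i < d ∧ (∀ j, j < i → t / m ^ j % m = m - 1 ∧ (t + 1) / m ^ j % m = 0) ∧
      (t + 1) / m ^ i % m = t / m ^ i % m + 1 ∧
      ∀ j, i < j → (t + 1) / m ^ j % m = t / m ^ j % m := by
  intro d
  induction d with
  | zero => intro t ht; simp at ht
  | succ d ih =>
    intro t ht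
    have h3 := Nat.div_add_mod t m
    have h4 := Nat.mod_lt t hm
    by_cases h5 : t % m + 1 < m
    · have h6 : (t + 1) / m = t / m ∧ (t + 1) % m = t % m + 1 := by
        rw [Nat.div_mod_unique hm]
        exact ⟨by omega, h5⟩
      refine ⟨0, Nat.succ_pos d, fun j hj => absurd hj (Nat.not_lt_zero j), ?_, ?_⟩
      · rw [pow_zero, Nat.div_one, Nat.div_one]
        exact h6.2
      · intro j hj
        obtain ⟨j, rfl⟩ : ∃ k, j = k + 1 := ⟨j - 1, by omega⟩
        rw [dg_succ, dg_succ, h6.1]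
    · have h6 : (t + 1) / m = t / m + 1 ∧ (t + 1) % m = 0 := by
        rw [Nat.div_mod_unique hm]
        refine ⟨?_, hm⟩
        rw [mul_add, mul_one]
        omega
      have h7 : t / m + 1 < m ^ d := by
        rw [← h6.1, Nat.div_lt_iff_lt_mul hm, ← pow_succ]
        exact ht
      obtain ⟨i, hi, ha, hb, hc⟩ := ih (t / m) h7
      refine ⟨i + 1, Nat.succ_lt_succ hi, ?_, ?_, ?_⟩
      · intro j hj
        rcases j with _ | j
        · rw [pow_zero, Nat.div_one, Nat.div_one]
          exact ⟨by omega, h6.2⟩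
        · rw [dg_succ, dg_succ, h6.1]
          exact ha j (Nat.lt_of_succ_lt_succ hj)
      · rw [dg_succ, dg_succ, h6.1]
        exact hb
      · intro j hj
        obtain ⟨j, rfl⟩ : ∃ k, j = k + 1 := ⟨j - 1, by omega⟩
        rw [dg_succ, dg_succ, h6.1]
        exact hc j (by omega)

variable (L : FirstOrder.Language.{0, 0}) (d m : ℕ) {M₀ : Type}

/-- The relations. -/
def rel (f : M₀ ≃ Fin m) (q : ∀ n, L.Relations n → (Fin n → M₀) → Prop) :
    ∀ {n : ℕ}, RD L d n → (Fin n → Fin (m ^ d) × Fin m) → Prop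
  | _, RD.O, v => (v 0).1 = (v 1).1 ∧ (v 0).2 ≤ (v 1).2
  | _, RD.N, v => (v 1).1.val = (v 0).1.val + 1 ∧ (v 0).2 = (v 1).2
  | _, RD.D i, v => (v 0).2.val = (v 0).1.val / m ^ i.val % m
  | _, RD.rel R, v => (∀ i, (v i).1.val = 0) ∧ q _ R fun i => f.symm (v i).2

/-- The structure. -/
@[instance_reducible]
def str (f : M₀ ≃ Fin m) (q : ∀ n, L.Relations n → (Fin n → M₀) → Prop) :
    (LD2 L d).Structure (Fin (m ^ d) × Fin m) where
  funMap := fun g => Empty.elim g
  RelMap := fun R => rel L d m f q R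

end DigEx

open DigEx in
theorem exists_dig (L : FirstOrder.Language.{0, 0}) (d : ℕ) (M₀ : Type) [Finite M₀] [Nonempty M₀]
    (q : ∀ n, L.Relations n → (Fin n → M₀) → Prop) :
    ∃ (M : Type) (_ : (LD2 L d).Structure M) (e : M₀ ≃ {x : M // Zr (lyD L d M) (dgD L d M) x}),
      Nat.card M = Nat.card M₀ ^ (d + 1) ∧ DigAx (lyD L d M) (dgD L d M) ∧
      (∀ n (R : L.Relations n) (v : Fin n → M),
        Structure.RelMap (L := LD2 L d) (RD.rel R) v →
          ∀ i, Zr (lyD L d M) (dgD L d M) (v i)) ∧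
      ∀ n (R : L.Relations n) (v : Fin n → M₀),
        Structure.RelMap (L := LD2 L d) (RD.rel R) (fun i => (e (v i)).1) ↔ q n R v := by
  obtain ⟨m, hm⟩ : ∃ m, m = Nat.card M₀ := ⟨_, rfl⟩
  have hm0 : 0 < m := by rw [hm]; exact Nat.card_pos
  let f : M₀ ≃ Fin m := hm ▸ Finite.equivFin M₀
  let S : (LD2 L d).Structure (Fin (m ^ d) × Fin m) := str L d m f q
  set Y : Ly (Fin (m ^ d) × Fin m) := lyD L d (Fin (m ^ d) × Fin m) with hY
  set D := dgD L d (Fin (m ^ d) × Fin m) with hD
  have hO : ∀ x y, Y.O x y ↔ x.1 = y.1 ∧ x.2 ≤ y.2 := fun x y => Iff.rfl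
  have hN : ∀ x y, Y.N x y ↔ y.1.val = x.1.val + 1 ∧ x.2 = y.2 := fun x y => Iff.rfl
  have hDi : ∀ (i : Fin d) x, D i x ↔ x.2.val = x.1.val / m ^ i.val % m := fun i x => Iff.rfl
  have hE : ∀ x y, Y.E x y ↔ x.1 = y.1 := by
    intro x y
    unfold Ly.E
    rw [hO, hO]
    constructor
    · rintro (h | h)
      · exact h.1
      · exact h.1.symm
    · intro h
      rcases le_total x.2 y.2 with h1 | h1
      · exact Or.inl ⟨h, h1⟩
      · exact Or.inr ⟨h.symm, h1⟩
  have hMin : ∀ x, Y.Min x ↔ x.2.val = 0 := by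
    intro x
    unfold Ly.Min
    constructor
    · intro h
      have h1 := h (x.1, ⟨0, hm0⟩) ((hE _ _).2 rfl)
      have h2 : x.2.val ≤ 0 := h1.2
      omega
    · intro h u hu
      refine (hO _ _).2 ⟨(hE _ _).1 hu, ?_⟩
      rw [Fin.le_def, h]
      exact Nat.zero_le _
  have hMax : ∀ x, Y.Max x ↔ x.2.val = m - 1 := by
    intro x
    unfold Ly.Max
    constructor
    · intro h
      have h1 := h (x.1, ⟨m - 1, by omega⟩) ((hE _ _).2 rfl)
      have h2 : m - 1 ≤ x.2.val := h1.2
      have h3 := x.2.isLt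
      omega
    · intro h u hu
      refine (hO _ _).2 ⟨((hE _ _).1 hu).symm, ?_⟩
      rw [Fin.le_def, h]
      have := u.2.isLt
      omega
  have hZr : ∀ x, Zr Y D x ↔ x.1.val = 0 := by
    intro x
    constructor
    · intro h
      apply dg_zero m hm0 d x.1.val x.1.isLt
      intro i hi
      have h1 := h ⟨i, hi⟩ (x.1, ⟨x.1.val / m ^ i % m, Nat.mod_lt _ hm0⟩) ((hE _ _).2 rfl)
        ((hDi _ _).2 rfl)
      exact (hMin _).1 h1
    · intro h i z hz hDz
      rw [hMin, (hDi i z).1 hDz, ← (hE _ _).1 hz, h, Nat.zero_div, Nat.zero_mod]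
  have hpos : 0 < m ^ d := pow_pos hm0 d
  refine ⟨Fin (m ^ d) × Fin m, S, ?_, ?_, ?_, ?_, ?_⟩
  · exact
      { toFun := fun x => ⟨(⟨0, hpos⟩, f x), (hZr _).2 rfl⟩
        invFun := fun x => f.symm x.1.2
        left_inv := fun x => f.symm_apply_apply x
        right_inv := by
          intro x
          apply Subtype.ext
          apply Prod.ext
          · apply Fin.ext
            exact ((hZr _).1 x.2).symm
          · exact f.apply_symm_apply _ }
  · rw [Nat.card_prod, Nat.card_fin, Nat.card_fin, ← hm, pow_succ]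
  · refine ⟨⟨?_, ?_, ?_, ?_, ?_, ?_, ?_, ?_, ?_⟩, ?_, ?_, ?_, ?_, ?_⟩
    · intro x
      exact (hO _ _).2 ⟨rfl, le_refl _⟩
    · intro x y h1 h2
      exact Prod.ext h1.1 (le_antisymm h1.2 h2.2)
    · intro x y z h1 h2
      exact (hO _ _).2 ⟨h1.1.trans h2.1, h1.2.trans h2.2⟩
    · intro x y z h1 h2
      exact (hE _ _).2 (((hE _ _).1 h1).trans ((hE _ _).1 h2))
    · intro x y y' h1 h2
      exact Prod.ext (Fin.ext (h1.1.trans h2.1.symm)) (h1.2.symm.trans h2.2)
    · intro x x' y h1 h2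
      refine Prod.ext (Fin.ext ?_) (h1.2.trans h2.2.symm)
      have h3 := h1.1
      have h4 := h2.1
      change y.1.val = x.1.val + 1 at h3
      change y.1.val = x'.1.val + 1 at h4
      omega
    · intro x y x' h1 h2
      refine ⟨(y.1, x'.2), (hN _ _).2 ⟨?_, rfl⟩, (hE _ _).2 rfl⟩
      rw [← (hE _ _).1 h2]
      exact h1.1
    · intro x y y' h1 h2
      refine ⟨(x.1, y'.2), (hN _ _).2 ⟨?_, rfl⟩, (hE _ _).2 rfl⟩
      rw [← (hE _ _).1 h2]
      exact h1.1
    · intro x x' y y' h1 h2 h3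
      refine (hO _ _).2 ⟨Fin.ext ?_, ?_⟩
      · rw [((hN _ _).1 h2).1, ((hN _ _).1 h3).1, ((hO _ _).1 h1).1]
      · rw [← ((hN _ _).1 h2).2, ← ((hN _ _).1 h3).2]
        exact h1.2
    · intro i x
      refine ⟨(x.1, ⟨x.1.val / m ^ i.val % m, Nat.mod_lt _ hm0⟩), (hE _ _).2 rfl,
        (hDi _ _).2 rfl, ?_⟩
      intro y' h1 h2
      refine Prod.ext ((hE _ _).1 h1).symm (Fin.ext ?_)
      rw [(hDi _ _).1 h2, (hE _ _).1 h1]
    · intro x y hxy
      have h1 : y.1.val = x.1.val + 1 := hxy.1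
      have h2 : x.1.val + 1 < m ^ d := by rw [← h1]; exact y.1.isLt
      obtain ⟨i, hi, ha, hb, hc⟩ := dg_inc m hm0 d x.1.val h2
      refine ⟨⟨i, hi⟩, ?_, ?_, ?_⟩
      · intro j hj
        constructor
        · intro z hz hDz
          rw [hMax, (hDi _ _).1 hDz, ← (hE _ _).1 hz]
          exact (ha j.val hj).1
        · intro z hz hDz
          rw [hMin, (hDi _ _).1 hDz, ← (hE _ _).1 hz, h1]
          exact (ha j.val hj).2
      · intro z z' w hz hDz hzz hw hDw
        have e1 : z.1 = x.1 := ((hE _ _).1 hz).symm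
        have e2 : w.1 = y.1 := ((hE _ _).1 hw).symm
        have e3 : z'.1.val = z.1.val + 1 := hzz.1
        have e4 : z.2 = z'.2 := hzz.2
        have e5 : z'.1 = y.1 := Fin.ext (by rw [e3, e1, h1])
        have e6 : z.2.val = x.1.val / m ^ i % m := by
          rw [← e1]
          exact hDz
        have e7 : w.2.val = (x.1.val + 1) / m ^ i % m := by
          rw [← h1, ← e2]
          exact hDw
        have e8 : w.2.val = z'.2.val + 1 := by rw [e7, hb, ← e4, e6]
        refine ⟨(hO _ _).2 ⟨e5.trans e2.symm, ?_⟩, ?_, ?_⟩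
        · rw [Fin.le_def, e8]
          exact Nat.le_succ _
        · intro h
          rw [h] at e8
          omega
        · intro u hu
          have e9 : z'.2.val ≤ u.2.val := hu.2
          rcases Nat.eq_or_lt_of_le e9 with h | h
          · left
            exact Prod.ext hu.1.symm (Fin.ext h.symm)
          · right
            refine (hO _ _).2 ⟨(e2.trans e5.symm).trans hu.1, ?_⟩
            rw [Fin.le_def, e8]
            exact h
      · intro j hj z z' hz hDz hzz
        have e1 : z.1 = x.1 := ((hE _ _).1 hz).symm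
        have e3 : z'.1.val = z.1.val + 1 := hzz.1
        have e4 : z.2 = z'.2 := hzz.2
        refine (hDi _ _).2 ?_
        rw [← e4, (hDi _ _).1 hDz, e3, e1]
        exact (hc j.val hj).symm
    · intro x hx
      rw [hZr] at hx
      have h1 := x.1.isLt
      refine ⟨(⟨x.1.val - 1, by omega⟩, x.2), (hN _ _).2 ⟨?_, rfl⟩⟩
      change x.1.val = x.1.val - 1 + 1
      omega
    · rintro x ⟨i, z, hz, hDz, hz2⟩
      have h1 := x.1.isLt
      have h2 : x.1.val + 1 < m ^ d := by
        by_contra h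
        apply hz2
        rw [hMax, (hDi _ _).1 hDz, ← (hE _ _).1 hz]
        exact dg_max m hm0 d x.1.val (by omega) i.val i.isLt
      exact ⟨(⟨x.1.val + 1, h2⟩, x.2), (hN _ _).2 ⟨rfl, rfl⟩⟩
    · intro x y hx hy
      rw [hE]
      exact Fin.ext (((hZr _).1 hx).trans ((hZr _).1 hy).symm)
  · intro n R v hv i
    rw [hZr]
    exact hv.1 i
  · intro n R v
    constructor
    · intro h
      have h1 := h.2
      change q n R (fun i => f.symm (f (v i))) at h1
      simpa using h1
    · intro h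
      refine ⟨fun i => rfl, ?_⟩
      change q n R (fun i => f.symm (f (v i)))
      simpa using h

end Pool.Agent.Helper72.TW
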