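import Mathlib
import Pool.Agent.Helper72.TW.LayDefs

set_option autoImplicit false

/-!
# TW-22: layered structures, ranks in the layers, chains of layers
-/

namespace Pool.Agent.Helper72.TW

open FirstOrder FirstOrder.Language

/-- Counting the layers: `N` is a bijection between the layers with the values `t` and `t + 1`. -/
theorem chain_card {M : Type} [Finite M] (N : M → M → Prop) (v : M → ℕ) (T : ℕ)
    (hv : ∀ x y, N x y → v y = v x + 1) (hf : ∀ x y y', N x y → N x y' → y = y')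
    (hi : ∀ x x' y, N x y → N x' y → x = x') (hp : ∀ y, v y ≠ 0 → ∃ x, N x y)
    (hs : ∀ x, v x + 1 < T → ∃ y, N x y) (hT : ∀ x, v x < T) :
    (∀ t, t < T → Nat.card {x // v x = t} = Nat.card {x // v x = 0}) ∧
      Nat.card M = T * Nat.card {x // v x = 0} := by
  classical
  have key : ∀ t, t < T → Nat.card {x // v x = t} = Nat.card {x // v x = 0} := by
    intro t
    induction t with
    | zero => intro _; rfl
    | succ t ih =>
      intro ht
      rw [← ih (by omega)]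
      symm
      have h1 : ∀ x : {x // v x = t}, ∃ y, N x.1 y := fun x => hs x.1 (by rw [x.2]; exact ht)
      choose f hf' using h1
      refine Nat.card_eq_of_bijective
        (fun x => (⟨f x, by rw [hv _ _ (hf' x), x.2]⟩ : {x // v x = t + 1})) ⟨?_, ?_⟩
      · intro x x' h
        have h2 : f x = f x' := congrArg Subtype.val h
        exact Subtype.ext (hi _ _ _ (hf' x) (h2 ▸ hf' x'))
      · rintro ⟨y, hy⟩
        obtain ⟨x, hx⟩ := hp y (by omega)
        have hvx : v x = t := by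
          have := hv _ _ hx
          omega
        exact ⟨⟨x, hvx⟩, Subtype.ext (hf _ _ _ (hf' ⟨x, hvx⟩) hx)⟩
  refine ⟨key, ?_⟩
  let w : M → Fin T := fun x => ⟨v x, hT x⟩
  have hw : ∀ t : Fin T, Nat.card {x // w x = t} = Nat.card {x // v x = 0} := by
    intro t
    rw [← key t.1 t.2]
    exact Nat.card_congr (Equiv.subtypeEquivRight fun x => by simp [w, Fin.ext_iff])
  rw [← Nat.card_congr (Equiv.sigmaFiberEquiv w), Nat.card_sigma,
    Finset.sum_congr rfl (fun t _ => hw t)]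
  simp

variable {M : Type} [Finite M] {Y : Ly M}

/-- The rank in the layer. -/
noncomputable def Ly.rk (Y : Ly M) (x : M) : ℕ := Nat.card {y // Y.O y x ∧ y ≠ x}

/-- The size of the layer. -/
noncomputable def Ly.cs (Y : Ly M) (x : M) : ℕ := Nat.card {y // Y.E x y}

theorem ly_E_symm {x y : M} (h : Y.E x y) : Y.E y x := Or.symm h

private theorem card_le_of_imp {p q : M → Prop} (h : ∀ x, p x → q x) :
    Nat.card {x // p x} ≤ Nat.card {x // q x} :=
  Set.ncard_le_ncard (s := {x | p x}) (t := {x | q x}) h (Set.toFinite _)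

private theorem card_lt_of_imp {p q : M → Prop} (h : ∀ x, p x → q x) (z : M) (hz : q z)
    (hz' : ¬ p z) : Nat.card {x // p x} < Nat.card {x // q x} :=
  Set.ncard_lt_ncard (s := {x | p x}) (t := {x | q x}) ⟨h, fun hc => hz' (hc hz)⟩
    (Set.toFinite _)

theorem ly_rk_lt (hY : Y.Ax) (x : M) : Y.rk x < Y.cs x :=
  card_lt_of_imp (fun _ hy => Or.inr hy.1) x (Or.inl (hY.refl x)) fun h => h.2 rfl

theorem ly_cs_E (hY : Y.Ax) {x y : M} (h : Y.E x y) : Y.cs x = Y.cs y :=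
  le_antisymm (card_le_of_imp fun z hz => hY.cls _ _ _ (ly_E_symm h) hz)
    (card_le_of_imp fun z hz => hY.cls _ _ _ h hz)

theorem ly_cs_N (hY : Y.Ax) {x y : M} (h : Y.N x y) : Y.cs x = Y.cs y := by
  have h1 : ∀ z : {z // Y.E x z}, ∃ w, Y.N z.1 w ∧ Y.E y w := fun z => hY.nfor _ _ _ h z.2
  choose f hf using h1
  refine Nat.card_eq_of_bijective (fun z => (⟨f z, (hf z).2⟩ : {w // Y.E y w})) ⟨?_, ?_⟩
  · intro z z' e
    have e' : f z = f z' := congrArg Subtype.val e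
    exact Subtype.ext (hY.ninj _ _ _ (hf z).1 (e' ▸ (hf z').1))
  · rintro ⟨w, hw⟩
    obtain ⟨z, hz, hz'⟩ := hY.nback _ _ _ h hw
    exact ⟨⟨z, hz'⟩, Subtype.ext (hY.nfun _ _ _ (hf ⟨z, hz'⟩).1 hz)⟩

theorem ly_rk_N (hY : Y.Ax) {x y : M} (h : Y.N x y) : Y.rk x = Y.rk y := by
  have h1 : ∀ z : {z // Y.O z x ∧ z ≠ x}, ∃ w, Y.N z.1 w ∧ Y.O w y ∧ w ≠ y := by
    rintro ⟨z, hz, hzx⟩
    obtain ⟨w, hw, _⟩ := hY.nfor _ _ _ h (Or.inr hz : Y.E x z)
    refine ⟨w, hw, hY.nord _ _ _ _ hz hw h, ?_⟩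
    rintro rfl
    exact hzx (hY.ninj _ _ _ hw h)
  choose f hf using h1
  refine Nat.card_eq_of_bijective (fun z => (⟨f z, (hf z).2⟩ : {w // Y.O w y ∧ w ≠ y})) ⟨?_, ?_⟩
  · intro z z' e
    have e' : f z = f z' := congrArg Subtype.val e
    exact Subtype.ext (hY.ninj _ _ _ (hf z).1 (e' ▸ (hf z').1))
  · rintro ⟨w, hw, hwy⟩
    obtain ⟨z, hz, hz'⟩ := hY.nback _ _ _ h (Or.inr hw : Y.E y w)
    have hzx : z ≠ x := by
      rintro rfl
      exact hwy (hY.nfun _ _ _ hz h)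
    have hO : Y.O z x := by
      rcases hz' with hz' | hz'
      · exact absurd (hY.antisymm _ _ hw (hY.nord _ _ _ _ hz' h hz)) hwy
      · exact hz'
    exact ⟨⟨z, hO, hzx⟩, Subtype.ext (hY.nfun _ _ _ (hf ⟨z, hO, hzx⟩).1 hz)⟩

theorem ly_O_iff (hY : Y.Ax) {x y : M} (h : Y.E x y) : Y.O x y ↔ Y.rk x ≤ Y.rk y := by
  constructor
  · intro hxy
    refine card_le_of_imp fun z hz => ⟨hY.trans _ _ _ hz.1 hxy, ?_⟩
    rintro rfl
    exact hz.2 (hY.antisymm _ _ hz.1 hxy)
  · intro hr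
    rcases h with h | h
    · exact h
    · by_cases e : y = x
      · subst e
        exact hY.refl _
      · exfalso
        have hlt : Y.rk y < Y.rk x := by
          refine card_lt_of_imp (fun z hz => ⟨hY.trans _ _ _ hz.1 h, ?_⟩) y ⟨h, e⟩ fun hc => hc.2 rfl
          rintro rfl
          exact hz.2 (hY.antisymm _ _ hz.1 h)
        omega

theorem ly_rk_inj (hY : Y.Ax) {x y : M} (h : Y.E x y) (hr : Y.rk x = Y.rk y) : x = y :=
  hY.antisymm _ _ ((ly_O_iff hY h).2 hr.le) ((ly_O_iff hY (ly_E_symm h)).2 hr.ge)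

theorem ly_exists_rk (hY : Y.Ax) (x : M) {t : ℕ} (ht : t < Y.cs x) :
    ∃ y, Y.E x y ∧ Y.rk y = t := by
  classical
  let f : {y // Y.E x y} → Fin (Y.cs x) := fun y =>
    ⟨Y.rk y.1, by rw [ly_cs_E hY y.2]; exact ly_rk_lt hY _⟩
  have hinj : Function.Injective f := by
    intro y y' e
    have e' : Y.rk y.1 = Y.rk y'.1 := congrArg Fin.val e
    exact Subtype.ext (ly_rk_inj hY (hY.cls _ _ _ (ly_E_symm y.2) y'.2) e')
  have hbij : Function.Bijective f :=
    hinj.bijective_of_nat_card_le (by rw [Nat.card_eq_fintype_card, Fintype.card_fin]; rfl)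
  obtain ⟨y, hy⟩ := hbij.2 ⟨t, ht⟩
  exact ⟨y.1, y.2, congrArg Fin.val hy⟩

theorem ly_min_iff (hY : Y.Ax) {x : M} : Y.Min x ↔ Y.rk x = 0 := by
  constructor
  · intro h
    have : IsEmpty {y // Y.O y x ∧ y ≠ x} :=
      ⟨fun y => y.2.2 (hY.antisymm _ _ y.2.1 (h _ (Or.inr y.2.1)))⟩
    exact Nat.card_of_isEmpty
  · intro h u hu
    rw [ly_O_iff hY hu, h]
    exact Nat.zero_le _

theorem ly_max_iff (hY : Y.Ax) {x : M} : Y.Max x ↔ Y.rk x + 1 = Y.cs x := by
  constructor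
  · intro h
    have h1 := ly_rk_lt hY x
    obtain ⟨y, hy, hr⟩ := ly_exists_rk hY x (t := Y.cs x - 1) (by omega)
    have h2 := (ly_O_iff hY (ly_E_symm hy)).1 (h _ hy)
    omega
  · intro h u hu
    have h1 := ly_rk_lt hY u
    rw [← ly_cs_E hY hu] at h1
    rw [ly_O_iff hY (ly_E_symm hu)]
    omega

theorem ly_S_iff (hY : Y.Ax) {x y : M} : Y.S x y ↔ Y.E x y ∧ Y.rk y = Y.rk x + 1 := by
  constructor
  · rintro ⟨hO, hne, hu⟩
    have hE : Y.E x y := Or.inl hO
    refine ⟨hE, ?_⟩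
    have h1 := (ly_O_iff hY hE).1 hO
    have h2 : Y.rk x ≠ Y.rk y := fun h => hne (ly_rk_inj hY hE h)
    by_contra h3
    have h4 := ly_rk_lt hY y
    rw [← ly_cs_E hY hE] at h4
    obtain ⟨u, hEu, hru⟩ := ly_exists_rk hY x (t := Y.rk x + 1) (by omega)
    rcases hu u ((ly_O_iff hY hEu).2 (by omega)) with e | e
    · subst e
      omega
    · have hEyu : Y.E y u := hY.cls _ _ _ (ly_E_symm hE) hEu
      have h5 := (ly_O_iff hY hEyu).1 e
      omega
  · rintro ⟨hE, hr⟩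
    refine ⟨(ly_O_iff hY hE).2 (by omega), ?_, ?_⟩
    · rintro rfl
      omega
    · intro u hu
      have hEu : Y.E x u := Or.inl hu
      have h1 := (ly_O_iff hY hEu).1 hu
      by_cases h2 : Y.rk x = Y.rk u
      · exact Or.inl (ly_rk_inj hY hEu h2).symm
      · exact Or.inr ((ly_O_iff hY (hY.cls _ _ _ (ly_E_symm hE) hEu)).2 (by omega))

end Pool.Agent.Helper72.TW
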