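import Mathlib
import Pool.Agent.Helper72.TW.LayL

set_option autoImplicit false

/-!
# TW-23: digit counters

`dg i x` = rank of the point of the layer of `x` marked by `D i`; `v x = ∑ i, dg i x * (cs x) ^ i` (less than `(cs x) ^ d`,
compare `Nat.ofDigits`, `finFunctionFinEquiv`). `N x y → v y = v x + 1`: `inc` with `cs y = cs x`. By induction on `v x` all
layers have the size of the layer with `v = 0` (unique by `uni`, exists: go back with `pre` from any point). Then `chain_card`
with `T = m ^ d`, `m = Nat.card {x // v x = 0}` (`suc`: if `v x + 1 < m ^ d` some digit is not maximal).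
-/

namespace Pool.Agent.Helper72.TW

open FirstOrder FirstOrder.Language

/-- Adding one to a number given by its digits. -/
private theorem digit_inc : ∀ (d : ℕ) (c : ℕ) (f g : Fin d → ℕ) (i : Fin d),
    (∀ j, j < i → f j + 1 = c ∧ g j = 0) → g i = f i + 1 → (∀ j, i < j → g j = f j) →
    ∑ j, g j * c ^ (j : ℕ) = (∑ j, f j * c ^ (j : ℕ)) + 1 := by
  intro d
  induction d with
  | zero => intro c f g i; exact i.elim0
  | succ d ih =>
    intro c f g i hlo hi hhi
    rw [Fin.sum_univ_succ, Fin.sum_univ_succ]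
    have hs : ∀ a : Fin (d + 1) → ℕ, ∑ j : Fin d, a j.succ * c ^ (j.succ : ℕ) =
        c * ∑ j : Fin d, a j.succ * c ^ (j : ℕ) := by
      intro a
      rw [Finset.mul_sum]
      refine Finset.sum_congr rfl fun j _ => ?_
      rw [Fin.val_succ, pow_succ]; ring
    rw [hs g, hs f]
    rcases Fin.eq_zero_or_eq_succ i with h0 | ⟨i', hi'⟩
    · subst h0
      have : ∀ j : Fin d, g j.succ = f j.succ := fun j => hhi _ (Fin.succ_pos j)
      simp only [this, hi, Fin.val_zero, pow_zero, mul_one]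
      ring
    · subst hi'
      have h0 := hlo 0 (Fin.succ_pos i')
      have := ih c (fun j => f j.succ) (fun j => g j.succ) i'
        (fun j hj => hlo _ (Fin.succ_lt_succ_iff.mpr hj)) hi
        (fun j hj => hhi _ (Fin.succ_lt_succ_iff.mpr hj))
      rw [this, h0.2]
      simp only [Fin.val_zero, pow_zero, mul_one, mul_add, zero_add]
      rw [← h0.1]
      ring

private theorem digit_lt (d c : ℕ) (f : Fin d → ℕ) (hf : ∀ i, f i < c) :
    ∑ j, f j * c ^ (j : ℕ) < c ^ d := by
  have h := (finFunctionFinEquiv (fun i => (⟨f i, hf i⟩ : Fin c))).2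
  rw [finFunctionFinEquiv_apply_val] at h
  exact h

private theorem digit_max : ∀ (d : ℕ) (c : ℕ) (f : Fin d → ℕ), (∀ i, f i + 1 = c) →
    (∑ j, f j * c ^ (j : ℕ)) + 1 = c ^ d := by
  intro d
  induction d with
  | zero => intro c f _; simp
  | succ d ih =>
    intro c f hf
    rw [Fin.sum_univ_castSucc]
    have h1 := ih c (fun i => f i.castSucc) (fun i => hf _)
    simp only [Fin.val_castSucc, Fin.val_last] at h1 ⊢
    have h2 := hf (Fin.last d)
    calc _ = ((∑ x : Fin d, f x.castSucc * c ^ (x : ℕ)) + 1) + f (Fin.last d) * c ^ d := by ring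
      _ = (f (Fin.last d) + 1) * c ^ d := by rw [h1]; ring
      _ = c ^ (d + 1) := by rw [h2]; ring

theorem dig_main {M : Type} [Finite M] [Nonempty M] {d : ℕ} {Y : Ly M} {D : Fin d → M → Prop}
    (h : DigAx Y D) : ∃ v : M → ℕ, (∀ x y, Y.E x y → v x = v y) ∧
      (∀ x y, Y.N x y → v y = v x + 1) ∧ (∀ y, v y ≠ 0 → ∃ x, Y.N x y) ∧
      (∀ x, v x = 0 ↔ Zr Y D x) ∧
      (∀ t, Nat.card {x // v x = t} ≤ Nat.card {x // v x = 0}) ∧
      Nat.card M = Nat.card {x // v x = 0} ^ (d + 1) := by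
  classical
  have hY := h.ly
  choose mk hmE hmD hmU using h.dig
  -- the digits
  let dg : Fin d → M → ℕ := fun i x => Y.rk (mk i x)
  have hErefl : ∀ x, Y.E x x := fun x => Or.inl (hY.refl x)
  have hdgE : ∀ i x z, Y.E x z → D i z → dg i x = Y.rk z := by
    intro i x z hxz hz
    have := hmU i x z hxz hz
    simp only [dg, this]
  have hdglt : ∀ i x, dg i x < Y.cs x := by
    intro i x
    have h1 := ly_rk_lt hY (mk i x)
    rwa [← ly_cs_E hY (hmE i x)] at h1
  have hcspos : ∀ x, 0 < Y.cs x := fun x => lt_of_le_of_lt (Nat.zero_le _) (ly_rk_lt hY x)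
  let v : M → ℕ := fun x => ∑ i, dg i x * Y.cs x ^ (i : ℕ)
  have hvE : ∀ x y, Y.E x y → v x = v y := by
    intro x y hxy
    have h1 : Y.cs x = Y.cs y := ly_cs_E hY hxy
    have h2 : ∀ i, dg i x = dg i y := fun i =>
      hdgE i x (mk i y) (hY.cls _ _ _ hxy (hmE i y)) (hmD i y)
    simp only [v, h1, h2]
  have hvN : ∀ x y, Y.N x y → v y = v x + 1 := by
    intro x y hxy
    obtain ⟨i, hlo, hi, hhi⟩ := h.inc x y hxy
    have hc : Y.cs x = Y.cs y := ly_cs_N hY hxy
    simp only [v]
    rw [← hc]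
    refine digit_inc d (Y.cs x) (fun j => dg j x) (fun j => dg j y) i ?_ ?_ ?_
    · intro j hj
      obtain ⟨h1, h2⟩ := hlo j hj
      constructor
      · have := (ly_max_iff hY).mp (h1 (mk j x) (hmE j x) (hmD j x))
        rw [← ly_cs_E hY (hmE j x)] at this
        exact this
      · exact (ly_min_iff hY).mp (h2 (mk j y) (hmE j y) (hmD j y))
    · obtain ⟨z', hz', hyz'⟩ := hY.nfor x y (mk i x) hxy (hmE i x)
      have h1 := hi (mk i x) z' (mk i y) (hmE i x) (hmD i x) hz' (hmE i y) (hmD i y)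
      have h2 := ((ly_S_iff hY).mp h1).2
      rw [← ly_rk_N hY hz'] at h2
      exact h2
    · intro j hj
      obtain ⟨z', hz', hyz'⟩ := hY.nfor x y (mk j x) hxy (hmE j x)
      have h1 := hhi j hj (mk j x) z' (hmE j x) (hmD j x) hz'
      show dg j y = dg j x
      rw [hdgE j y z' hyz' h1, ← ly_rk_N hY hz']
  have hv0 : ∀ x, v x = 0 ↔ Zr Y D x := by
    intro x
    simp only [v]
    rw [Finset.sum_eq_zero_iff]
    constructor
    · intro hx i z hxz hz
      rw [ly_min_iff hY, ← hdgE i x z hxz hz]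
      have := hx i (Finset.mem_univ _)
      rcases Nat.mul_eq_zero.mp this with h1 | h1
      · exact h1
      · exact absurd h1 (pow_pos (hcspos x) _).ne'
    · intro hx i _
      have h1 := (ly_min_iff hY).mp (hx i (mk i x) (hmE i x) (hmD i x))
      show Y.rk (mk i x) * _ = 0
      rw [h1, zero_mul]
  have hpre : ∀ y, v y ≠ 0 → ∃ x, Y.N x y := by
    intro y hy
    exact h.pre y (fun hz => hy ((hv0 y).mpr hz))
  -- all layers have the same size
  have hback : ∀ t x, v x = t → ∃ x0, v x0 = 0 ∧ Y.cs x = Y.cs x0 := by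
    intro t
    induction t with
    | zero => intro x hx; exact ⟨x, hx, rfl⟩
    | succ t ih =>
      intro x hx
      obtain ⟨y, hy⟩ := hpre x (by omega)
      have h1 := hvN y x hy
      obtain ⟨x0, hx0, hc⟩ := ih y (by omega)
      exact ⟨x0, hx0, by rw [← ly_cs_N hY hy, hc]⟩
  obtain ⟨xx⟩ := (inferInstance : Nonempty M)
  obtain ⟨x0, hx0, -⟩ := hback _ xx rfl
  have huni : ∀ x, v x = 0 → Y.E x0 x := fun x hx => h.uni x0 x ((hv0 _).mp hx0) ((hv0 _).mp hx)
  have hcs : ∀ x, Y.cs x = Y.cs x0 := by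
    intro x
    obtain ⟨x1, hx1, hc⟩ := hback _ x rfl
    rw [hc, ly_cs_E hY (huni x1 hx1)]
  have hm : Nat.card {x // v x = 0} = Y.cs x0 := by
    unfold Ly.cs
    refine Nat.card_congr (Equiv.subtypeEquivRight fun x => ?_)
    exact ⟨huni x, fun hx => by rw [← hvE x0 x hx]; exact hx0⟩
  have hlt : ∀ x, v x < Y.cs x0 ^ d := by
    intro x
    have := digit_lt d (Y.cs x) (fun i => dg i x) (fun i => hdglt i x)
    rw [hcs x] at this
    simpa only [v, hcs x] using this
  have hsuc : ∀ x, v x + 1 < Y.cs x0 ^ d → ∃ y, Y.N x y := by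
    intro x hx
    refine h.suc x ?_
    by_contra hno
    push Not at hno
    have h1 : ∀ i, dg i x + 1 = Y.cs x0 := by
      intro i
      have := (ly_max_iff hY).mp (hno i (mk i x) (hmE i x) (hmD i x))
      rw [hcs] at this
      exact this
    have h2 := digit_max d (Y.cs x0) (fun i => dg i x) h1
    have h3 : v x + 1 = Y.cs x0 ^ d := by
      rw [← h2]
      simp only [v, hcs x]
    omega
  obtain ⟨hA, hB⟩ := chain_card Y.N v (Y.cs x0 ^ d) hvN hY.nfun hY.ninj hpre hsuc hlt
  refine ⟨v, hvE, hvN, hpre, hv0, ?_, ?_⟩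
  · intro t
    by_cases ht : t < Y.cs x0 ^ d
    · exact (hA t ht).le
    · have : IsEmpty {x // v x = t} := ⟨fun x => ht (by rw [← x.2]; exact hlt x.1)⟩
      simp
  · rw [hB, hm, pow_succ]

end Pool.Agent.Helper72.TW
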