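import Mathlib
import Pool.Agent.Helper72.TW.LayDefs
import Pool.Agent.Helper72.WT.AxDef

set_option autoImplicit false

/-!
# TW-25: the axioms of the counters are definable

`udef_ly…`: for a language `LL` with two binary symbols the relations and the axioms `Ly.Ax` of `lyOf LL o n M` are `UDef`;
then `DigAx`, `BitAx` (see `Helper72/WT/AxDef.lean` for the technique). In `dig_sentence` also: every tuple related by a symbol
of `L` consists of points with `Zr`.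
-/

namespace Pool.Agent.Helper72.TW

open FirstOrder FirstOrder.Language Pool.Agent.Helper87.AU

section Gen

variable {LL : FirstOrder.Language.{0, 0}}

theorem dgu_rel1 (R : LL.Relations 1) (α : Type) (a : α) :
    UDef LL α (fun _ _ v => Structure.RelMap R ![v a]) := by
  refine (UDef.rel (L := LL) R (fun _ => Term.var a)).congr fun M _ v => ?_
  have : (fun i : Fin 1 => ((fun _ => Term.var a : Fin 1 → LL.Term α) i).realize v) =
      ![v a] := by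
    funext i
    fin_cases i
    rfl
  rw [this]

theorem dgu_rel2 (R : LL.Relations 2) (α : Type) (a b : α) :
    UDef LL α (fun _ _ v => Structure.RelMap R ![v a, v b]) := by
  refine (UDef.rel (L := LL) R ![Term.var a, Term.var b]).congr fun M _ v => ?_
  have : (fun i : Fin 2 => ((![Term.var a, Term.var b] : Fin 2 → LL.Term α) i).realize v) =
      ![v a, v b] := by
    funext i
    fin_cases i <;> rfl
  rw [this]

/-- Universal sentences. -/
theorem dgu_all (k : ℕ) {P : ∀ (M : Type) [LL.Structure M], (Fin k → M) → Prop}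
    (h : UDef LL (Empty ⊕ Fin k) (fun M _ v => P M (v ∘ Sum.inr))) :
    UDef LL Empty (fun M _ _ => ∀ w : Fin k → M, P M w) :=
  UDef.all (β := Fin k) (P := fun M _ _ w => P M w) h

variable (o n : LL.Relations 2)

theorem dgu_O (α : Type) (a b : α) :
    UDef LL α (fun M _ v => (lyOf LL o n M).O (v a) (v b)) := dgu_rel2 o α a b

theorem dgu_N (α : Type) (a b : α) :
    UDef LL α (fun M _ v => (lyOf LL o n M).N (v a) (v b)) := dgu_rel2 n α a b

theorem dgu_E (α : Type) (a b : α) :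
    UDef LL α (fun M _ v => (lyOf LL o n M).E (v a) (v b)) :=
  (dgu_O o n α a b).or (dgu_O o n α b a)

theorem dgu_Min (α : Type) (a : α) :
    UDef LL α (fun M _ v => (lyOf LL o n M).Min (v a)) := by
  refine UDef.allu (P := fun M _ v u => (lyOf LL o n M).E (v a) u → (lyOf LL o n M).O (v a) u) ?_
  exact (dgu_E o n _ (Sum.inl a) (Sum.inr ())).imp (dgu_O o n _ (Sum.inl a) (Sum.inr ()))

theorem dgu_Max (α : Type) (a : α) :
    UDef LL α (fun M _ v => (lyOf LL o n M).Max (v a)) := by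
  refine UDef.allu (P := fun M _ v u => (lyOf LL o n M).E (v a) u → (lyOf LL o n M).O u (v a)) ?_
  exact (dgu_E o n _ (Sum.inl a) (Sum.inr ())).imp (dgu_O o n _ (Sum.inr ()) (Sum.inl a))

theorem dgu_S (α : Type) (a b : α) :
    UDef LL α (fun M _ v => (lyOf LL o n M).S (v a) (v b)) := by
  refine (dgu_O o n α a b).and ((UDef.varEq a b).not.and ?_)
  refine UDef.allu (P := fun M _ v u => (lyOf LL o n M).O (v a) u →
    u = v a ∨ (lyOf LL o n M).O (v b) u) ?_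
  exact (dgu_O o n _ (Sum.inl a) (Sum.inr ())).imp
    ((UDef.varEq (Sum.inr ()) (Sum.inl a)).or (dgu_O o n _ (Sum.inl b) (Sum.inr ())))

theorem dgu_lex (α : Type) (p q z w : α) :
    UDef LL α (fun M _ v => (lyOf LL o n M).lex (v p) (v q) (v z) (v w)) :=
  ((dgu_O o n α p z).and (UDef.varEq p z).not).or
    ((UDef.varEq p z).and ((dgu_O o n α q w).and (UDef.varEq q w).not))

theorem dgu_refl : UDef LL Empty (fun M _ _ => ∀ x, (lyOf LL o n M).O x x) :=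
  UDef.allu (P := fun M _ _ x => (lyOf LL o n M).O x x) (dgu_O o n _ (Sum.inr ()) (Sum.inr ()))

theorem dgu_antisymm : UDef LL Empty (fun M _ _ => ∀ x y, (lyOf LL o n M).O x y →
    (lyOf LL o n M).O y x → x = y) := by
  refine (dgu_all 2 (P := fun M _ w => (lyOf LL o n M).O (w 0) (w 1) →
    (lyOf LL o n M).O (w 1) (w 0) → w 0 = w 1) ?_).congr fun M _ _ =>
      ⟨fun h x y => h ![x, y], fun h w => h (w 0) (w 1)⟩
  exact (dgu_O o n _ (Sum.inr 0) (Sum.inr 1)).imp ((dgu_O o n _ (Sum.inr 1) (Sum.inr 0)).imp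
    (UDef.varEq (Sum.inr 0) (Sum.inr 1)))

theorem dgu_trans : UDef LL Empty (fun M _ _ => ∀ x y z, (lyOf LL o n M).O x y →
    (lyOf LL o n M).O y z → (lyOf LL o n M).O x z) := by
  refine (dgu_all 3 (P := fun M _ w => (lyOf LL o n M).O (w 0) (w 1) →
    (lyOf LL o n M).O (w 1) (w 2) → (lyOf LL o n M).O (w 0) (w 2)) ?_).congr fun M _ _ =>
      ⟨fun h x y z => h ![x, y, z], fun h w => h (w 0) (w 1) (w 2)⟩
  exact (dgu_O o n _ (Sum.inr 0) (Sum.inr 1)).imp ((dgu_O o n _ (Sum.inr 1) (Sum.inr 2)).imp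
    (dgu_O o n _ (Sum.inr 0) (Sum.inr 2)))

theorem dgu_cls : UDef LL Empty (fun M _ _ => ∀ x y z, (lyOf LL o n M).E x y →
    (lyOf LL o n M).E y z → (lyOf LL o n M).E x z) := by
  refine (dgu_all 3 (P := fun M _ w => (lyOf LL o n M).E (w 0) (w 1) →
    (lyOf LL o n M).E (w 1) (w 2) → (lyOf LL o n M).E (w 0) (w 2)) ?_).congr fun M _ _ =>
      ⟨fun h x y z => h ![x, y, z], fun h w => h (w 0) (w 1) (w 2)⟩
  exact (dgu_E o n _ (Sum.inr 0) (Sum.inr 1)).imp ((dgu_E o n _ (Sum.inr 1) (Sum.inr 2)).imp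
    (dgu_E o n _ (Sum.inr 0) (Sum.inr 2)))

theorem dgu_nfun : UDef LL Empty (fun M _ _ => ∀ x y y', (lyOf LL o n M).N x y →
    (lyOf LL o n M).N x y' → y = y') := by
  refine (dgu_all 3 (P := fun M _ w => (lyOf LL o n M).N (w 0) (w 1) →
    (lyOf LL o n M).N (w 0) (w 2) → w 1 = w 2) ?_).congr fun M _ _ =>
      ⟨fun h x y z => h ![x, y, z], fun h w => h (w 0) (w 1) (w 2)⟩
  exact (dgu_N o n _ (Sum.inr 0) (Sum.inr 1)).imp ((dgu_N o n _ (Sum.inr 0) (Sum.inr 2)).imp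
    (UDef.varEq (Sum.inr 1) (Sum.inr 2)))

theorem dgu_ninj : UDef LL Empty (fun M _ _ => ∀ x x' y, (lyOf LL o n M).N x y →
    (lyOf LL o n M).N x' y → x = x') := by
  refine (dgu_all 3 (P := fun M _ w => (lyOf LL o n M).N (w 0) (w 2) →
    (lyOf LL o n M).N (w 1) (w 2) → w 0 = w 1) ?_).congr fun M _ _ =>
      ⟨fun h x y z => h ![x, y, z], fun h w => h (w 0) (w 1) (w 2)⟩
  exact (dgu_N o n _ (Sum.inr 0) (Sum.inr 2)).imp ((dgu_N o n _ (Sum.inr 1) (Sum.inr 2)).imp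
    (UDef.varEq (Sum.inr 0) (Sum.inr 1)))

theorem dgu_nfor : UDef LL Empty (fun M _ _ => ∀ x y x', (lyOf LL o n M).N x y →
    (lyOf LL o n M).E x x' → ∃ y', (lyOf LL o n M).N x' y' ∧ (lyOf LL o n M).E y y') := by
  refine (dgu_all 3 (P := fun M _ w => (lyOf LL o n M).N (w 0) (w 1) →
    (lyOf LL o n M).E (w 0) (w 2) → ∃ y', (lyOf LL o n M).N (w 2) y' ∧
      (lyOf LL o n M).E (w 1) y') ?_).congr fun M _ _ =>
      ⟨fun h x y z => h ![x, y, z], fun h w => h (w 0) (w 1) (w 2)⟩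
  refine (dgu_N o n _ (Sum.inr 0) (Sum.inr 1)).imp ((dgu_E o n _ (Sum.inr 0) (Sum.inr 2)).imp ?_)
  refine UDef.exu (P := fun M _ v y' => (lyOf LL o n M).N (v (Sum.inr 2)) y' ∧
      (lyOf LL o n M).E (v (Sum.inr 1)) y') ?_
  exact (dgu_N o n _ (Sum.inl (Sum.inr 2)) (Sum.inr ())).and
    (dgu_E o n _ (Sum.inl (Sum.inr 1)) (Sum.inr ()))

theorem dgu_nback : UDef LL Empty (fun M _ _ => ∀ x y y', (lyOf LL o n M).N x y →
    (lyOf LL o n M).E y y' → ∃ x', (lyOf LL o n M).N x' y' ∧ (lyOf LL o n M).E x x') := by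
  refine (dgu_all 3 (P := fun M _ w => (lyOf LL o n M).N (w 0) (w 1) →
    (lyOf LL o n M).E (w 1) (w 2) → ∃ x', (lyOf LL o n M).N x' (w 2) ∧
      (lyOf LL o n M).E (w 0) x') ?_).congr fun M _ _ =>
      ⟨fun h x y z => h ![x, y, z], fun h w => h (w 0) (w 1) (w 2)⟩
  refine (dgu_N o n _ (Sum.inr 0) (Sum.inr 1)).imp ((dgu_E o n _ (Sum.inr 1) (Sum.inr 2)).imp ?_)
  refine UDef.exu (P := fun M _ v x' => (lyOf LL o n M).N x' (v (Sum.inr 2)) ∧
      (lyOf LL o n M).E (v (Sum.inr 0)) x') ?_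
  exact (dgu_N o n _ (Sum.inr ()) (Sum.inl (Sum.inr 2))).and
    (dgu_E o n _ (Sum.inl (Sum.inr 0)) (Sum.inr ()))

theorem dgu_nord : UDef LL Empty (fun M _ _ => ∀ x x' y y', (lyOf LL o n M).O x x' →
    (lyOf LL o n M).N x y → (lyOf LL o n M).N x' y' → (lyOf LL o n M).O y y') := by
  refine (dgu_all 4 (P := fun M _ w => (lyOf LL o n M).O (w 0) (w 1) →
    (lyOf LL o n M).N (w 0) (w 2) → (lyOf LL o n M).N (w 1) (w 3) →
      (lyOf LL o n M).O (w 2) (w 3)) ?_).congr fun M _ _ =>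
      ⟨fun h x y z t => h ![x, y, z, t], fun h w => h (w 0) (w 1) (w 2) (w 3)⟩
  exact (dgu_O o n _ (Sum.inr 0) (Sum.inr 1)).imp ((dgu_N o n _ (Sum.inr 0) (Sum.inr 2)).imp
    ((dgu_N o n _ (Sum.inr 1) (Sum.inr 3)).imp (dgu_O o n _ (Sum.inr 2) (Sum.inr 3))))

theorem dgu_Ax : UDef LL Empty (fun M _ _ => (lyOf LL o n M).Ax) := by
  refine ((dgu_refl o n).and <| (dgu_antisymm o n).and <| (dgu_trans o n).and <|
    (dgu_cls o n).and <| (dgu_nfun o n).and <| (dgu_ninj o n).and <| (dgu_nfor o n).and <|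
    (dgu_nback o n).and (dgu_nord o n)).congr fun M _ v => ?_
  constructor
  · rintro ⟨h1, h2, h3, h4, h5, h6, h7, h8, h9⟩
    exact ⟨h1, h2, h3, h4, h5, h6, h7, h8, h9⟩
  · intro h
    exact ⟨h.refl, h.antisymm, h.trans, h.cls, h.nfun, h.ninj, h.nfor, h.nback, h.nord⟩

/-! ## Digits -/

variable {d : ℕ} (δ : Fin d → LL.Relations 1)

/-- The digits given by unary symbols. -/
def dguD (M : Type) [LL.Structure M] (i : Fin d) (x : M) : Prop := Structure.RelMap (δ i) ![x]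

theorem dgu_D (i : Fin d) (α : Type) (a : α) : UDef LL α (fun M _ v => dguD δ M i (v a)) :=
  dgu_rel1 (δ i) α a

theorem dgu_Zr (α : Type) (a : α) :
    UDef LL α (fun M _ v => Zr (lyOf LL o n M) (dguD δ M) (v a)) := by
  refine UDef.allFin fun i => ?_
  refine UDef.allu (P := fun M _ v z => (lyOf LL o n M).E (v a) z → dguD δ M i z →
    (lyOf LL o n M).Min z) ?_
  exact (dgu_E o n _ (Sum.inl a) (Sum.inr ())).imp ((dgu_D δ i _ (Sum.inr ())).imp
    (dgu_Min o n _ (Sum.inr ())))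

theorem dgu_allMax (i : Fin d) (α : Type) (a : α) :
    UDef LL α (fun M _ v => ∀ z, (lyOf LL o n M).E (v a) z → dguD δ M i z →
      (lyOf LL o n M).Max z) := by
  refine UDef.allu (P := fun M _ v z => (lyOf LL o n M).E (v a) z → dguD δ M i z →
    (lyOf LL o n M).Max z) ?_
  exact (dgu_E o n _ (Sum.inl a) (Sum.inr ())).imp ((dgu_D δ i _ (Sum.inr ())).imp
    (dgu_Max o n _ (Sum.inr ())))

theorem dgu_allMin (i : Fin d) (α : Type) (a : α) :
    UDef LL α (fun M _ v => ∀ z, (lyOf LL o n M).E (v a) z → dguD δ M i z →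
      (lyOf LL o n M).Min z) := by
  refine UDef.allu (P := fun M _ v z => (lyOf LL o n M).E (v a) z → dguD δ M i z →
    (lyOf LL o n M).Min z) ?_
  exact (dgu_E o n _ (Sum.inl a) (Sum.inr ())).imp ((dgu_D δ i _ (Sum.inr ())).imp
    (dgu_Min o n _ (Sum.inr ())))

theorem dgu_dig : UDef LL Empty (fun M _ _ => ∀ (i : Fin d) (x : M), ∃ y,
    (lyOf LL o n M).E x y ∧ dguD δ M i y ∧
      ∀ y', (lyOf LL o n M).E x y' → dguD δ M i y' → y' = y) := by
  refine UDef.allFin fun i => ?_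
  refine UDef.allu (P := fun M _ _ x => ∃ y, (lyOf LL o n M).E x y ∧ dguD δ M i y ∧
    ∀ y', (lyOf LL o n M).E x y' → dguD δ M i y' → y' = y) ?_
  refine UDef.exu (P := fun M _ v y => (lyOf LL o n M).E (v (Sum.inr ())) y ∧ dguD δ M i y ∧
    ∀ y', (lyOf LL o n M).E (v (Sum.inr ())) y' → dguD δ M i y' → y' = y) ?_
  refine (dgu_E o n _ (Sum.inl (Sum.inr ())) (Sum.inr ())).and
    ((dgu_D δ i _ (Sum.inr ())).and ?_)
  refine UDef.allu (P := fun M _ v y' => (lyOf LL o n M).E (v (Sum.inl (Sum.inr ()))) y' →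
    dguD δ M i y' → y' = v (Sum.inr ())) ?_
  exact (dgu_E o n _ (Sum.inl (Sum.inl (Sum.inr ()))) (Sum.inr ())).imp
    ((dgu_D δ i _ (Sum.inr ())).imp (UDef.varEq (Sum.inr ()) (Sum.inl (Sum.inr ()))))

theorem dgu_incB (i : Fin d) (α : Type) (a b : α) :
    UDef LL α (fun M _ v => ∀ z z' w, (lyOf LL o n M).E (v a) z → dguD δ M i z →
      (lyOf LL o n M).N z z' → (lyOf LL o n M).E (v b) w → dguD δ M i w →
      (lyOf LL o n M).S z' w) := by
  refine (UDef.all (β := Fin 3) (P := fun M _ v w => (lyOf LL o n M).E (v a) (w 0) →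
      dguD δ M i (w 0) → (lyOf LL o n M).N (w 0) (w 1) → (lyOf LL o n M).E (v b) (w 2) →
      dguD δ M i (w 2) → (lyOf LL o n M).S (w 1) (w 2)) ?_).congr fun M _ v =>
      ⟨fun h x y z => h ![x, y, z], fun h w => h (w 0) (w 1) (w 2)⟩
  exact (dgu_E o n _ (Sum.inl a) (Sum.inr 0)).imp ((dgu_D δ i _ (Sum.inr 0)).imp
    ((dgu_N o n _ (Sum.inr 0) (Sum.inr 1)).imp ((dgu_E o n _ (Sum.inl b) (Sum.inr 2)).imp
    ((dgu_D δ i _ (Sum.inr 2)).imp (dgu_S o n _ (Sum.inr 1) (Sum.inr 2))))))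

theorem dgu_incC (i : Fin d) (α : Type) (a : α) :
    UDef LL α (fun M _ v => ∀ z z', (lyOf LL o n M).E (v a) z → dguD δ M i z →
      (lyOf LL o n M).N z z' → dguD δ M i z') := by
  refine (UDef.all (β := Fin 2) (P := fun M _ v w => (lyOf LL o n M).E (v a) (w 0) →
      dguD δ M i (w 0) → (lyOf LL o n M).N (w 0) (w 1) → dguD δ M i (w 1)) ?_).congr
      fun M _ v => ⟨fun h x y => h ![x, y], fun h w => h (w 0) (w 1)⟩
  exact (dgu_E o n _ (Sum.inl a) (Sum.inr 0)).imp ((dgu_D δ i _ (Sum.inr 0)).imp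
    ((dgu_N o n _ (Sum.inr 0) (Sum.inr 1)).imp (dgu_D δ i _ (Sum.inr 1))))

theorem dgu_inc : UDef LL Empty (fun M _ _ => ∀ x y, (lyOf LL o n M).N x y → ∃ i : Fin d,
    (∀ j, j < i → (∀ z, (lyOf LL o n M).E x z → dguD δ M j z → (lyOf LL o n M).Max z) ∧
      ∀ z, (lyOf LL o n M).E y z → dguD δ M j z → (lyOf LL o n M).Min z) ∧
    (∀ z z' w, (lyOf LL o n M).E x z → dguD δ M i z → (lyOf LL o n M).N z z' →
      (lyOf LL o n M).E y w → dguD δ M i w → (lyOf LL o n M).S z' w) ∧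
    ∀ j, i < j → ∀ z z', (lyOf LL o n M).E x z → dguD δ M j z → (lyOf LL o n M).N z z' →
      dguD δ M j z') := by
  refine (dgu_all 2 (P := fun M _ w => (lyOf LL o n M).N (w 0) (w 1) → ∃ i : Fin d,
    (∀ j, j < i → (∀ z, (lyOf LL o n M).E (w 0) z → dguD δ M j z → (lyOf LL o n M).Max z) ∧
      ∀ z, (lyOf LL o n M).E (w 1) z → dguD δ M j z → (lyOf LL o n M).Min z) ∧
    (∀ z z' u, (lyOf LL o n M).E (w 0) z → dguD δ M i z → (lyOf LL o n M).N z z' →
      (lyOf LL o n M).E (w 1) u → dguD δ M i u → (lyOf LL o n M).S z' u) ∧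
    ∀ j, i < j → ∀ z z', (lyOf LL o n M).E (w 0) z → dguD δ M j z → (lyOf LL o n M).N z z' →
      dguD δ M j z') ?_).congr fun M _ _ =>
      ⟨fun h x y => h ![x, y], fun h w => h (w 0) (w 1)⟩
  refine (dgu_N o n _ (Sum.inr 0) (Sum.inr 1)).imp (UDef.exFin fun i => ?_)
  refine UDef.and (UDef.allFin fun j => (UDef.const _).imp
    ((dgu_allMax o n δ j _ (Sum.inr 0)).and (dgu_allMin o n δ j _ (Sum.inr 1)))) ?_
  exact (dgu_incB o n δ i _ (Sum.inr 0) (Sum.inr 1)).and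
    (UDef.allFin fun j => (UDef.const _).imp (dgu_incC o n δ j _ (Sum.inr 0)))

theorem dgu_pre : UDef LL Empty (fun M _ _ => ∀ x, ¬ Zr (lyOf LL o n M) (dguD δ M) x →
    ∃ y, (lyOf LL o n M).N y x) := by
  refine UDef.allu (P := fun M _ _ x => ¬ Zr (lyOf LL o n M) (dguD δ M) x →
    ∃ y, (lyOf LL o n M).N y x) ?_
  refine (dgu_Zr o n δ _ (Sum.inr ())).not.imp ?_
  refine UDef.exu (P := fun M _ v y => (lyOf LL o n M).N y (v (Sum.inr ()))) ?_
  exact dgu_N o n _ (Sum.inr ()) (Sum.inl (Sum.inr ()))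

theorem dgu_suc : UDef LL Empty (fun M _ _ => ∀ x, (∃ (i : Fin d) (z : M),
    (lyOf LL o n M).E x z ∧ dguD δ M i z ∧ ¬ (lyOf LL o n M).Max z) →
    ∃ y, (lyOf LL o n M).N x y) := by
  refine UDef.allu (P := fun M _ _ x => (∃ (i : Fin d) (z : M),
    (lyOf LL o n M).E x z ∧ dguD δ M i z ∧ ¬ (lyOf LL o n M).Max z) →
    ∃ y, (lyOf LL o n M).N x y) ?_
  refine UDef.imp (UDef.exFin fun i => ?_) ?_
  · refine UDef.exu (P := fun M _ v z => (lyOf LL o n M).E (v (Sum.inr ())) z ∧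
      dguD δ M i z ∧ ¬ (lyOf LL o n M).Max z) ?_
    exact (dgu_E o n _ (Sum.inl (Sum.inr ())) (Sum.inr ())).and
      ((dgu_D δ i _ (Sum.inr ())).and (dgu_Max o n _ (Sum.inr ())).not)
  · refine UDef.exu (P := fun M _ v y => (lyOf LL o n M).N (v (Sum.inr ())) y) ?_
    exact dgu_N o n _ (Sum.inl (Sum.inr ())) (Sum.inr ())

theorem dgu_uni : UDef LL Empty (fun M _ _ => ∀ x y, Zr (lyOf LL o n M) (dguD δ M) x →
    Zr (lyOf LL o n M) (dguD δ M) y → (lyOf LL o n M).E x y) := by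
  refine (dgu_all 2 (P := fun M _ w => Zr (lyOf LL o n M) (dguD δ M) (w 0) →
    Zr (lyOf LL o n M) (dguD δ M) (w 1) → (lyOf LL o n M).E (w 0) (w 1)) ?_).congr
      fun M _ _ => ⟨fun h x y => h ![x, y], fun h w => h (w 0) (w 1)⟩
  exact (dgu_Zr o n δ _ (Sum.inr 0)).imp ((dgu_Zr o n δ _ (Sum.inr 1)).imp
    (dgu_E o n _ (Sum.inr 0) (Sum.inr 1)))

theorem dgu_DigAx : UDef LL Empty (fun M _ _ => DigAx (lyOf LL o n M) (dguD δ M)) := by
  refine ((dgu_Ax o n).and <| (dgu_dig o n δ).and <| (dgu_inc o n δ).and <|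
    (dgu_pre o n δ).and <| (dgu_suc o n δ).and (dgu_uni o n δ)).congr fun M _ v => ?_
  constructor
  · rintro ⟨h1, h2, h3, h4, h5, h6⟩
    exact ⟨h1, h2, h3, h4, h5, h6⟩
  · intro h
    exact ⟨h.ly, h.dig, h.inc, h.pre, h.suc, h.uni⟩

/-! ## Bits -/

variable (b : LL.Relations 2)

/-- The bits given by a binary symbol. -/
def dguB (M : Type) [LL.Structure M] (x y : M) : Prop := Structure.RelMap b ![x, y]

theorem dgu_B (α : Type) (x y : α) : UDef LL α (fun M _ v => dguB b M (v x) (v y)) :=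
  dgu_rel2 b α x y

theorem dgu_Br (α : Type) (a : α) :
    UDef LL α (fun M _ v => Br (lyOf LL o n M) (dguB b M) (v a)) := by
  refine (UDef.all (β := Fin 2) (P := fun M _ v w => (lyOf LL o n M).E (v a) (w 0) →
      (lyOf LL o n M).E (v a) (w 1) → ¬ dguB b M (w 0) (w 1)) ?_).congr
      fun M _ v => ⟨fun h x y => h ![x, y], fun h w => h (w 0) (w 1)⟩
  exact (dgu_E o n _ (Sum.inl a) (Sum.inr 0)).imp ((dgu_E o n _ (Sum.inl a) (Sum.inr 1)).imp
    (dgu_B b _ (Sum.inr 0) (Sum.inr 1)).not)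

theorem dgu_loc : UDef LL Empty (fun M _ _ => ∀ z w, dguB b M z w →
    (lyOf LL o n M).E z w) := by
  refine (dgu_all 2 (P := fun M _ w => dguB b M (w 0) (w 1) →
    (lyOf LL o n M).E (w 0) (w 1)) ?_).congr
      fun M _ _ => ⟨fun h x y => h ![x, y], fun h w => h (w 0) (w 1)⟩
  exact (dgu_B b _ (Sum.inr 0) (Sum.inr 1)).imp (dgu_E o n _ (Sum.inr 0) (Sum.inr 1))

theorem dgu_incB1 (α : Type) (z w : α) :
    UDef LL α (fun M _ v => ∀ z' w', (lyOf LL o n M).N (v z) z' →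
      (lyOf LL o n M).N (v w) w' → dguB b M z' w') := by
  refine (UDef.all (β := Fin 2) (P := fun M _ v u => (lyOf LL o n M).N (v z) (u 0) →
      (lyOf LL o n M).N (v w) (u 1) → dguB b M (u 0) (u 1)) ?_).congr
      fun M _ v => ⟨fun h x y => h ![x, y], fun h w => h (w 0) (w 1)⟩
  exact (dgu_N o n _ (Sum.inl z) (Sum.inr 0)).imp ((dgu_N o n _ (Sum.inl w) (Sum.inr 1)).imp
    (dgu_B b _ (Sum.inr 0) (Sum.inr 1)))

theorem dgu_incB2 (α : Type) (x z w : α) :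
    UDef LL α (fun M _ v => ∀ p q p' q', (lyOf LL o n M).E (v x) p →
      (lyOf LL o n M).E (v x) q → (lyOf LL o n M).N p p' → (lyOf LL o n M).N q q' →
      ((lyOf LL o n M).lex p q (v z) (v w) → dguB b M p q ∧ ¬ dguB b M p' q') ∧
      ((lyOf LL o n M).lex (v z) (v w) p q → (dguB b M p q ↔ dguB b M p' q'))) := by
  refine (UDef.all (β := Fin 4) (P := fun M _ v u => (lyOf LL o n M).E (v x) (u 0) →
      (lyOf LL o n M).E (v x) (u 1) → (lyOf LL o n M).N (u 0) (u 2) →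
      (lyOf LL o n M).N (u 1) (u 3) →
      ((lyOf LL o n M).lex (u 0) (u 1) (v z) (v w) →
        dguB b M (u 0) (u 1) ∧ ¬ dguB b M (u 2) (u 3)) ∧
      ((lyOf LL o n M).lex (v z) (v w) (u 0) (u 1) →
        (dguB b M (u 0) (u 1) ↔ dguB b M (u 2) (u 3)))) ?_).congr
      fun M _ v => ⟨fun h p q r s => h ![p, q, r, s], fun h u => h (u 0) (u 1) (u 2) (u 3)⟩
  refine (dgu_E o n _ (Sum.inl x) (Sum.inr 0)).imp ((dgu_E o n _ (Sum.inl x) (Sum.inr 1)).imp
    ((dgu_N o n _ (Sum.inr 0) (Sum.inr 2)).imp ((dgu_N o n _ (Sum.inr 1) (Sum.inr 3)).imp ?_)))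
  exact ((dgu_lex o n _ (Sum.inr 0) (Sum.inr 1) (Sum.inl z) (Sum.inl w)).imp
    ((dgu_B b _ (Sum.inr 0) (Sum.inr 1)).and (dgu_B b _ (Sum.inr 2) (Sum.inr 3)).not)).and
    ((dgu_lex o n _ (Sum.inl z) (Sum.inl w) (Sum.inr 0) (Sum.inr 1)).imp
    ((dgu_B b _ (Sum.inr 0) (Sum.inr 1)).iff (dgu_B b _ (Sum.inr 2) (Sum.inr 3))))

theorem dgu_incBit : UDef LL Empty (fun M _ _ => ∀ x y, (lyOf LL o n M).N x y →
    ∃ z w, (lyOf LL o n M).E x z ∧ (lyOf LL o n M).E x w ∧ ¬ dguB b M z w ∧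
    (∀ z' w', (lyOf LL o n M).N z z' → (lyOf LL o n M).N w w' → dguB b M z' w') ∧
    ∀ p q p' q', (lyOf LL o n M).E x p → (lyOf LL o n M).E x q → (lyOf LL o n M).N p p' →
      (lyOf LL o n M).N q q' →
      ((lyOf LL o n M).lex p q z w → dguB b M p q ∧ ¬ dguB b M p' q') ∧
      ((lyOf LL o n M).lex z w p q → (dguB b M p q ↔ dguB b M p' q'))) := by
  refine (dgu_all 2 (P := fun M _ w => (lyOf LL o n M).N (w 0) (w 1) → ∃ u : Fin 2 → M,
    (lyOf LL o n M).E (w 0) (u 0) ∧ (lyOf LL o n M).E (w 0) (u 1) ∧ ¬ dguB b M (u 0) (u 1) ∧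
    (∀ z' w', (lyOf LL o n M).N (u 0) z' → (lyOf LL o n M).N (u 1) w' → dguB b M z' w') ∧
    ∀ p q p' q', (lyOf LL o n M).E (w 0) p → (lyOf LL o n M).E (w 0) q →
      (lyOf LL o n M).N p p' → (lyOf LL o n M).N q q' →
      ((lyOf LL o n M).lex p q (u 0) (u 1) → dguB b M p q ∧ ¬ dguB b M p' q') ∧
      ((lyOf LL o n M).lex (u 0) (u 1) p q → (dguB b M p q ↔ dguB b M p' q'))) ?_).congr
      fun M _ _ => ⟨fun h x y hxy => ?_, fun h w hw => ?_⟩
  · refine (dgu_N o n _ (Sum.inr 0) (Sum.inr 1)).imp ?_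
    refine UDef.ex (β := Fin 2) (P := fun M _ v u =>
      (lyOf LL o n M).E (v (Sum.inr 0)) (u 0) ∧ (lyOf LL o n M).E (v (Sum.inr 0)) (u 1) ∧
      ¬ dguB b M (u 0) (u 1) ∧
      (∀ z' w', (lyOf LL o n M).N (u 0) z' → (lyOf LL o n M).N (u 1) w' → dguB b M z' w') ∧
      ∀ p q p' q', (lyOf LL o n M).E (v (Sum.inr 0)) p → (lyOf LL o n M).E (v (Sum.inr 0)) q →
      (lyOf LL o n M).N p p' → (lyOf LL o n M).N q q' →
      ((lyOf LL o n M).lex p q (u 0) (u 1) → dguB b M p q ∧ ¬ dguB b M p' q') ∧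
      ((lyOf LL o n M).lex (u 0) (u 1) p q → (dguB b M p q ↔ dguB b M p' q'))) ?_
    exact (dgu_E o n _ (Sum.inl (Sum.inr 0)) (Sum.inr 0)).and
      ((dgu_E o n _ (Sum.inl (Sum.inr 0)) (Sum.inr 1)).and
      ((dgu_B b _ (Sum.inr 0) (Sum.inr 1)).not.and
      ((dgu_incB1 o n b _ (Sum.inr 0) (Sum.inr 1)).and
      (dgu_incB2 o n b _ (Sum.inl (Sum.inr 0)) (Sum.inr 0) (Sum.inr 1)))))
  · obtain ⟨u, hu⟩ := h ![x, y] hxy
    exact ⟨u 0, u 1, hu⟩
  · obtain ⟨z, t, hu⟩ := h (w 0) (w 1) hw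
    exact ⟨![z, t], hu⟩

theorem dgu_preB : UDef LL Empty (fun M _ _ => ∀ x, ¬ Br (lyOf LL o n M) (dguB b M) x →
    ∃ y, (lyOf LL o n M).N y x) := by
  refine UDef.allu (P := fun M _ _ x => ¬ Br (lyOf LL o n M) (dguB b M) x →
    ∃ y, (lyOf LL o n M).N y x) ?_
  refine (dgu_Br o n b _ (Sum.inr ())).not.imp ?_
  refine UDef.exu (P := fun M _ v y => (lyOf LL o n M).N y (v (Sum.inr ()))) ?_
  exact dgu_N o n _ (Sum.inr ()) (Sum.inl (Sum.inr ()))

theorem dgu_sucB : UDef LL Empty (fun M _ _ => ∀ x, (∃ z w : M,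
    (lyOf LL o n M).E x z ∧ (lyOf LL o n M).E x w ∧ ¬ dguB b M z w) →
    ∃ y, (lyOf LL o n M).N x y) := by
  refine UDef.allu (P := fun M _ _ x => (∃ z w : M,
    (lyOf LL o n M).E x z ∧ (lyOf LL o n M).E x w ∧ ¬ dguB b M z w) →
    ∃ y, (lyOf LL o n M).N x y) ?_
  refine UDef.imp ?_ ?_
  · refine UDef.exu (P := fun M _ v z => ∃ w : M,
      (lyOf LL o n M).E (v (Sum.inr ())) z ∧ (lyOf LL o n M).E (v (Sum.inr ())) w ∧
      ¬ dguB b M z w) ?_
    refine UDef.exu (P := fun M _ v w =>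
      (lyOf LL o n M).E (v (Sum.inl (Sum.inr ()))) (v (Sum.inr ())) ∧
      (lyOf LL o n M).E (v (Sum.inl (Sum.inr ()))) w ∧ ¬ dguB b M (v (Sum.inr ())) w) ?_
    exact (dgu_E o n _ (Sum.inl (Sum.inl (Sum.inr ()))) (Sum.inl (Sum.inr ()))).and
      ((dgu_E o n _ (Sum.inl (Sum.inl (Sum.inr ()))) (Sum.inr ())).and
      (dgu_B b _ (Sum.inl (Sum.inr ())) (Sum.inr ())).not)
  · refine UDef.exu (P := fun M _ v y => (lyOf LL o n M).N (v (Sum.inr ())) y) ?_
    exact dgu_N o n _ (Sum.inl (Sum.inr ())) (Sum.inr ())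

theorem dgu_uniB : UDef LL Empty (fun M _ _ => ∀ x y, Br (lyOf LL o n M) (dguB b M) x →
    Br (lyOf LL o n M) (dguB b M) y → (lyOf LL o n M).E x y) := by
  refine (dgu_all 2 (P := fun M _ w => Br (lyOf LL o n M) (dguB b M) (w 0) →
    Br (lyOf LL o n M) (dguB b M) (w 1) → (lyOf LL o n M).E (w 0) (w 1)) ?_).congr
      fun M _ _ => ⟨fun h x y => h ![x, y], fun h w => h (w 0) (w 1)⟩
  exact (dgu_Br o n b _ (Sum.inr 0)).imp ((dgu_Br o n b _ (Sum.inr 1)).imp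
    (dgu_E o n _ (Sum.inr 0) (Sum.inr 1)))

theorem dgu_BitAx : UDef LL Empty (fun M _ _ => BitAx (lyOf LL o n M) (dguB b M)) := by
  refine ((dgu_Ax o n).and <| (dgu_loc o n b).and <| (dgu_incBit o n b).and <|
    (dgu_preB o n b).and <| (dgu_sucB o n b).and (dgu_uniB o n b)).congr fun M _ v => ?_
  constructor
  · rintro ⟨h1, h2, h3, h4, h5, h6⟩
    exact ⟨h1, h2, h3, h4, h5, h6⟩
  · intro h
    exact ⟨h.ly, h.loc, h.inc, h.pre, h.suc, h.uni⟩

end Gen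

theorem udef_Zr (L : FirstOrder.Language.{0, 0}) (d : ℕ) (α : Type) (x : α) :
    UDef (LD2 L d) α (fun M _ v => Zr (lyD L d M) (dgD L d M) (v x)) :=
  dgu_Zr (LL := LD2 L d) RD.O RD.N (fun i => RD.D i) α x

theorem dig_sentence (L : FirstOrder.Language.{0, 0}) (hf : Finite (Σ n, L.Relations n))
    (d : ℕ) : ∃ σ : (LD2 L d).Sentence, ∀ (M : Type) [(LD2 L d).Structure M],
      σ.Realize M ↔ DigAx (lyD L d M) (dgD L d M) ∧
        ∀ n (R : L.Relations n) (v : Fin n → M),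
          Structure.RelMap (L := LD2 L d) (RD.rel R) v →
          ∀ i, Zr (lyD L d M) (dgD L d M) (v i) := by
  have h1 : UDef (LD2 L d) Empty (fun M _ _ => DigAx (lyD L d M) (dgD L d M)) :=
    dgu_DigAx (LL := LD2 L d) RD.O RD.N (fun i => RD.D i)
  have h2 : UDef (LD2 L d) Empty (fun M _ _ => ∀ q : (Σ n, L.Relations n),
      ∀ v : Fin q.1 → M, Structure.RelMap (L := LD2 L d) (RD.rel q.2) v →
        ∀ i, Zr (lyD L d M) (dgD L d M) (v i)) := by
    refine UDef.allFin fun q => ?_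
    refine UDef.all (β := Fin q.1) (P := fun M _ _ v =>
      Structure.RelMap (L := LD2 L d) (RD.rel q.2) v →
        ∀ i, Zr (lyD L d M) (dgD L d M) (v i)) ?_
    refine UDef.imp ?_ (UDef.allFin fun i => udef_Zr L d _ (Sum.inr i))
    exact UDef.rel (L := LD2 L d) (RD.rel q.2) (fun i => Term.var (Sum.inr i))
  obtain ⟨σ, hσ⟩ := (h1.and h2).exists_sentence
  refine ⟨σ, fun M _ => (hσ M).trans ⟨fun h => ⟨h.1, fun n R => h.2 ⟨n, R⟩⟩,
    fun h => ⟨h.1, fun q => h.2 q.1 q.2⟩⟩⟩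

theorem bit_sentence : ∃ σ : LB.Sentence, ∀ (M : Type) [LB.Structure M],
    σ.Realize M ↔ BitAx (lyB M) (btB M) := by
  obtain ⟨σ, hσ⟩ := (dgu_BitAx (LL := LB) RB.O RB.N RB.B).exists_sentence
  exact ⟨σ, fun M _ => hσ M⟩

end Pool.Agent.Helper72.TW
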