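import Mathlib
import Pool.Agent.Helper72.TW.Defs
import Pool.Agent.Helper72.TW.DigMain
import Pool.Agent.Helper72.TW.DigU
import Pool.Agent.Helper72.TW.DigExist
import Pool.Agent.Helper72.WT.Barrier

set_option autoImplicit false

/-!
# TW-28: sentences whose models have path layerings of width `|M|^(1/k)` represent the full problem

`layering_of`: `β x = List.replicate (v x) 0`.
`barrier2`: by `Pool.Agent.Helper72.WT.barrier 0` it suffices to treat sentences `φ'` over binary relational vocabularies. Take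
`d = k`, `σ` from `dig_sentence`, `ψ'` from `Pool.Agent.Helper72.WT.interp` (`A` = `Zr`, `Q n R` = `RelMap (RD.rel R)`), `χ = σ ⊓ ψ'`. The
finite nonempty models of `χ` have `m ^ (d + 1)` elements, `m` = number of elements with `Zr` (`dig_main`), and a path layering of
width `m`; `m ^ (d + 1) ∈ Spec χ ↔ m ∈ Spec φ'` (`exists_dig`). The complement of `Spec χ` is a spectrum by `hyp`; apply
`Pool.Agent.Helper87.AU.decode` with `D = 1`, `r = d`. Model: the end of `Helper72/WT/Barrier.lean`.
-/

namespace Pool.Agent.Helper72.TW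

open FirstOrder FirstOrder.Language Pool.Agent.Helper31.Spectra

theorem layering_of {LL : FirstOrder.Language.{0, 0}} {M : Type} [LL.Structure M] [Finite M]
    (v : M → ℕ) (m : ℕ) (h1 : ∀ t, Nat.card {x // v x = t} ≤ m)
    (h2 : ∀ y, v y ≠ 0 → ∃ x, v y = v x + 1)
    (h3 : ∀ n (R : LL.Relations n) (z : Fin n → M), Structure.RelMap R z → ∀ i j,
      v (z i) = v (z j) ∨ v (z i) = v (z j) + 1 ∨ v (z j) = v (z i) + 1) :
    TreeLayering 1 m LL M := by
  refine ⟨fun x => List.replicate (v x) (0 : Fin 1), fun α => ?_, fun x α i h => ?_,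
    fun n R z hz i j => ?_⟩
  · refine le_trans (Nat.card_le_card_of_injective
      (fun x : {x : M // List.replicate (v x) (0 : Fin 1) = α} =>
        (⟨x.1, by simpa using congrArg List.length x.2⟩ : {x : M // v x = α.length})) ?_)
      (h1 α.length)
    intro x y hxy
    exact Subtype.ext (congrArg (fun w : {x : M // v x = α.length} => w.1) hxy)
  · have hl := congrArg List.length h
    simp only [List.length_replicate, List.length_append, List.length_singleton] at hl
    obtain ⟨y, hy⟩ := h2 x (by omega)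
    refine ⟨y, ?_⟩
    have hy' : v y = α.length := by omega
    show List.replicate (v y) (0 : Fin 1) = α
    rw [hy']
    symm
    rw [List.eq_replicate_iff]
    exact ⟨rfl, fun b _ => Subsingleton.elim _ _⟩
  · rcases h3 n R z hz i j with h | h | h
    · left
      show List.replicate (v (z i)) (0 : Fin 1) = List.replicate (v (z j)) (0 : Fin 1)
      rw [h]
    · right
      left
      refine ⟨0, ?_⟩
      show List.replicate (v (z i)) (0 : Fin 1) = List.replicate (v (z j)) (0 : Fin 1) ++ [0]
      rw [h, List.replicate_succ']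
    · right
      right
      refine ⟨0, ?_⟩
      show List.replicate (v (z j)) (0 : Fin 1) = List.replicate (v (z i)) (0 : Fin 1) ++ [0]
      rw [h, List.replicate_succ']

private lemma tuple2 {M : Type} (z : Fin 2 → M) : z = ![z 0, z 1] := by
  funext i
  fin_cases i <;> rfl

private lemma finite_LD2 {L : FirstOrder.Language.{0, 0}} (hf : Finite (Σ n, L.Relations n))
    (d : ℕ) : Finite (Σ n, (LD2 L d).Relations n) := by
  have h : Function.Surjective (fun q : (Fin 2 ⊕ Fin d) ⊕ (Σ n, L.Relations n) =>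
      (match q with
      | Sum.inl (Sum.inl 0) => ⟨2, RD.O⟩
      | Sum.inl (Sum.inl 1) => ⟨2, RD.N⟩
      | Sum.inl (Sum.inr i) => ⟨1, RD.D i⟩
      | Sum.inr R => ⟨R.1, RD.rel R.2⟩ : Σ n, (LD2 L d).Relations n)) := by
    rintro ⟨n, R⟩
    cases R with
    | O => exact ⟨Sum.inl (Sum.inl 0), rfl⟩
    | N => exact ⟨Sum.inl (Sum.inl 1), rfl⟩
    | D i => exact ⟨Sum.inl (Sum.inr i), rfl⟩
    | rel R => exact ⟨Sum.inr ⟨n, R⟩, rfl⟩
  exact Finite.of_surjective _ h

private lemma dig_layering {L : FirstOrder.Language.{0, 0}} {d : ℕ} {M : Type}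
    [(LD2 L d).Structure M] [Finite M] [Nonempty M] (h : DigAx (lyD L d M) (dgD L d M))
    (hr : ∀ n (R : L.Relations n) (v : Fin n → M),
      Structure.RelMap (L := LD2 L d) (RD.rel R) v → ∀ i, Zr (lyD L d M) (dgD L d M) (v i)) :
    ∃ w, w ^ d ≤ Nat.card M ∧ TreeLayering 1 w (LD2 L d) M := by
  obtain ⟨v, hv1, hv2, hv3, hv4, hv5, hv6⟩ := dig_main h
  refine ⟨Nat.card {x // v x = 0}, ?_, ?_⟩
  · rw [hv6, pow_succ]
    refine Nat.le_mul_of_pos_right _ ?_
    by_contra hc
    have h0 : Nat.card {x // v x = 0} = 0 := by omega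
    rw [h0, zero_pow (by omega)] at hv6
    have := Nat.card_pos (α := M)
    omega
  · refine layering_of v _ hv5 (fun y hy => ?_) (fun n R z hz i j => ?_)
    · obtain ⟨x, hx⟩ := hv3 y hy
      exact ⟨x, hv2 x y hx⟩
    · cases R with
      | O =>
        have hO : (lyD L d M).O (z 0) (z 1) := by
          show Structure.RelMap (L := LD2 L d) RD.O ![z 0, z 1]
          rw [← tuple2]
          exact hz
        have h01 : v (z 0) = v (z 1) := hv1 _ _ (Or.inl hO)
        left
        fin_cases i <;> fin_cases j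
        · rfl
        · exact h01
        · exact h01.symm
        · rfl
      | N =>
        have hN : (lyD L d M).N (z 0) (z 1) := by
          show Structure.RelMap (L := LD2 L d) RD.N ![z 0, z 1]
          rw [← tuple2]
          exact hz
        have h01 : v (z 1) = v (z 0) + 1 := hv2 _ _ hN
        fin_cases i <;> fin_cases j
        · exact Or.inl rfl
        · exact Or.inr (Or.inr h01)
        · exact Or.inr (Or.inl h01)
        · exact Or.inl rfl
      | D k =>
        left
        rw [Subsingleton.elim i j]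
      | rel R =>
        left
        rw [(hv4 _).2 (hr n R z hz i), (hv4 _).2 (hr n R z hz j)]

theorem barrier2 (k : ℕ)
    (hyp : ∀ (LL : FirstOrder.Language.{0, 0}) (ψ : LL.Sentence),
      (∀ n, IsEmpty (LL.Functions n)) → (∀ n, 2 < n → IsEmpty (LL.Relations n)) →
      Finite (Σ n, LL.Relations n) →
      (∀ (M : Type) [LL.Structure M] [Finite M] [Nonempty M], ψ.Realize M →
        ∃ w, w ^ k ≤ Nat.card M ∧ TreeLayering 1 w LL M) →
      IsSpectrum {n | 0 < n ∧ n ∉ Spec LL ψ})
    (L : FirstOrder.Language.{0, 0}) (φ : L.Sentence) (hL : FinVoc L) :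
    IsSpectrum {n | 0 < n ∧ n ∉ Spec L φ} := by
  refine Pool.Agent.Helper72.WT.barrier 0 ?_ L φ hL
  intro LB φ' hF hR hfin _
  obtain ⟨σ, hσ⟩ := dig_sentence LB hfin k
  obtain ⟨ψ', hψ'⟩ := Pool.Agent.Helper72.WT.interp hF (L' := LD2 LB k)
    (fun M _ x => Zr (lyD LB k M) (dgD LB k M) x)
    (udef_Zr LB k Unit ())
    (fun n R M _ v => Structure.RelMap (L := LD2 LB k) (RD.rel R) v)
    (fun n R => (Pool.Agent.Helper87.AU.UDef.rel (L := LD2 LB k) (α := Fin n) (RD.rel R)
      (fun i => Term.var i)).congr fun M _ v => Iff.rfl) φ'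
  have hcompl := hyp (LD2 LB k) (σ ⊓ ψ') (fun n => inferInstanceAs (IsEmpty Empty))
    (fun n hn => by
      refine ⟨fun R => ?_⟩
      cases R with
      | O => omega
      | N => omega
      | D i => omega
      | rel R => exact (hR n hn).false R)
    (finite_LD2 hfin k) (by
      intro M _ _ _ hM
      obtain ⟨hA, hr⟩ := (hσ M).1 (Formula.realize_inf.1 hM).1
      exact dig_layering hA hr)
  obtain ⟨LX, χ, hLX, hχ⟩ := hcompl
  have hdec := Pool.Agent.Helper87.AU.decode hLX χ k 1 le_rfl
  have key : ∀ m, 0 < m → (m ^ (k + 1) ∈ Spec (LD2 LB k) (σ ⊓ ψ') ↔ m ∈ Spec LB φ') := by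
    intro m hm
    constructor
    · rintro ⟨hpos, M, sM, hcM, hM⟩
      have hfM : Finite M := Nat.finite_of_card_ne_zero (by omega)
      have hnM : Nonempty M := by
        by_contra hc
        rw [not_nonempty_iff] at hc
        rw [Nat.card_of_isEmpty] at hcM
        omega
      obtain ⟨hM1, hM2⟩ := Formula.realize_inf.1 hM
      obtain ⟨hA, -⟩ := (hσ M).1 hM1
      obtain ⟨v, -, -, -, hv4, -, hv6⟩ := dig_main hA
      have hcard : Nat.card {x : M // Zr (lyD LB k M) (dgD LB k M) x} = m := by
        have h1 : Nat.card {x : M // Zr (lyD LB k M) (dgD LB k M) x} = Nat.card {x // v x = 0} :=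
          Nat.card_congr (Equiv.subtypeEquivRight fun x => (hv4 x).symm)
        rw [hcM] at hv6
        rw [h1]
        exact (Nat.pow_left_injective (n := k + 1) (by omega) hv6).symm
      exact ⟨hm, {x : M // Zr (lyD LB k M) (dgD LB k M) x},
        Pool.Agent.Helper72.WT.istr hF (fun n R v =>
          Structure.RelMap (L := LD2 LB k) (RD.rel R) fun i => (v i).1), hcard, (hψ' M).1 hM2⟩
    · rintro ⟨_, M₀, s₀, hc₀, hM₀⟩
      have hf₀ : Finite M₀ := Nat.finite_of_card_ne_zero (by omega)
      have hn₀ : Nonempty M₀ := by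
        by_contra hc
        rw [not_nonempty_iff] at hc
        rw [Nat.card_of_isEmpty] at hc₀
        omega
      obtain ⟨M, sM, e, hcM, hA, hr, he⟩ := exists_dig LB k M₀
        (fun n R v => Structure.RelMap R v)
      rw [hc₀] at hcM
      refine ⟨Nat.pow_pos hm, M, sM, hcM, Formula.realize_inf.2 ⟨(hσ M).2 ⟨hA, hr⟩, ?_⟩⟩
      refine (hψ' M).2 ?_
      let _ : LB.Structure {x : M // Zr (lyD LB k M) (dgD LB k M) x} :=
        Pool.Agent.Helper72.WT.istr hF (fun n R v =>
          Structure.RelMap (L := LD2 LB k) (RD.rel R) fun i => (v i).1)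
      have hlang : M₀ ≃[LB] {x : M // Zr (lyD LB k M) (dgD LB k M) x} :=
        { e with
          map_fun' := fun {n} f _ => ((hF n).false f).elim
          map_rel' := fun {n} R v => he n R v }
      exact (StrongHomClass.realize_sentence hlang φ').1 hM₀
  have heq : {n | 0 < n ∧ n ∉ Spec LB φ'} = {m | 0 < m ∧ 1 * m ^ (k + 1) ∈ Spec LX χ} := by
    ext m
    rw [hχ]
    simp only [Set.mem_ofPred_eq, one_mul]
    constructor
    · rintro ⟨h1, h2⟩
      exact ⟨h1, Nat.pow_pos h1, fun h => h2 ((key m h1).1 h)⟩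
    · rintro ⟨h1, -, h2⟩
      exact ⟨h1, fun h => h2 ((key m h1).2 h)⟩
  rw [heq]
  exact hdec

end Pool.Agent.Helper72.TW
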