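import Mathlib
import Pool.Agent.Helper72.TW.LayDefs

set_option autoImplicit false

/-!
# TW-27: existence of structures with a bit matrix as counter

On `Fin (2 ^ (m ^ 2)) × Fin m`: `O (t, x) (t', x') ↔ t = t' ∧ x ≤ x'`, `N (t, x) (t', x') ↔ t' = t + 1 ∧ x = x'`,
`B (t, x) (t', y) ↔ t = t' ∧ Nat.testBit t (x * m + y)`.
-/

namespace Pool.Agent.Helper72.TW

open FirstOrder FirstOrder.Language

namespace BitEx

/-- The bits of `t` and `t + 1`. -/
theorem succ_bits (t : ℕ) : ∃ i : ℕ, Nat.testBit t i = false ∧ Nat.testBit (t + 1) i = true ∧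
    (∀ j, j < i → Nat.testBit t j = true ∧ Nat.testBit (t + 1) j = false) ∧
    ∀ j, i < j → Nat.testBit t j = Nat.testBit (t + 1) j := by
  induction t using Nat.strong_induction_on with
  | _ t ih =>
    rcases Nat.even_or_odd' t with ⟨s, rfl | rfl⟩
    · refine ⟨0, ?_, ?_, fun j hj => absurd hj (Nat.not_lt_zero j), ?_⟩
      · simp [Nat.testBit_zero]
      · simp [Nat.testBit_zero]
      · intro j hj
        obtain ⟨k, rfl⟩ : ∃ k, j = k + 1 := ⟨j - 1, by omega⟩
        rw [Nat.testBit_succ, Nat.testBit_succ]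
        congr 1
        omega
    · obtain ⟨i, h1, h2, h3, h4⟩ := ih s (by omega)
      have e1 : (2 * s + 1) / 2 = s := by omega
      have e2 : (2 * s + 1 + 1) / 2 = s + 1 := by omega
      refine ⟨i + 1, ?_, ?_, ?_, ?_⟩
      · rw [Nat.testBit_succ, e1]; exact h1
      · rw [Nat.testBit_succ, e2]; exact h2
      · intro j hj
        rcases j with _ | j
        · constructor
          · simp [Nat.testBit_zero]
          · simp [Nat.testBit_zero]
            omega
        · rw [Nat.testBit_succ, Nat.testBit_succ, e1, e2]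
          exact h3 j (by omega)
      · intro j hj
        rcases j with _ | j
        · omega
        · rw [Nat.testBit_succ, Nat.testBit_succ, e1, e2]
          exact h4 j (by omega)

/-- The underlying set. -/
abbrev Mt (m : ℕ) : Type := Fin (2 ^ (m ^ 2)) × Fin m

/-- The order. -/
def OO (m : ℕ) (x y : Mt m) : Prop := x.1 = y.1 ∧ x.2 ≤ y.2

/-- The next layer. -/
def NN (m : ℕ) (x y : Mt m) : Prop := (y.1 : ℕ) = (x.1 : ℕ) + 1 ∧ x.2 = y.2

/-- The bits. -/
def BB (m : ℕ) (x y : Mt m) : Prop :=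
  x.1 = y.1 ∧ Nat.testBit (x.1 : ℕ) ((x.2 : ℕ) * m + (y.2 : ℕ)) = true

/-- The layered structure. -/
def YY (m : ℕ) : Ly (Mt m) := ⟨OO m, NN m⟩

theorem E_iff {m : ℕ} (x y : Mt m) : (YY m).E x y ↔ x.1 = y.1 := by
  constructor
  · rintro (h | h)
    · exact h.1
    · exact h.1.symm
  · intro h
    rcases le_total x.2 y.2 with h' | h'
    · exact Or.inl ⟨h, h'⟩
    · exact Or.inr ⟨h.symm, h'⟩

/-- The structure. -/
@[instance_reducible]
def str (m : ℕ) : LB.Structure (Mt m) where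
  funMap := fun f => Empty.elim f
  RelMap := fun {n} r v =>
    match n, r, v with
    | _, RB.O, v => OO m (v 0) (v 1)
    | _, RB.N, v => NN m (v 0) (v 1)
    | _, RB.B, v => BB m (v 0) (v 1)

theorem idx_lt {m : ℕ} (a b : Fin m) : (a : ℕ) * m + (b : ℕ) < m ^ 2 := by
  have ha := a.2
  have hb := b.2
  nlinarith [Nat.mul_le_mul_right m (Nat.succ_le_of_lt ha)]

theorem lex_lt {m : ℕ} {a b c d : Fin m} (h : a < c ∨ (a = c ∧ b < d)) :
    (a : ℕ) * m + (b : ℕ) < (c : ℕ) * m + (d : ℕ) := by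
  rcases h with h | ⟨rfl, h⟩
  · have h1 : (a : ℕ) + 1 ≤ (c : ℕ) := h
    have hb := b.2
    nlinarith [Nat.mul_le_mul_right m h1]
  · have : (b : ℕ) < (d : ℕ) := h
    omega

theorem lex_of {m : ℕ} {p q z w : Mt m} (h : (YY m).lex p q z w) :
    (p.2 : ℕ) * m + (q.2 : ℕ) < (z.2 : ℕ) * m + (w.2 : ℕ) := by
  apply lex_lt
  rcases h with ⟨h1, h2⟩ | ⟨h1, h2, h3⟩
  · left
    refine lt_of_le_of_ne h1.2 fun e => h2 (Prod.ext h1.1 e)
  · right
    exact ⟨congrArg Prod.snd h1, lt_of_le_of_ne h2.2 fun e => h3 (Prod.ext h2.1 e)⟩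

/-- The index of a bit. -/
theorem idx_surj {m : ℕ} {i : ℕ} (h : i < m ^ 2) : ∃ a b : Fin m, (a : ℕ) * m + (b : ℕ) = i := by
  have hm : 0 < m := by
    rcases Nat.eq_zero_or_pos m with rfl | h0
    · simp at h
    · exact h0
  refine ⟨⟨i / m, ?_⟩, ⟨i % m, Nat.mod_lt _ hm⟩, ?_⟩
  · rw [Nat.div_lt_iff_lt_mul hm]
    nlinarith
  · simpa using Nat.div_add_mod' i m

theorem ax (m : ℕ) : (YY m).Ax where
  refl := fun x => ⟨rfl, le_rfl⟩
  antisymm := fun x y h1 h2 => Prod.ext h1.1 (le_antisymm h1.2 h2.2)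
  trans := fun x y z h1 h2 => ⟨h1.1.trans h2.1, h1.2.trans h2.2⟩
  cls := by
    intro x y z h1 h2
    rw [E_iff] at *
    exact h1.trans h2
  nfun := fun x y y' h1 h2 => Prod.ext (Fin.ext (h1.1.trans h2.1.symm)) (h1.2.symm.trans h2.2)
  ninj := fun x x' y h1 h2 => by
    refine Prod.ext (Fin.ext ?_) (h1.2.trans h2.2.symm)
    have := h1.1
    have := h2.1
    omega
  nfor := by
    intro x y x' h1 h2
    rw [E_iff] at h2
    refine ⟨(y.1, x'.2), ⟨?_, rfl⟩, ?_⟩
    · rw [← h2]; exact h1.1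
    · rw [E_iff]
  nback := by
    intro x y y' h1 h2
    rw [E_iff] at h2
    refine ⟨(x.1, y'.2), ⟨?_, rfl⟩, ?_⟩
    · show (y'.1 : ℕ) = (x.1 : ℕ) + 1
      rw [← h2]; exact h1.1
    · rw [E_iff]
  nord := by
    intro x x' y y' h1 h2 h3
    refine ⟨Fin.ext ?_, ?_⟩
    · have e1 := h2.1
      have e2 := h3.1
      have e3 : (x.1 : ℕ) = (x'.1 : ℕ) := congrArg Fin.val h1.1
      omega
    · rw [← h2.2, ← h3.2]; exact h1.2

theorem bitAx (m : ℕ) (hm : 1 ≤ m) : BitAx (YY m) (BB m) where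
  ly := ax m
  loc := fun z w h => (E_iff z w).2 h.1
  inc := by
    intro x y hxy
    obtain ⟨i, h1, h2, h3, h4⟩ := succ_bits (x.1 : ℕ)
    have hy : (y.1 : ℕ) = (x.1 : ℕ) + 1 := hxy.1
    rw [← hy] at h2 h3 h4
    have hi : i < m ^ 2 := by
      by_contra hc
      push_neg at hc
      have : Nat.testBit (y.1 : ℕ) i = false :=
        Nat.testBit_lt_two_pow (lt_of_lt_of_le y.1.2 (Nat.pow_le_pow_right (by norm_num) hc))
      rw [this] at h2
      exact Bool.false_ne_true h2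
    obtain ⟨a, b, hab⟩ := idx_surj hi
    refine ⟨(x.1, a), (x.1, b), (E_iff _ _).2 rfl, (E_iff _ _).2 rfl, ?_, ?_, ?_⟩
    · rintro ⟨-, hB⟩
      rw [show (((x.1, a) : Mt m).2 : ℕ) * m + (((x.1, b) : Mt m).2 : ℕ) = i from hab] at hB
      rw [h1] at hB
      exact Bool.false_ne_true hB
    · intro z' w' hz hw
      have ez : z'.1 = y.1 := Fin.ext (by rw [hz.1, hy])
      have ew : w'.1 = y.1 := Fin.ext (by rw [hw.1, hy])
      refine ⟨ez.trans ew.symm, ?_⟩
      rw [ez, ← hz.2, ← hw.2]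
      show Nat.testBit (y.1 : ℕ) ((a : ℕ) * m + (b : ℕ)) = true
      rw [hab]; exact h2
    · intro p q p' q' hp hq hpp hqq
      rw [E_iff] at hp hq
      have ep : p'.1 = y.1 := Fin.ext (by rw [hpp.1, hy, hp])
      have eq : q'.1 = y.1 := Fin.ext (by rw [hqq.1, hy, hq])
      constructor
      · intro hl
        have hlt := lex_of hl
        rw [show (((x.1, a) : Mt m).2 : ℕ) * m + (((x.1, b) : Mt m).2 : ℕ) = i from hab] at hlt
        refine ⟨⟨hp.symm.trans hq, ?_⟩, ?_⟩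
        · rw [← hp]
          exact (h3 _ hlt).1
        · rintro ⟨-, hB⟩
          rw [ep, ← hpp.2, ← hqq.2, (h3 _ hlt).2] at hB
          exact Bool.false_ne_true hB
      · intro hl
        have hlt := lex_of hl
        rw [show (((x.1, a) : Mt m).2 : ℕ) * m + (((x.1, b) : Mt m).2 : ℕ) = i from hab] at hlt
        have hb := h4 _ hlt
        constructor
        · rintro ⟨-, hB⟩
          refine ⟨ep.trans eq.symm, ?_⟩
          rw [ep, ← hpp.2, ← hqq.2, ← hb]
          rw [← hp] at hB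
          exact hB
        · rintro ⟨-, hB⟩
          refine ⟨hp.symm.trans hq, ?_⟩
          rw [← hp, hb]
          rw [ep, ← hpp.2, ← hqq.2] at hB
          exact hB
  pre := by
    intro x hx
    rcases Nat.eq_zero_or_pos (x.1 : ℕ) with h0 | h0
    · exfalso
      apply hx
      rintro z w hz hw ⟨-, hB⟩
      rw [E_iff] at hz
      rw [← hz, h0, Nat.zero_testBit] at hB
      exact Bool.false_ne_true hB
    · refine ⟨(⟨(x.1 : ℕ) - 1, by have := x.1.2; omega⟩, x.2), ?_, rfl⟩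
      show (x.1 : ℕ) = (x.1 : ℕ) - 1 + 1
      omega
  suc := by
    rintro x ⟨z, w, hz, hw, hB⟩
    rw [E_iff] at hz hw
    have hlt : (x.1 : ℕ) + 1 < 2 ^ (m ^ 2) := by
      by_contra hc
      have hx : (x.1 : ℕ) = 2 ^ (m ^ 2) - 1 := by have := x.1.2; omega
      apply hB
      refine ⟨hz.symm.trans hw, ?_⟩
      rw [← hz, hx, Nat.testBit_two_pow_sub_one]
      simpa using idx_lt z.2 w.2
    exact ⟨(⟨(x.1 : ℕ) + 1, hlt⟩, x.2), rfl, rfl⟩
  uni := by
    have key : ∀ x : Mt m, Br (YY m) (BB m) x → (x.1 : ℕ) = 0 := by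
      intro x hx
      apply Nat.eq_of_testBit_eq
      intro i
      rw [Nat.zero_testBit]
      by_cases hi : i < m ^ 2
      · obtain ⟨a, b, hab⟩ := idx_surj hi
        have h := hx (x.1, a) (x.1, b) ((E_iff _ _).2 rfl) ((E_iff _ _).2 rfl)
        by_contra hc
        apply h
        refine ⟨rfl, ?_⟩
        show Nat.testBit (x.1 : ℕ) ((a : ℕ) * m + (b : ℕ)) = true
        rw [hab]
        simpa using hc
      · exact Nat.testBit_lt_two_pow (lt_of_lt_of_le x.1.2
          (Nat.pow_le_pow_right (by norm_num) (by omega)))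
    intro x y hx hy
    rw [E_iff]
    exact Fin.ext ((key x hx).trans (key y hy).symm)

end BitEx

theorem exists_bit (m : ℕ) (hm : 1 ≤ m) : ∃ (M : Type) (_ : LB.Structure M),
    Nat.card M = 2 ^ (m ^ 2) * m ∧ BitAx (lyB M) (btB M) := by
  refine ⟨BitEx.Mt m, BitEx.str m, ?_, ?_⟩
  · simp [BitEx.Mt]
  · exact BitEx.bitAx m hm

end Pool.Agent.Helper72.TW
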