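import Mathlib
import Pool.Agent.Helper72.TW.LayL

set_option autoImplicit false

/-!
# TW-24: bit matrices as counters

`v x = ∑ (z, w) in the layer of x with B z w, 2 ^ (rk z * cs x + rk w)`, less than `2 ^ ((cs x) ^ 2)`. `N x y → v y = v x + 1`: `inc`
(the exponents are the positions in the lexicographic order; all smaller bits change from `1` to `0`, `∑_{j<i} 2^j = 2^i - 1`).
By induction on `v x` all layers have the size of the layer with `v = 0` (unique by `uni`). Then `chain_card` with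
`T = 2 ^ (m ^ 2)`, `m = Nat.card {x // v x = 0}`.
-/

namespace Pool.Agent.Helper72.TW

open FirstOrder FirstOrder.Language

namespace BM

variable {M : Type} [Finite M] {Y : Ly M} {B : M → M → Prop}

/-- The bit at a position. -/
def bt (Y : Ly M) (B : M → M → Prop) (x : M) (p : ℕ) : Prop :=
  ∃ z w, Y.E x z ∧ Y.E x w ∧ B z w ∧ Y.rk z * Y.cs x + Y.rk w = p

open Classical in
/-- The number given by the bits. -/
noncomputable def va (Y : Ly M) (B : M → M → Prop) (x : M) : ℕ :=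
  ∑ p ∈ Finset.range (Y.cs x ^ 2), if bt Y B x p then 2 ^ p else 0

theorem bt_E (hY : Y.Ax) {x y : M} (h : Y.E x y) {p : ℕ} (hb : bt Y B x p) : bt Y B y p := by
  obtain ⟨z, w, hz, hw, hB, e⟩ := hb
  exact ⟨z, w, hY.cls _ _ _ (ly_E_symm h) hz, hY.cls _ _ _ (ly_E_symm h) hw, hB, by
    rw [← ly_cs_E hY h]; exact e⟩

theorem va_E (hY : Y.Ax) {x y : M} (h : Y.E x y) : va Y B x = va Y B y := by
  classical
  unfold va
  rw [ly_cs_E hY h]
  refine Finset.sum_congr rfl fun p _ => ?_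
  exact if_congr ⟨bt_E hY h, bt_E hY (ly_E_symm h)⟩ rfl rfl

theorem pos_inj {m a b c d : ℕ} (hb : b < m) (hd : d < m) (h : a * m + b = c * m + d) :
    a = c ∧ b = d := by
  rcases lt_trichotomy a c with h1 | h1 | h1
  · exfalso
    have h2 := Nat.mul_le_mul_right m (Nat.succ_le_of_lt h1)
    rw [Nat.succ_mul] at h2
    omega
  · subst h1
    exact ⟨rfl, by omega⟩
  · exfalso
    have h2 := Nat.mul_le_mul_right m (Nat.succ_le_of_lt h1)
    rw [Nat.succ_mul] at h2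
    omega

theorem bt_iff (hY : Y.Ax) {x z w : M} (hz : Y.E x z) (hw : Y.E x w) :
    bt Y B x (Y.rk z * Y.cs x + Y.rk w) ↔ B z w := by
  constructor
  · rintro ⟨z1, w1, hz1, hw1, hB, e⟩
    have l1 : Y.rk w1 < Y.cs x := by rw [ly_cs_E hY hw1]; exact ly_rk_lt hY w1
    have l2 : Y.rk w < Y.cs x := by rw [ly_cs_E hY hw]; exact ly_rk_lt hY w
    obtain ⟨e1, e2⟩ := pos_inj l1 l2 e
    have f1 : z1 = z := ly_rk_inj hY (hY.cls _ _ _ (ly_E_symm hz1) hz) e1
    have f2 : w1 = w := ly_rk_inj hY (hY.cls _ _ _ (ly_E_symm hw1) hw) e2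
    rw [← f1, ← f2]
    exact hB
  · intro h
    exact ⟨z, w, hz, hw, h, rfl⟩

theorem cs_pos (hY : Y.Ax) (x : M) : 0 < Y.cs x := lt_of_le_of_lt (Nat.zero_le _) (ly_rk_lt hY x)

theorem pos_lt (hY : Y.Ax) {x z w : M} (hz : Y.E x z) (hw : Y.E x w) :
    Y.rk z * Y.cs x + Y.rk w < Y.cs x ^ 2 := by
  have l1 : Y.rk z < Y.cs x := by rw [ly_cs_E hY hz]; exact ly_rk_lt hY z
  have l2 : Y.rk w < Y.cs x := by rw [ly_cs_E hY hw]; exact ly_rk_lt hY w
  have h2 := Nat.mul_le_mul_right (Y.cs x) (Nat.succ_le_of_lt l1)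
  rw [Nat.succ_mul] at h2
  rw [sq]
  omega

theorem pos_ex (hY : Y.Ax) (x : M) {p : ℕ} (hp : p < Y.cs x ^ 2) :
    ∃ z w, Y.E x z ∧ Y.E x w ∧ Y.rk z * Y.cs x + Y.rk w = p := by
  have h0 := cs_pos hY x
  have h1 : p / Y.cs x < Y.cs x := by
    rw [Nat.div_lt_iff_lt_mul h0, ← sq]
    exact hp
  obtain ⟨z, hz, e1⟩ := ly_exists_rk hY x h1
  obtain ⟨w, hw, e2⟩ := ly_exists_rk hY x (Nat.mod_lt p h0)
  refine ⟨z, w, hz, hw, ?_⟩
  rw [e1, e2, mul_comm]
  exact Nat.div_add_mod p (Y.cs x)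

theorem lex_of_lt (hY : Y.Ax) {x p q z w : M} (hp : Y.E x p) (hq : Y.E x q) (hz : Y.E x z)
    (hw : Y.E x w) (h : Y.rk p * Y.cs x + Y.rk q < Y.rk z * Y.cs x + Y.rk w) :
    Y.lex p q z w := by
  have l2 : Y.rk w < Y.cs x := by rw [ly_cs_E hY hw]; exact ly_rk_lt hY w
  have Epz : Y.E p z := hY.cls _ _ _ (ly_E_symm hp) hz
  have Eqw : Y.E q w := hY.cls _ _ _ (ly_E_symm hq) hw
  rcases lt_trichotomy (Y.rk p) (Y.rk z) with h1 | h1 | h1
  · left
    refine ⟨(ly_O_iff hY Epz).2 h1.le, fun e => ?_⟩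
    rw [e] at h1
    exact lt_irrefl _ h1
  · right
    refine ⟨ly_rk_inj hY Epz h1, ?_⟩
    rw [h1] at h
    have h2 : Y.rk q < Y.rk w := by omega
    refine ⟨(ly_O_iff hY Eqw).2 h2.le, fun e => ?_⟩
    rw [e] at h2
    exact lt_irrefl _ h2
  · exfalso
    have h2 := Nat.mul_le_mul_right (Y.cs x) (Nat.succ_le_of_lt h1)
    rw [Nat.succ_mul] at h2
    omega

theorem geo (n : ℕ) : ∑ p ∈ Finset.range n, 2 ^ p + 1 = 2 ^ n := by
  induction n with
  | zero => simp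
  | succ n ih =>
    rw [Finset.sum_range_succ, pow_succ]
    omega

theorem va_N (h : BitAx Y B) {x y : M} (hN : Y.N x y) : va Y B y = va Y B x + 1 := by
  classical
  have hY := h.ly
  obtain ⟨z0, w0, hz0, hw0, hB0, h1, h2⟩ := h.inc x y hN
  have hm : Y.cs x = Y.cs y := ly_cs_N hY hN
  set i := Y.rk z0 * Y.cs x + Y.rk w0 with hi
  have hin : i < Y.cs x ^ 2 := pos_lt hY hz0 hw0
  have key : ∀ p, p < Y.cs x ^ 2 → (p < i → bt Y B x p ∧ ¬ bt Y B y p) ∧
      (p = i → ¬ bt Y B x p ∧ bt Y B y p) ∧ (i < p → (bt Y B x p ↔ bt Y B y p)) := by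
    intro p hp
    obtain ⟨z, w, hz, hw, e⟩ := pos_ex hY x hp
    obtain ⟨z', hzz, hyz⟩ := hY.nfor x y z hN hz
    obtain ⟨w', hww, hyw⟩ := hY.nfor x y w hN hw
    have e' : Y.rk z' * Y.cs y + Y.rk w' = p := by
      rw [← ly_rk_N hY hzz, ← ly_rk_N hY hww, ← hm]
      exact e
    have bx : bt Y B x p ↔ B z w := by
      rw [← e]
      exact bt_iff hY hz hw
    have by' : bt Y B y p ↔ B z' w' := by
      rw [← e']
      exact bt_iff hY hyz hyw
    rw [bx, by']
    refine ⟨fun hlt => ?_, fun heq => ?_, fun hgt => ?_⟩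
    · exact (h2 z w z' w' hz hw hzz hww).1 (lex_of_lt hY hz hw hz0 hw0 (by rw [e]; exact hlt))
    · have l1 : Y.rk w < Y.cs x := by rw [ly_cs_E hY hw]; exact ly_rk_lt hY w
      have l2 : Y.rk w0 < Y.cs x := by rw [ly_cs_E hY hw0]; exact ly_rk_lt hY w0
      obtain ⟨e1, e2⟩ := pos_inj l1 l2 (by rw [e, heq])
      have f1 : z = z0 := ly_rk_inj hY (hY.cls _ _ _ (ly_E_symm hz) hz0) e1
      have f2 : w = w0 := ly_rk_inj hY (hY.cls _ _ _ (ly_E_symm hw) hw0) e2
      subst f1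
      subst f2
      exact ⟨hB0, h1 z' w' hzz hww⟩
    · exact (h2 z w z' w' hz hw hzz hww).2 (lex_of_lt hY hz0 hw0 hz hw (by rw [e]; exact hgt))
  unfold va
  rw [← hm]
  rw [← Finset.sum_range_add_sum_Ico _ (Nat.succ_le_of_lt hin),
    ← Finset.sum_range_add_sum_Ico (fun p => if bt Y B x p then 2 ^ p else 0)
      (Nat.succ_le_of_lt hin)]
  have t1 : ∑ p ∈ Finset.Ico i.succ (Y.cs x ^ 2), (if bt Y B y p then 2 ^ p else 0) =
      ∑ p ∈ Finset.Ico i.succ (Y.cs x ^ 2), (if bt Y B x p then 2 ^ p else 0) := by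
    refine Finset.sum_congr rfl fun p hp => ?_
    rw [Finset.mem_Ico] at hp
    exact if_congr ((key p hp.2).2.2 (by omega)).symm rfl rfl
  have t2 : ∑ p ∈ Finset.range i, (if bt Y B y p then 2 ^ p else 0) = 0 := by
    refine Finset.sum_eq_zero fun p hp => ?_
    rw [Finset.mem_range] at hp
    rw [if_neg ((key p (by omega)).1 hp).2]
  have t3 : ∑ p ∈ Finset.range i, (if bt Y B x p then 2 ^ p else 0) =
      ∑ p ∈ Finset.range i, 2 ^ p := by
    refine Finset.sum_congr rfl fun p hp => ?_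
    rw [Finset.mem_range] at hp
    rw [if_pos ((key p (by omega)).1 hp).1]
  have t4 := (key i hin).2.1 rfl
  rw [t1, Nat.succ_eq_add_one, Finset.sum_range_succ, Finset.sum_range_succ, t2, t3,
    if_neg t4.1, if_pos t4.2, ← geo i]
  ring

theorem va_lt (Y : Ly M) (B : M → M → Prop) (x : M) : va Y B x < 2 ^ (Y.cs x ^ 2) := by
  classical
  rw [← geo (Y.cs x ^ 2)]
  refine Nat.lt_succ_of_le (Finset.sum_le_sum fun p _ => ?_)
  split_ifs
  · exact le_rfl
  · exact Nat.zero_le _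

theorem va_Br {x : M} (hb : Br Y B x) : va Y B x = 0 := by
  classical
  refine Finset.sum_eq_zero fun p _ => ?_
  rw [if_neg]
  rintro ⟨z, w, hz, hw, hB, -⟩
  exact hb z w hz hw hB

theorem Br_va (hY : Y.Ax) {x : M} (h0 : va Y B x = 0) : Br Y B x := by
  classical
  intro z w hz hw hB
  have h1 := (Finset.sum_eq_zero_iff.1 h0) (Y.rk z * Y.cs x + Y.rk w)
    (Finset.mem_range.2 (pos_lt hY hz hw))
  rw [if_pos ((bt_iff hY hz hw).2 hB)] at h1
  exact absurd h1 (by positivity)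

theorem va_suc (h : BitAx Y B) {x : M} (hv : va Y B x + 1 < 2 ^ (Y.cs x ^ 2)) :
    ∃ y, Y.N x y := by
  classical
  by_contra hc
  have hall : ∀ z w, Y.E x z → Y.E x w → B z w := by
    intro z w hz hw
    by_contra hB
    exact hc (h.suc x ⟨z, w, hz, hw, hB⟩)
  have h1 : va Y B x = ∑ p ∈ Finset.range (Y.cs x ^ 2), 2 ^ p := by
    refine Finset.sum_congr rfl fun p hp => ?_
    rw [Finset.mem_range] at hp
    obtain ⟨z, w, hz, hw, e⟩ := pos_ex h.ly x hp
    rw [if_pos ⟨z, w, hz, hw, hall z w hz hw, e⟩]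
  rw [h1, geo] at hv
  exact lt_irrefl _ hv

theorem cs_eq (h : BitAx Y B) : ∀ (t : ℕ) (x : M), va Y B x = t →
    Y.cs x = Nat.card {y // va Y B y = 0} := by
  intro t
  induction t with
  | zero =>
    intro x hx
    unfold Ly.cs
    refine Nat.card_congr (Equiv.subtypeEquivRight fun y => ?_)
    constructor
    · intro hE
      rw [← va_E h.ly hE]
      exact hx
    · intro hy
      exact h.uni x y (Br_va h.ly hx) (Br_va h.ly hy)
  | succ t ih =>
    intro x hx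
    have hb : ¬ Br Y B x := by
      intro hb
      rw [va_Br hb] at hx
      omega
    obtain ⟨y, hy⟩ := h.pre x hb
    have h1 := va_N h hy
    rw [← ly_cs_N h.ly hy]
    exact ih y (by omega)

end BM

theorem bit_main {M : Type} [Finite M] [Nonempty M] {Y : Ly M} {B : M → M → Prop}
    (h : BitAx Y B) : ∃ v : M → ℕ, (∀ x y, Y.E x y → v x = v y) ∧
      (∀ x y, Y.N x y → v y = v x + 1) ∧ (∀ y, v y ≠ 0 → ∃ x, Y.N x y) ∧
      (∀ t, Nat.card {x // v x = t} ≤ Nat.card {x // v x = 0}) ∧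
      Nat.card M = 2 ^ (Nat.card {x // v x = 0} ^ 2) * Nat.card {x // v x = 0} := by
  have hp : ∀ y, BM.va Y B y ≠ 0 → ∃ x, Y.N x y := by
    intro y hy
    exact h.pre y fun hb => hy (BM.va_Br hb)
  have hcs : ∀ x, Y.cs x = Nat.card {y // BM.va Y B y = 0} := fun x => BM.cs_eq h _ x rfl
  have hT : ∀ x, BM.va Y B x < 2 ^ (Nat.card {y // BM.va Y B y = 0} ^ 2) := by
    intro x
    rw [← hcs x]
    exact BM.va_lt Y B x
  have hs : ∀ x, BM.va Y B x + 1 < 2 ^ (Nat.card {y // BM.va Y B y = 0} ^ 2) →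
      ∃ y, Y.N x y := by
    intro x hx
    rw [← hcs x] at hx
    exact BM.va_suc h hx
  obtain ⟨c1, c2⟩ := chain_card Y.N (BM.va Y B) (2 ^ (Nat.card {y // BM.va Y B y = 0} ^ 2))
    (fun x y hN => BM.va_N h hN) h.ly.nfun h.ly.ninj hp hs hT
  refine ⟨BM.va Y B, fun x y hE => BM.va_E h.ly hE, fun x y hN => BM.va_N h hN, hp, ?_, c2⟩
  intro t
  by_cases ht : t < 2 ^ (Nat.card {y // BM.va Y B y = 0} ^ 2)
  · exact (c1 t ht).le
  · have he : IsEmpty {x // BM.va Y B x = t} := by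
      refine ⟨fun x => ?_⟩
      have h1 := hT x.1
      rw [x.2] at h1
      exact ht h1
    rw [Nat.card_of_isEmpty]
    exact Nat.zero_le _

end Pool.Agent.Helper72.TW
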