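import Mathlib
import Pool.Agent.Helper72.TW.Td

set_option autoImplicit false

/-!
# TW-11: models with a tree-layering and configurations

`cfg_of_model`: `p α = Nat.card {x // β x = α}`, choose bijections of the fibres with `Fin (p α)`; this gives an
injection `e : M → Adr b × ℕ` with image `{x | x.2 < p x.1}`; `rel n R v := ∃ v' : Fin n → M, (∀ i, e (v' i) = v i) ∧ RelMap R v'`
(for a nullary symbol: `RelMap R`). `td_le_one` gives the locality. The equivalence
`M ≃ {x // C.str.D x}` is an isomorphism (`StrongHomClass.realize_sentence`).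
-/

namespace Pool.Agent.Helper72.TW

open FirstOrder FirstOrder.Language

variable {L : FirstOrder.Language.{0, 0}} {b : ℕ}

private theorem transfer62 (hL : ∀ n, IsEmpty (L.Functions n))
    {N N' : Type} [L.Structure N] (E : N ≃ N') (q : ∀ n, L.Relations n → (Fin n → N') → Prop)
    (hq : ∀ (n : ℕ) (R : L.Relations n) (v : Fin n → N),
      q n R (fun i => E (v i)) ↔ Structure.RelMap R v) (ψ : L.Sentence) :
    ψ.Realize N ↔ @Sentence.Realize L N' (Pool.Agent.Helper72.WT.istr hL q) ψ := by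
  letI := Pool.Agent.Helper72.WT.istr hL q
  let e : N ≃[L] N' :=
    { E with
      map_fun' := fun f _ => ((hL _).false f).elim
      map_rel' := fun R v => hq _ R v }
  exact StrongHomClass.realize_sentence e ψ

theorem cfg_of_model (hL : ∀ n, IsEmpty (L.Functions n)) (φ : L.Sentence) (w : ℕ) (M : Type)
    [L.Structure M] [Finite M] (hM : φ.Realize M) (hT : TreeLayering b w L M) :
    ∃ C : Cfg L b, C.Valid w ∧ C.size = Nat.card M ∧ C.str.Models hL φ := by
  classical
  obtain ⟨β, hw, hcl, hloc⟩ := hT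
  have hfin : ∀ α : Adr b, Finite {x // β x = α} := fun α => inferInstance
  let p : Adr b → ℕ := fun α => Nat.card {x // β x = α}
  let q : ∀ α : Adr b, {x // β x = α} ≃ Fin (p α) := fun α => Finite.equivFin _
  let e : M → Adr b × ℕ := fun x => (β x, (q (β x) ⟨x, rfl⟩).1)
  let C : Cfg L b :=
    { p := p
      rel := fun n R v => ∃ v' : Fin n → M, (∀ i, e (v' i) = v i) ∧ Structure.RelMap R v' }
  let E : M ≃ {x : Adr b × ℕ // C.str.D x} :=
    { toFun := fun x => ⟨e x, (q (β x) ⟨x, rfl⟩).2⟩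
      invFun := fun z => ((q z.1.1).symm ⟨z.1.2, z.2⟩).1
      left_inv := by
        intro x
        have h : (⟨(q (β x) ⟨x, rfl⟩).1, (q (β x) ⟨x, rfl⟩).2⟩ : Fin (p (β x))) =
            q (β x) ⟨x, rfl⟩ := rfl
        change ((q (β x)).symm ⟨(q (β x) ⟨x, rfl⟩).1, (q (β x) ⟨x, rfl⟩).2⟩).1 = x
        rw [h, Equiv.symm_apply_apply]
      right_inv := by
        rintro ⟨⟨α, i⟩, hi⟩
        have hi' : i < p α := hi
        apply Subtype.ext
        change e ((q α).symm ⟨i, hi'⟩).1 = (α, i)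
        obtain ⟨y, hy⟩ : ∃ y, y = (q α).symm ⟨i, hi'⟩ := ⟨_, rfl⟩
        rw [← hy]
        obtain ⟨y, rfl⟩ := y
        have h2 : q (β y) ⟨y, rfl⟩ = ⟨i, hi'⟩ := by rw [hy, Equiv.apply_symm_apply]
        change (β y, (q (β y) ⟨y, rfl⟩).1) = (β y, i)
        rw [h2] }
  have hE : ∀ x, (E x).1 = e x := fun x => rfl
  have hinj : Function.Injective e := fun x y h => E.injective (Subtype.ext h)
  have hpos : ∀ α, p α ≠ 0 ↔ ∃ x, β x = α := by
    intro α
    change Nat.card {x // β x = α} ≠ 0 ↔ _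
    rw [Nat.card_ne_zero]
    constructor
    · rintro ⟨⟨x, hx⟩, -⟩
      exact ⟨x, hx⟩
    · rintro ⟨x, hx⟩
      exact ⟨⟨⟨x, hx⟩⟩, hfin α⟩
  refine ⟨C, ⟨hw, ?_, ?_⟩, ?_, ?_⟩
  · intro α i h
    obtain ⟨x, hx⟩ := (hpos _).1 h
    exact (hpos _).2 (hcl x α i hx)
  · refine (Set.finite_range β).subset ?_
    intro α h
    obtain ⟨x, hx⟩ := (hpos _).1 h
    exact ⟨x, hx⟩
  · exact (Nat.card_congr E).symm
  · refine (transfer62 hL E (fun n R v => C.str.rel n R fun i => (v i).1) ?_ φ).1 hM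
    intro n R v
    constructor
    · rintro ⟨⟨v', hv', h⟩, -⟩
      have : v' = v := funext fun i => hinj (hv' i)
      rwa [← this]
    · intro h
      refine ⟨⟨v, fun i => rfl, h⟩, fun i j => ?_⟩
      exact td_le_one.2 (hloc n R v h i j)

/-- The structure of a configuration is a model of size `C.size`. -/
theorem spec_of_cfg (hL : ∀ n, IsEmpty (L.Functions n)) (φ : L.Sentence) (C : Cfg L b)
    (h : C.str.Models hL φ) : ∃ (M : Type) (_ : L.Structure M), Nat.card M = C.size ∧
      φ.Realize M :=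
  ⟨{x : Adr b × ℕ // C.str.D x}, C.str.toStructure hL, rfl, h⟩

end Pool.Agent.Helper72.TW
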