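import Mathlib
import Pool.Agent.Helper72.TW.Barrier2
import Pool.Agent.Helper72.TW.BitMain
import Pool.Agent.Helper72.TW.BitExist

set_option autoImplicit false

/-!
# TW-29: a sentence with narrow models whose spectrum is not ultimately periodic

`φ` from `bit_sentence`; its finite nonempty models have `2 ^ (m ^ 2) * m` elements and a path layering of width `m`
(`bit_main`, `layering_of`), and all these sizes occur (`exists_bit`). The spectrum is infinite and has arbitrarily
large gaps.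
-/

namespace Pool.Agent.Helper72.TW

open FirstOrder FirstOrder.Language Pool.Agent.Helper31.Spectra

private lemma LB_functions (n : ℕ) : IsEmpty (LB.Functions n) :=
  inferInstanceAs (IsEmpty Empty)

private lemma LB_binary (n : ℕ) (hn : 2 < n) : IsEmpty (LB.Relations n) := by
  refine ⟨fun R => ?_⟩
  cases R <;> omega

private lemma LB_finite : Finite (Σ n, LB.Relations n) := by
  have h : Function.Surjective (fun q : Fin 3 =>
      (match q with
      | 0 => ⟨2, RB.O⟩
      | 1 => ⟨2, RB.N⟩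
      | 2 => ⟨2, RB.B⟩ : Σ n, LB.Relations n)) := by
    rintro ⟨n, R⟩
    cases R with
    | O => exact ⟨0, rfl⟩
    | N => exact ⟨1, rfl⟩
    | B => exact ⟨2, rfl⟩
  exact Finite.of_surjective _ h

private lemma fin_two_eta {M : Type} (z : Fin 2 → M) : z = ![z 0, z 1] := by
  ext i
  fin_cases i <;> rfl

private lemma F_double (m m' : ℕ) (h : m < m') :
    2 * (2 ^ (m ^ 2) * m) ≤ 2 ^ (m' ^ 2) * m' := by
  have h1 : m ^ 2 + 1 ≤ m' ^ 2 := by nlinarith
  calc 2 * (2 ^ (m ^ 2) * m) = 2 ^ (m ^ 2 + 1) * m := by ring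
    _ ≤ 2 ^ (m' ^ 2) * m' :=
      Nat.mul_le_mul (Nat.pow_le_pow_right (by norm_num) h1) h.le

private lemma F_mono (m m' : ℕ) (h : m ≤ m') :
    2 ^ (m ^ 2) * m ≤ 2 ^ (m' ^ 2) * m' :=
  Nat.mul_le_mul (Nat.pow_le_pow_right (by norm_num) (Nat.pow_le_pow_left h 2)) h

private lemma le_F (m : ℕ) : m ≤ 2 ^ (m ^ 2) * m :=
  Nat.le_mul_of_pos_left m (by positivity)

private lemma v_related {M : Type} [LB.Structure M] (h : BitAx (lyB M) (btB M)) (v : M → ℕ)
    (hE : ∀ x y, (lyB M).E x y → v x = v y) (hN : ∀ x y, (lyB M).N x y → v y = v x + 1)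
    (n : ℕ) (R : LB.Relations n) (z : Fin n → M) (hR : Structure.RelMap R z) (i j : Fin n) :
    v (z i) = v (z j) ∨ v (z i) = v (z j) + 1 ∨ v (z j) = v (z i) + 1 := by
  have key : ∀ (a b : M), (v a = v b ∨ v b = v a + 1) → ∀ i j : Fin 2,
      v ((![a, b] : Fin 2 → M) i) = v ((![a, b] : Fin 2 → M) j) ∨
      v ((![a, b] : Fin 2 → M) i) = v ((![a, b] : Fin 2 → M) j) + 1 ∨
      v ((![a, b] : Fin 2 → M) j) = v ((![a, b] : Fin 2 → M) i) + 1 := by
    intro a b hab i j
    fin_cases i <;> fin_cases j <;> simp <;> omega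
  cases R with
  | O =>
    have e := fin_two_eta z
    have h1 : (lyB M).O (z 0) (z 1) := by
      show Structure.RelMap (L := LB) RB.O ![z 0, z 1]
      rw [← e]
      exact hR
    rw [e]
    exact key _ _ (Or.inl (hE _ _ (Or.inl h1))) i j
  | N =>
    have e := fin_two_eta z
    have h1 : (lyB M).N (z 0) (z 1) := by
      show Structure.RelMap (L := LB) RB.N ![z 0, z 1]
      rw [← e]
      exact hR
    rw [e]
    exact key _ _ (Or.inr (hN _ _ h1)) i j
  | B =>
    have e := fin_two_eta z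
    have h1 : btB M (z 0) (z 1) := by
      show Structure.RelMap (L := LB) RB.B ![z 0, z 1]
      rw [← e]
      exact hR
    rw [e]
    exact key _ _ (Or.inl (hE _ _ (h.loc _ _ h1))) i j

theorem not_periodic3 : ∃ (LL : FirstOrder.Language.{0, 0}) (φ : LL.Sentence),
    (∀ n, IsEmpty (LL.Functions n)) ∧ (∀ n, 2 < n → IsEmpty (LL.Relations n)) ∧
    Finite (Σ n, LL.Relations n) ∧
    (∀ (M : Type) [LL.Structure M] [Finite M] [Nonempty M], φ.Realize M →
      ∃ w, 2 ^ (w ^ 2) ≤ Nat.card M ∧ TreeLayering 1 w LL M) ∧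
    ¬ ∃ N p : ℕ, 0 < p ∧ ∀ n, N ≤ n → (n ∈ Spec LL φ ↔ n + p ∈ Spec LL φ) := by
  obtain ⟨σ, hσ⟩ := bit_sentence
  refine ⟨LB, σ, LB_functions, LB_binary, LB_finite, ?_, ?_⟩
  · intro M _ _ _ hM
    have hA : BitAx (lyB M) (btB M) := (hσ M).1 hM
    obtain ⟨v, hE, hN, hpre, hc, hcard⟩ := bit_main hA
    have hpos : 0 < Nat.card M := Nat.card_pos
    refine ⟨Nat.card {x // v x = 0}, ?_, ?_⟩
    · have h0 : 0 < Nat.card {x // v x = 0} := by
        rcases Nat.eq_zero_or_pos (Nat.card {x // v x = 0}) with h | h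
        · rw [h, Nat.mul_zero] at hcard
          omega
        · exact h
      calc 2 ^ (Nat.card {x // v x = 0} ^ 2)
          ≤ 2 ^ (Nat.card {x // v x = 0} ^ 2) * Nat.card {x // v x = 0} :=
            Nat.le_mul_of_pos_right _ h0
        _ = Nat.card M := hcard.symm
    · refine layering_of v _ hc ?_ ?_
      · intro y hy
        obtain ⟨x, hx⟩ := hpre y hy
        exact ⟨x, hN x y hx⟩
      · intro n R z hR i j
        exact v_related hA v hE hN n R z hR i j
  · rintro ⟨N, p, hp, hper⟩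
    have hin : ∀ m, 1 ≤ m → 2 ^ (m ^ 2) * m ∈ Spec LB σ := by
      intro m hm
      obtain ⟨M, sM, hcM, hA⟩ := exists_bit m hm
      exact ⟨by positivity, M, sM, hcM, (hσ M).2 hA⟩
    have hout : ∀ n ∈ Spec LB σ, ∃ m, n = 2 ^ (m ^ 2) * m := by
      rintro n ⟨hn, M, sM, hcM, hM⟩
      have hfM : Finite M := Nat.finite_of_card_ne_zero (by omega)
      have hne : Nonempty M := by
        by_contra hc
        rw [not_nonempty_iff] at hc
        rw [Nat.card_of_isEmpty] at hcM
        omega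
      obtain ⟨v, -, -, -, -, hcard⟩ := bit_main ((hσ M).1 hM)
      exact ⟨_, hcM.symm.trans hcard⟩
    have hmm : N + p + 1 ≤ 2 ^ ((N + p + 1) ^ 2) * (N + p + 1) := le_F _
    have h1 := (hper (2 ^ ((N + p + 1) ^ 2) * (N + p + 1)) (by omega)).1
      (hin (N + p + 1) (by omega))
    obtain ⟨m', he⟩ := hout _ h1
    rcases Nat.lt_or_ge (N + p + 1) m' with hlt | hle
    · have := F_double _ _ hlt
      omega
    · have := F_mono _ _ hle
      omega

end Pool.Agent.Helper72.TW
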