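import Mathlib
import Pool.Agent.Helper79.TL.Elim

set_option autoImplicit false

/-!
# TW-31: balanced separators in graphs of small tree-width

`group`: choose `J ⊆ I` with `3 * ∑_J w ≤ 2 * s` and `∑_J w` maximal. If `3 * ∑_{I \ J} w > 2 * s` then `∑_J w < s / 3`, some
`i ∈ I \ J` has `w i > 0`, by maximality `w i > s / 3`, and `{i}` is a solution.

`balanced_sep`: Let `ρ` be an elimination order of width `≤ k`. If no `v` has `2 * |low H ρ v ∩ S| > |S|` let `X = ∅`,
otherwise take such a `v` with `ρ v` minimal and `X = {v} ∪ high H ρ v` (at most `k + 1` points). The pieces are the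
connected components of the graph without `X`: a component `C` with the highest point `r` is contained in `low H ρ r`.
In the second case `low H ρ v` is closed under the edges of the graph without `X`, so `C` lies in `low H ρ v` (and then
`ρ r < ρ v`) or is disjoint from it. Group the pieces with `group`.

`balanced_sep_on`: apply `balanced_sep` to the graph of the edges inside `U` (`TreeWidthLE` is monotone: the sets `low` and
`high` become smaller) and intersect with `U`.
-/

namespace Pool.Agent.Helper72.TW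

open Pool.Agent.Helper79.TL

theorem group {ι : Type} [DecidableEq ι] (I : Finset ι) (w : ι → ℕ) (s : ℕ)
    (h1 : ∀ i ∈ I, 2 * w i ≤ s) (h2 : ∑ i ∈ I, w i ≤ s) :
    ∃ J, J ⊆ I ∧ 3 * ∑ i ∈ J, w i ≤ 2 * s ∧ 3 * ∑ i ∈ I \ J, w i ≤ 2 * s := by
  have hne : (I.powerset.filter fun J => 3 * ∑ i ∈ J, w i ≤ 2 * s).Nonempty :=
    ⟨∅, by simp⟩
  obtain ⟨J, hJ, hmax⟩ := Finset.exists_max_image _ (fun J => ∑ i ∈ J, w i) hne
  rw [Finset.mem_filter, Finset.mem_powerset] at hJ
  obtain ⟨hJI, hJs⟩ := hJ
  by_cases hc : 3 * ∑ i ∈ I \ J, w i ≤ 2 * s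
  · exact ⟨J, hJI, hJs, hc⟩
  · push Not at hc
    have hsum : ∑ i ∈ I \ J, w i + ∑ i ∈ J, w i = ∑ i ∈ I, w i := Finset.sum_sdiff hJI
    obtain ⟨i, hi, hpos⟩ : ∃ i ∈ I \ J, 0 < w i := by
      by_contra hno
      push Not at hno
      have h0 : ∑ i ∈ I \ J, w i = 0 := Finset.sum_eq_zero fun i hi => by
        have := hno i hi
        omega
      omega
    have hiI : i ∈ I := (Finset.mem_sdiff.1 hi).1
    have hiJ : i ∉ J := (Finset.mem_sdiff.1 hi).2
    have hbig : 2 * s < 3 * (w i + ∑ j ∈ J, w j) := by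
      by_contra hle
      push Not at hle
      have hmem : insert i J ∈ I.powerset.filter fun J => 3 * ∑ i ∈ J, w i ≤ 2 * s := by
        rw [Finset.mem_filter, Finset.mem_powerset]
        refine ⟨Finset.insert_subset hiI hJI, ?_⟩
        rw [Finset.sum_insert hiJ]
        exact hle
      have := hmax _ hmem
      simp only [Finset.sum_insert hiJ] at this
      omega
    refine ⟨{i}, Finset.singleton_subset_iff.2 hiI, ?_, ?_⟩
    · rw [Finset.sum_singleton]
      have := h1 i hiI
      omega
    · have hs2 : ∑ j ∈ I \ {i}, w j + ∑ j ∈ ({i} : Finset ι), w j = ∑ j ∈ I, w j :=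
        Finset.sum_sdiff (Finset.singleton_subset_iff.2 hiI)
      rw [Finset.sum_singleton] at hs2
      omega

variable {V : Type} [Fintype V] [DecidableEq V]

private theorem sep_pieces {H : SimpleGraph V} (S X : Finset V) {ι : Type} (f : V → ι)
    (hedge : ∀ a b, a ∉ X → b ∉ X → H.Adj a b → f a = f b)
    (hsmall : ∀ x, x ∉ X → ∀ T : Finset V, (∀ y ∈ T, y ∈ S ∧ y ∉ X ∧ f y = f x) →
      2 * T.card ≤ S.card) :
    ∃ A B : Finset V, (∀ x, x ∈ A ∨ x ∈ X ∨ x ∈ B) ∧ Disjoint A X ∧ Disjoint A B ∧
      Disjoint X B ∧ (∀ a ∈ A, ∀ c ∈ B, ¬ H.Adj a c) ∧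
      3 * (S ∩ A).card ≤ 2 * S.card ∧ 3 * (S ∩ B).card ≤ 2 * S.card := by
  classical
  have hI : ∀ J : Finset ι, (∀ i ∈ J, i ∈ ((Finset.univ \ X : Finset V).image f)) →
      ((S \ X).filter fun y => f y ∈ J).card =
        ∑ i ∈ J, ((S \ X).filter fun y => f y = i).card := by
    intro J _
    have h := Finset.card_eq_sum_card_fiberwise (s := (S \ X).filter fun y => f y ∈ J)
      (t := J) (f := f) (fun y hy => by
        have hy' : y ∈ (S \ X).filter fun y => f y ∈ J := hy
        exact (Finset.mem_filter.1 hy').2)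
    rw [h]
    refine Finset.sum_congr rfl fun i hi => ?_
    congr 1
    ext y
    simp only [Finset.mem_filter]
    constructor
    · rintro ⟨⟨h1, -⟩, h3⟩
      exact ⟨h1, h3⟩
    · rintro ⟨h1, h3⟩
      exact ⟨⟨h1, by rw [h3]; exact hi⟩, h3⟩
  obtain ⟨J, hJ, hJ1, hJ2⟩ := group ((Finset.univ \ X : Finset V).image f)
    (fun i => ((S \ X).filter fun y => f y = i).card) S.card
    (by
      intro i hi
      obtain ⟨x, hx, rfl⟩ := Finset.mem_image.1 hi
      refine hsmall x (Finset.mem_sdiff.1 hx).2 _ fun y hy => ?_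
      have hy' := Finset.mem_filter.1 hy
      exact ⟨(Finset.mem_sdiff.1 hy'.1).1, (Finset.mem_sdiff.1 hy'.1).2, hy'.2⟩)
    (by
      rw [← hI _ (fun i hi => hi)]
      refine Finset.card_le_card fun y hy => ?_
      exact (Finset.mem_sdiff.1 (Finset.mem_filter.1 hy).1).1)
  rw [← hI J (fun i hi => hJ hi)] at hJ1
  rw [← hI _ (fun i hi => (Finset.mem_sdiff.1 hi).1)] at hJ2
  refine ⟨Finset.univ.filter fun x => x ∉ X ∧ f x ∈ J,
    Finset.univ.filter fun x => x ∉ X ∧ f x ∉ J, ?_, ?_, ?_, ?_, ?_, ?_, ?_⟩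
  · intro x
    by_cases hX : x ∈ X
    · exact Or.inr (Or.inl hX)
    · by_cases hf : f x ∈ J
      · exact Or.inl (Finset.mem_filter.2 ⟨Finset.mem_univ _, hX, hf⟩)
      · exact Or.inr (Or.inr (Finset.mem_filter.2 ⟨Finset.mem_univ _, hX, hf⟩))
  · rw [Finset.disjoint_left]
    intro x hx
    exact (Finset.mem_filter.1 hx).2.1
  · rw [Finset.disjoint_left]
    intro x hx hx'
    exact (Finset.mem_filter.1 hx').2.2 (Finset.mem_filter.1 hx).2.2
  · rw [Finset.disjoint_left]
    intro x hx hx'
    exact (Finset.mem_filter.1 hx').2.1 hx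
  · intro a ha c hc hac
    have ha' := (Finset.mem_filter.1 ha).2
    have hc' := (Finset.mem_filter.1 hc).2
    have := hedge a c ha'.1 hc'.1 hac
    rw [this] at ha'
    exact hc'.2 ha'.2
  · have h : S ∩ (Finset.univ.filter fun x => x ∉ X ∧ f x ∈ J) =
        (S \ X).filter fun y => f y ∈ J := by
      ext y
      simp only [Finset.mem_inter, Finset.mem_filter, Finset.mem_univ, true_and,
        Finset.mem_sdiff]
      tauto
    rw [h]
    exact hJ1
  · have h : S ∩ (Finset.univ.filter fun x => x ∉ X ∧ f x ∉ J) ⊆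
        (S \ X).filter fun y => f y ∈ ((Finset.univ \ X : Finset V).image f) \ J := by
      intro y hy
      simp only [Finset.mem_inter, Finset.mem_filter, Finset.mem_univ, true_and] at hy
      simp only [Finset.mem_filter, Finset.mem_sdiff]
      exact ⟨⟨hy.1, hy.2.1⟩, Finset.mem_image.2 ⟨y, Finset.mem_sdiff.2 ⟨Finset.mem_univ _,
        hy.2.1⟩, rfl⟩, hy.2.2⟩
    exact (Nat.mul_le_mul_left 3 (Finset.card_le_card h)).trans hJ2

/-- The graph without the points of `X`. -/
private def del (H : SimpleGraph V) (X : Finset V) : SimpleGraph V where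
  Adj a b := H.Adj a b ∧ a ∉ X ∧ b ∉ X
  symm := ⟨fun _ _ h => ⟨h.1.symm, h.2.2, h.2.1⟩⟩
  loopless := ⟨fun _ h => H.irrefl h.1⟩

private theorem del_reach_low {H : SimpleGraph V} {X : Finset V} {ρ : V → ℕ} {r y : V}
    (h : (del H X).Reachable r y)
    (hmax : ∀ z, (del H X).Reachable r z → ρ z ≤ ρ r) : y ∈ low H ρ r := by
  obtain ⟨p⟩ := h
  have key : ∀ a b : V, (del H X).Walk a b → (del H X).Reachable r a → a ∈ low H ρ r →
      b ∈ low H ρ r := by
    intro a b q
    induction q with
    | nil => exact fun _ h => h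
    | @cons u v w huv q ih =>
      intro hu hl
      have hv : (del H X).Reachable r v := hu.trans huv.reachable
      exact ih hv (low_step hl huv.1 (hmax v hv))
  exact key r y p (SimpleGraph.Reachable.refl r) (mem_low_self r)

theorem balanced_sep {k : ℕ} {H : SimpleGraph V} (hH : TreeWidthLE k H) (S : Finset V) :
    ∃ A X B : Finset V, (∀ x, x ∈ A ∨ x ∈ X ∨ x ∈ B) ∧ Disjoint A X ∧ Disjoint A B ∧
      Disjoint X B ∧ X.card ≤ k + 1 ∧ (∀ a ∈ A, ∀ c ∈ B, ¬ H.Adj a c) ∧
      3 * (S ∩ A).card ≤ 2 * S.card ∧ 3 * (S ∩ B).card ≤ 2 * S.card := by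
  classical
  obtain ⟨ρ, hρ, hk⟩ := hH
  -- it is enough to find `X` such that every component without `X` is small
  suffices hmain : ∃ X : Finset V, X.card ≤ k + 1 ∧ ∀ r, r ∉ X →
      (∀ z, (del H X).Reachable r z → ρ z ≤ ρ r) →
      2 * (S.filter fun y => (del H X).Reachable r y).card ≤ S.card by
    obtain ⟨X, hX, hcomp⟩ := hmain
    obtain ⟨A, B, h1, h2, h3, h4, h5, h6, h7⟩ := sep_pieces (H := H) S X
      (fun x => (del H X).connectedComponentMk x)
      (fun a b ha hb hab => by
        refine SimpleGraph.ConnectedComponent.sound ?_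
        have : (del H X).Adj a b := ⟨hab, ha, hb⟩
        exact this.reachable)
      (fun x hx T hT => by
        -- the highest point of the component
        have hne : (Finset.univ.filter fun y => (del H X).Reachable x y).Nonempty :=
          ⟨x, Finset.mem_filter.2 ⟨Finset.mem_univ _, SimpleGraph.Reachable.refl x⟩⟩
        obtain ⟨r, hr, hrmax⟩ := Finset.exists_max_image _ ρ hne
        have hxr : (del H X).Reachable x r := (Finset.mem_filter.1 hr).2
        have hrX : r ∉ X := by
          obtain ⟨p⟩ := hxr.symm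
          cases p with
          | nil => exact hx
          | cons h q => exact h.2.1
        have h := hcomp r hrX fun z hz =>
          hrmax z (Finset.mem_filter.2 ⟨Finset.mem_univ _, hxr.trans hz⟩)
        refine le_trans (Nat.mul_le_mul_left 2 (Finset.card_le_card fun y hy => ?_)) h
        obtain ⟨hyS, -, hyf⟩ := hT y hy
        rw [Finset.mem_filter]
        refine ⟨hyS, ?_⟩
        exact hxr.symm.trans (SimpleGraph.ConnectedComponent.exact hyf).symm)
    exact ⟨A, X, B, h1, h2, h3, h4, hX, h5, h6, h7⟩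
  by_cases hv : ∃ v, S.card < 2 * (S.filter fun y => y ∈ low H ρ v).card
  · -- a lowest heavy point
    have hne : (Finset.univ.filter fun v =>
        S.card < 2 * (S.filter fun y => y ∈ low H ρ v).card).Nonempty := by
      obtain ⟨v, hv⟩ := hv
      exact ⟨v, Finset.mem_filter.2 ⟨Finset.mem_univ _, hv⟩⟩
    obtain ⟨v, hv1, hvmin⟩ := Finset.exists_min_image _ ρ hne
    have hv2 : S.card < 2 * (S.filter fun y => y ∈ low H ρ v).card :=
      (Finset.mem_filter.1 hv1).2
    refine ⟨insert v (Finset.univ.filter fun y => y ∈ high H ρ v), ?_, ?_⟩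
    · refine (Finset.card_insert_le _ _).trans ?_
      have h1 := hk v
      have h2 : (high H ρ v).ncard = (Finset.univ.filter fun y => y ∈ high H ρ v).card := by
        rw [← Set.ncard_coe_finset]
        congr 1
        ext y
        simp
      omega
    · intro r hr hrmax
      set X := insert v (Finset.univ.filter fun y => y ∈ high H ρ v) with hX
      have hvX : v ∈ X := Finset.mem_insert_self _ _
      have hhX : ∀ y, y ∈ high H ρ v → y ∈ X := fun y hy =>
        Finset.mem_insert_of_mem (Finset.mem_filter.2 ⟨Finset.mem_univ _, hy⟩)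
      -- `low H ρ v` is closed
      have hstep : ∀ a b, (del H X).Adj a b → a ∈ low H ρ v → b ∈ low H ρ v := by
        intro a b hab ha
        by_contra hb
        have hlt : ρ v < ρ b := by
          by_contra hle
          exact hb (low_step ha hab.1 (not_lt.1 hle))
        exact hab.2.2 (hhX b ⟨hlt, a, ha, hab.1⟩)
      have hclosed : ∀ a b, (del H X).Reachable a b → a ∈ low H ρ v → b ∈ low H ρ v := by
        intro a b hab
        obtain ⟨p⟩ := hab
        induction p with
        | nil => exact fun h => h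
        | cons h q ih => exact fun ha => ih (hstep _ _ h ha)
      by_cases hrl : r ∈ low H ρ v
      · -- the component lies below `v`
        have hrv : r ≠ v := fun h => hr (by rw [h]; exact hvX)
        have hlt : ρ r < ρ v := lt_of_le_of_ne (rank_low hrl) fun h => hrv (hρ h)
        have hnot : ¬ (S.card < 2 * (S.filter fun y => y ∈ low H ρ r).card) := fun h =>
          absurd (hvmin r (Finset.mem_filter.2 ⟨Finset.mem_univ _, h⟩)) (not_le.2 hlt)
        refine le_trans (Nat.mul_le_mul_left 2 (Finset.card_le_card fun y hy => ?_))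
          (not_lt.1 hnot)
        rw [Finset.mem_filter] at hy ⊢
        exact ⟨hy.1, del_reach_low hy.2 hrmax⟩
      · -- the component is disjoint from `low H ρ v`
        have hdis : Disjoint (S.filter fun y => (del H X).Reachable r y)
            (S.filter fun y => y ∈ low H ρ v) := by
          rw [Finset.disjoint_left]
          intro y hy hy'
          exact hrl (hclosed y r (Finset.mem_filter.1 hy).2.symm (Finset.mem_filter.1 hy').2)
        have hle : (S.filter fun y => (del H X).Reachable r y).card +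
            (S.filter fun y => y ∈ low H ρ v).card ≤ S.card := by
          rw [← Finset.card_union_of_disjoint hdis]
          exact Finset.card_le_card (Finset.union_subset (Finset.filter_subset _ _)
            (Finset.filter_subset _ _))
        omega
  · refine ⟨∅, by simp, fun r _ hrmax => ?_⟩
    have hnot : ¬ (S.card < 2 * (S.filter fun y => y ∈ low H ρ r).card) := fun h => hv ⟨r, h⟩
    refine le_trans (Nat.mul_le_mul_left 2 (Finset.card_le_card fun y hy => ?_))
      (not_lt.1 hnot)
    rw [Finset.mem_filter] at hy ⊢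
    exact ⟨hy.1, del_reach_low hy.2 hrmax⟩

theorem treeWidth_mono {k : ℕ} {H H' : SimpleGraph V} (hH : TreeWidthLE k H) (h : H' ≤ H) :
    TreeWidthLE k H' := by
  obtain ⟨ρ, hρ, hk⟩ := hH
  refine ⟨ρ, hρ, fun v => ?_⟩
  have hlow : low H' ρ v ⊆ low H ρ v := by
    intro u hu
    have hle : (fun a b => H'.Adj a b ∧ ρ b ≤ ρ v) ≤ (fun a b => H.Adj a b ∧ ρ b ≤ ρ v) :=
      fun a b hab => ⟨h hab.1, hab.2⟩
    exact Relation.ReflTransGen.mono hle _ _ hu
  refine (Set.ncard_le_ncard ?_ (Set.toFinite _)).trans (hk v)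
  rintro w ⟨hw, u, hu, huw⟩
  exact ⟨hw, u, hlow hu, h huw⟩

/-- The graph of the edges inside `U`. -/
private def ins (H : SimpleGraph V) (U : Finset V) : SimpleGraph V where
  Adj a b := H.Adj a b ∧ a ∈ U ∧ b ∈ U
  symm := ⟨fun _ _ h => ⟨h.1.symm, h.2.2, h.2.1⟩⟩
  loopless := ⟨fun _ h => H.irrefl h.1⟩

theorem balanced_sep_on {k : ℕ} {H : SimpleGraph V} (hH : TreeWidthLE k H) (U S : Finset V)
    (hS : S ⊆ U) : ∃ A X B : Finset V, A ∪ X ∪ B = U ∧ Disjoint A X ∧ Disjoint A B ∧
      Disjoint X B ∧ X.card ≤ k + 1 ∧ (∀ a ∈ A, ∀ c ∈ B, ¬ H.Adj a c) ∧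
      3 * (S ∩ A).card ≤ 2 * S.card ∧ 3 * (S ∩ B).card ≤ 2 * S.card := by
  have hH' : TreeWidthLE k (ins H U) := treeWidth_mono hH fun a b hab => hab.1
  obtain ⟨A, X, B, h1, h2, h3, h4, h5, h6, h7, h8⟩ := balanced_sep hH' S
  refine ⟨A ∩ U, X ∩ U, B ∩ U, ?_, ?_, ?_, ?_, ?_, ?_, ?_, ?_⟩
  · ext x
    simp only [Finset.mem_union, Finset.mem_inter]
    have := h1 x
    tauto
  · exact h2.mono Finset.inter_subset_left Finset.inter_subset_left
  · exact h3.mono Finset.inter_subset_left Finset.inter_subset_left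
  · exact h4.mono Finset.inter_subset_left Finset.inter_subset_left
  · exact (Finset.card_le_card Finset.inter_subset_left).trans h5
  · intro a ha c hc hac
    rw [Finset.mem_inter] at ha hc
    exact h6 a ha.1 c hc.1 ⟨hac, ha.2, hc.2⟩
  · refine le_trans (Nat.mul_le_mul_left 3 (Finset.card_le_card ?_)) h7
    exact Finset.inter_subset_inter_left Finset.inter_subset_left
  · refine le_trans (Nat.mul_le_mul_left 3 (Finset.card_le_card ?_)) h8
    exact Finset.inter_subset_inter_left Finset.inter_subset_left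

end Pool.Agent.Helper72.TW
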