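import Mathlib
import Pool.Agent.Helper72.TW.Sep

set_option autoImplicit false

/-!
# TW-32: tree-partitions of bounded degree (Ding-Oporowski, Distel-Wood)

`K` stands for `k + 1` (tree-width at most `k`), `d` for the maximal degree. `part_aux`, strong induction on `|U|`:

Case 1: `|U \ S| ≤ 18 K d`. `β x = []` on `S`, `β x = [0]` on `U \ S` (`2 K (0 + 2) = 4 K ≤ |S|`).

Case 2: `|U \ S| > 18 K d` and `|S| ≤ 12 K`. Let `S'` be the set of the points of `U \ S` with a neighbour in `S` (at most
`12 K d` points), enlarged inside `U \ S` to at least `4 K` points if necessary (then exactly `4 K ≤ 12 K d` points). Induction hypothesis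
for `U \ S`, `S'`: `β'`. Let `β x = []` on `S` and `β x = 0 :: β' x` on `U \ S`.

Case 3: `12 K < |S| ≤ 12 K d`. `balanced_sep_on` for `U`, `S`: `A, X, B`. `U₁ = A ∪ X`, `U₂ = X ∪ B`, `Sᵢ = (S ∩ Uᵢ) ∪ X`. Then
`|S₁| ≤ 2/3 |S| + K ≤ |S|`, `|S ∩ U₁| ≥ |S| / 3 > 4 K`, `B` is nonempty (`|S ∩ U₂| ≥ |S| / 3 > |X|`), so `|U₁| < |U|`, and the same for
`2`. Also `|S₁| + |S₂| ≤ |S| + 2 K`. Induction hypothesis: `β₁`, `β₂` (both are `[]` on `X`). Let `r` be the least number that is larger
than all first letters of `β₁` on `U₁` (so `2 K (r + 1) ≤ |S₁|`, also if `r = 0` because `|S₁| ≥ 4 K`). `β x = β₁ x` on `U₁`, and on `B`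
`β x = []` if `β₂ x = []`, `β x = (i + r) :: α` if `β₂ x = i :: α`. Then `2 K (i + 2) ≤ |S₂|` gives
`2 K (i + r + 2) ≤ |S₁| + |S₂| - 2 K ≤ |S|` (so also `i + r < 6 d`), and the root has at most
`|root₁| + |root₂| - |X|` points, `2 |root| + 4 K ≤ 3 |S₁| + 3 |S₂| - 4 K - 2 |X| ≤ 3 |S|`
(`|S₁| + |S₂| = |S ∩ A| + |S ∩ B| + 2 |X|`). Nodes other than the root come from one side only.

`tree_partition`: if `|V| < 4 K` everything is in the root. Otherwise `part_aux` with `U = V` and `|S| = 4 K`.
-/

namespace Pool.Agent.Helper72.TW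

open Pool.Agent.Helper79.TL

variable {V : Type} [Fintype V] [DecidableEq V]

/-- The statement for the induction: `β` is a tree-partition of `U` with `S` in the root. -/
structure PartOf (H : SimpleGraph V) (K d : ℕ) (U S : Finset V) (β : V → List (Fin (6 * d))) :
    Prop where
  root : ∀ x ∈ S, β x = []
  width : ∀ α, (U.filter fun x => β x = α).card ≤ 18 * K * d
  rootwidth : 2 * (U.filter fun x => β x = []).card + 4 * K ≤ 3 * S.card
  letter : ∀ x ∈ U, ∀ i α, β x = i :: α → 2 * K * (i.1 + 2) ≤ S.card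
  parent : ∀ x ∈ U, ∀ α i, β x = α ++ [i] → ∃ y ∈ U, β y = α
  adj : ∀ x ∈ U, ∀ y ∈ U, H.Adj x y →
    β x = β y ∨ (∃ c, β x = β y ++ [c]) ∨ ∃ c, β y = β x ++ [c]

omit [Fintype V] in
/-- Case 1 of `part_aux`: few points outside `S`. -/
private lemma case_one {K d : ℕ} (hd : 1 ≤ d) (hK : 1 ≤ K) (H : SimpleGraph V) (U S : Finset V)
    (hSU : S ⊆ U) (h4 : 4 * K ≤ S.card) (h12 : S.card ≤ 12 * K * d)
    (hU : (U \ S).card ≤ 18 * K * d) :
    ∃ β : V → List (Fin (6 * d)), PartOf H K d U S β := by
  let z : Fin (6 * d) := ⟨0, by omega⟩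
  have hKd : 12 * K * d ≤ 18 * K * d := by
    rw [mul_assoc, mul_assoc]
    omega
  have hSne : S.Nonempty := by
    rw [← Finset.card_pos]
    omega
  refine ⟨fun x => if x ∈ S then [] else [z], ?_, ?_, ?_, ?_, ?_, ?_⟩
  · intro x hx
    simp [hx]
  · intro α
    rcases α with _ | ⟨a, α⟩
    · refine le_trans (Finset.card_le_card ?_) (h12.trans hKd)
      intro x hx
      simp only [Finset.mem_filter] at hx
      by_contra hxS
      simp [hxS] at hx
    · refine le_trans (Finset.card_le_card ?_) hU
      intro x hx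
      simp only [Finset.mem_filter] at hx
      rw [Finset.mem_sdiff]
      refine ⟨hx.1, fun hxS => ?_⟩
      simp [hxS] at hx
  · have h1 : (U.filter fun x => (if x ∈ S then [] else [z]) = ([] : List (Fin (6 * d)))).card ≤
        S.card := by
      refine Finset.card_le_card ?_
      intro x hx
      simp only [Finset.mem_filter] at hx
      by_contra hxS
      simp [hxS] at hx
    omega
  · intro x _ i α hxi
    by_cases hxS : x ∈ S
    · simp [hxS] at hxi
    · simp only [hxS, if_false, List.cons.injEq] at hxi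
      rw [← hxi.1]
      show 2 * K * (0 + 2) ≤ S.card
      omega
  · intro x _ α i hxi
    by_cases hxS : x ∈ S
    · simp [hxS] at hxi
    · simp only [hxS, if_false] at hxi
      rcases α with _ | ⟨a, α⟩
      · obtain ⟨y, hy⟩ := hSne
        exact ⟨y, hSU hy, by simp [hy]⟩
      · simp at hxi
  · intro x _ y _ _
    by_cases hxS : x ∈ S
    · by_cases hyS : y ∈ S
      · left
        simp [hxS, hyS]
      · right; right
        exact ⟨z, by simp [hxS, hyS]⟩
    · by_cases hyS : y ∈ S
      · right; left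
        exact ⟨z, by simp [hxS, hyS]⟩
      · left
        simp [hxS, hyS]

/-- Case 2 of `part_aux`: the set `S` is small. -/
private lemma case_two {K d : ℕ} (hd : 1 ≤ d) (hK : 1 ≤ K) (H : SimpleGraph V)
    (hdeg : ∀ v, {w | H.Adj v w}.ncard ≤ d) (U S : Finset V)
    (hSU : S ⊆ U) (h4 : 4 * K ≤ S.card) (h12 : S.card ≤ 12 * K)
    (hU : 18 * K * d < (U \ S).card)
    (ih : ∀ S' : Finset V, S' ⊆ U \ S → 4 * K ≤ S'.card → S'.card ≤ 12 * K * d →
      ∃ β : V → List (Fin (6 * d)), PartOf H K d (U \ S) S' β) :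
    ∃ β : V → List (Fin (6 * d)), PartOf H K d U S β := by
  classical
  let z : Fin (6 * d) := ⟨0, by omega⟩
  have hKd1 : K ≤ K * d := Nat.le_mul_of_pos_right K hd
  have e18 : 18 * K * d = 18 * (K * d) := by ring
  have e12 : 12 * K * d = 12 * (K * d) := by ring
  have hSne : S.Nonempty := by
    rw [← Finset.card_pos]
    omega
  -- the points with a neighbour in `S`
  let S0 : Finset V := (U \ S).filter fun x => ∃ s ∈ S, H.Adj s x
  have hS0 : S0.card ≤ 12 * (K * d) := by
    have h1 : S0 ⊆ S.biUnion fun s => (Set.toFinite {w | H.Adj s w}).toFinset := by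
      intro x hx
      simp only [S0, Finset.mem_filter] at hx
      obtain ⟨s, hs, hsx⟩ := hx.2
      rw [Finset.mem_biUnion]
      exact ⟨s, hs, by rw [Set.Finite.mem_toFinset]; exact hsx⟩
    have h2 : (S.biUnion fun s => (Set.toFinite {w | H.Adj s w}).toFinset).card ≤ S.card * d := by
      refine Finset.card_biUnion_le_card_mul _ _ _ fun s _ => ?_
      rw [← Set.ncard_eq_toFinset_card]
      exact hdeg s
    calc S0.card ≤ S.card * d := (Finset.card_le_card h1).trans h2
      _ ≤ 12 * K * d := Nat.mul_le_mul_right d h12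
      _ = 12 * (K * d) := e12
  obtain ⟨S', hS0S', hS'U, hS'card⟩ := Finset.exists_subsuperset_card_eq
    (Finset.filter_subset _ _ : S0 ⊆ U \ S) (le_max_left S0.card (4 * K))
    (max_le (by omega) (by omega))
  have hS'4 : 4 * K ≤ S'.card := by
    rw [hS'card]
    exact le_max_right _ _
  have hS'12 : S'.card ≤ 12 * K * d := by
    rw [hS'card, e12]
    exact max_le hS0 (by omega)
  obtain ⟨β', hβ'⟩ := ih S' hS'U hS'4 hS'12
  refine ⟨fun x => if x ∈ S then [] else z :: β' x, ?_, ?_, ?_, ?_, ?_, ?_⟩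
  · intro x hx
    simp [hx]
  · intro α
    rcases α with _ | ⟨a, α⟩
    · have h1 : (U.filter fun x => (if x ∈ S then [] else z :: β' x) =
          ([] : List (Fin (6 * d)))).card ≤ S.card := by
        refine Finset.card_le_card ?_
        intro x hx
        simp only [Finset.mem_filter] at hx
        by_contra hxS
        simp [hxS] at hx
      omega
    · refine le_trans (Finset.card_le_card ?_) (hβ'.width α)
      intro x hx
      simp only [Finset.mem_filter] at hx
      have hxS : x ∉ S := by
        intro hxS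
        simp [hxS] at hx
      simp only [hxS, if_false, List.cons.injEq] at hx
      rw [Finset.mem_filter, Finset.mem_sdiff]
      exact ⟨⟨hx.1, hxS⟩, hx.2.2⟩
  · have h1 : (U.filter fun x => (if x ∈ S then [] else z :: β' x) =
        ([] : List (Fin (6 * d)))).card ≤ S.card := by
      refine Finset.card_le_card ?_
      intro x hx
      simp only [Finset.mem_filter] at hx
      by_contra hxS
      simp [hxS] at hx
    omega
  · intro x _ i α hxi
    by_cases hxS : x ∈ S
    · simp [hxS] at hxi
    · simp only [hxS, if_false, List.cons.injEq] at hxi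
      rw [← hxi.1]
      show 2 * K * (0 + 2) ≤ S.card
      omega
  · intro x hxU α i hxi
    by_cases hxS : x ∈ S
    · simp [hxS] at hxi
    · simp only [hxS, if_false] at hxi
      rcases α with _ | ⟨a, α⟩
      · obtain ⟨y, hy⟩ := hSne
        exact ⟨y, hSU hy, by simp [hy]⟩
      · simp only [List.cons_append, List.cons.injEq] at hxi
        obtain ⟨y, hy, hyα⟩ := hβ'.parent x (Finset.mem_sdiff.2 ⟨hxU, hxS⟩) α i hxi.2
        rw [Finset.mem_sdiff] at hy
        refine ⟨y, hy.1, ?_⟩
        simp only [hy.2, if_false]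
        rw [hyα, hxi.1]
  · have key : ∀ x ∈ U, ∀ y ∈ U, H.Adj x y → x ∈ S → y ∉ S → β' y = [] := by
      intro x _ y hyU hxy hxS hyS
      refine hβ'.root y (hS0S' ?_)
      simp only [Finset.mem_filter, Finset.mem_sdiff]
      exact ⟨⟨hyU, hyS⟩, x, hxS, hxy⟩
    intro x hxU y hyU hxy
    by_cases hxS : x ∈ S
    · by_cases hyS : y ∈ S
      · left
        simp [hxS, hyS]
      · right; right
        exact ⟨z, by simp [hxS, hyS, key x hxU y hyU hxy hxS hyS]⟩
    · by_cases hyS : y ∈ S
      · right; left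
        exact ⟨z, by simp [hxS, hyS, key y hyU x hxU hxy.symm hyS hxS]⟩
      · simp only [hxS, hyS, if_false]
        rcases hβ'.adj x (Finset.mem_sdiff.2 ⟨hxU, hxS⟩) y (Finset.mem_sdiff.2 ⟨hyU, hyS⟩) hxy
          with h | ⟨c, h⟩ | ⟨c, h⟩
        · left
          rw [h]
        · right; left
          exact ⟨c, by rw [h, List.cons_append]⟩
        · right; right
          exact ⟨c, by rw [h, List.cons_append]⟩

/-- Shift the first letter by `r`. -/
private def shi {d : ℕ} (r : ℕ) : List (Fin (6 * d)) → List (Fin (6 * d))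
  | [] => []
  | i :: α => (if h : i.1 + r < 6 * d then ⟨i.1 + r, h⟩ else i) :: α

private lemma shi_append {d : ℕ} (r : ℕ) (l : List (Fin (6 * d))) (c : Fin (6 * d)) :
    ∃ c', shi r (l ++ [c]) = shi r l ++ [c'] := by
  rcases l with _ | ⟨i, α⟩
  · exact ⟨_, rfl⟩
  · exact ⟨c, rfl⟩

/-- The bound for the first letters. -/
private def fl {d : ℕ} : List (Fin (6 * d)) → ℕ
  | [] => 0
  | i :: _ => i.1 + 1

omit [Fintype V] in
/-- Case 3 of `part_aux`: gluing along the separator. -/
private lemma case_three {K d : ℕ} (hK : 1 ≤ K) (H : SimpleGraph V) (U S A X B : Finset V)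
    (hSU : S ⊆ U) (h4 : 12 * K < S.card) (h12 : S.card ≤ 12 * K * d)
    (hU : A ∪ X ∪ B = U) (hAX : Disjoint A X) (hAB : Disjoint A B) (hXB : Disjoint X B)
    (hXK : X.card ≤ K) (hno : ∀ a ∈ A, ∀ c ∈ B, ¬ H.Adj a c)
    (hSA : 3 * (S ∩ A).card ≤ 2 * S.card) (hSB : 3 * (S ∩ B).card ≤ 2 * S.card)
    (ih : ∀ U' S' : Finset V, U'.card < U.card → S' ⊆ U' → 4 * K ≤ S'.card →
      S'.card ≤ 12 * K * d → ∃ β : V → List (Fin (6 * d)), PartOf H K d U' S' β) :
    ∃ β : V → List (Fin (6 * d)), PartOf H K d U S β := by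
  classical
  have e18 : 18 * K * d = 18 * (K * d) := by ring
  have e12 : 12 * K * d = 12 * (K * d) := by ring
  have hSne : S.Nonempty := by
    rw [← Finset.card_pos]
    omega
  have hmemU : ∀ x, x ∈ U ↔ x ∈ A ∨ x ∈ X ∨ x ∈ B := by
    intro x
    rw [← hU, Finset.mem_union, Finset.mem_union, or_assoc]
  have hcard : (S ∩ A).card + (S ∩ X).card + (S ∩ B).card = S.card := by
    have h1 : (S ∩ A) ∪ (S ∩ X) ∪ (S ∩ B) = S := by
      ext x
      simp only [Finset.mem_union, Finset.mem_inter]
      constructor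
      · rintro ((h | h) | h) <;> exact h.1
      · intro h
        rcases (hmemU x).1 (hSU h) with h' | h' | h'
        · exact Or.inl (Or.inl ⟨h, h'⟩)
        · exact Or.inl (Or.inr ⟨h, h'⟩)
        · exact Or.inr ⟨h, h'⟩
    have h2 : Disjoint (S ∩ A) (S ∩ X) :=
      hAX.mono Finset.inter_subset_right Finset.inter_subset_right
    have h3 : Disjoint ((S ∩ A) ∪ (S ∩ X)) (S ∩ B) := by
      rw [Finset.disjoint_union_left]
      exact ⟨hAB.mono Finset.inter_subset_right Finset.inter_subset_right,
        hXB.mono Finset.inter_subset_right Finset.inter_subset_right⟩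
    conv_rhs => rw [← h1]
    rw [Finset.card_union_of_disjoint h3, Finset.card_union_of_disjoint h2]
  have hSX : (S ∩ X).card ≤ X.card := Finset.card_le_card Finset.inter_subset_right
  have hUcard : A.card + X.card + B.card = U.card := by
    have h3 : Disjoint (A ∪ X) B := by
      rw [Finset.disjoint_union_left]
      exact ⟨hAB, hXB⟩
    rw [← hU, Finset.card_union_of_disjoint h3, Finset.card_union_of_disjoint hAX]
  have hSAA : (S ∩ A).card ≤ A.card := Finset.card_le_card Finset.inter_subset_right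
  have hSBB : (S ∩ B).card ≤ B.card := Finset.card_le_card Finset.inter_subset_right
  -- the two parts
  have hS1card : ((S ∩ A) ∪ X).card = (S ∩ A).card + X.card :=
    Finset.card_union_of_disjoint (hAX.mono_left Finset.inter_subset_right)
  have hS2card : ((S ∩ B) ∪ X).card = (S ∩ B).card + X.card :=
    Finset.card_union_of_disjoint (hXB.symm.mono_left Finset.inter_subset_right)
  have hU1card : (A ∪ X).card = A.card + X.card := Finset.card_union_of_disjoint hAX
  have hU2card : (X ∪ B).card = X.card + B.card := Finset.card_union_of_disjoint hXB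
  obtain ⟨β₁, h₁⟩ := ih (A ∪ X) ((S ∩ A) ∪ X) (by omega)
    (Finset.union_subset_union_left Finset.inter_subset_right) (by omega) (by omega)
  obtain ⟨β₂, h₂⟩ := ih (X ∪ B) ((S ∩ B) ∪ X) (by omega)
    (by
      rw [Finset.union_comm X B]
      exact Finset.union_subset_union_left Finset.inter_subset_right) (by omega) (by omega)
  have hr1 := h₁.rootwidth
  have hr2 := h₂.rootwidth
  rw [hS1card] at hr1
  rw [hS2card] at hr2
  -- the shift
  let r : ℕ := (A ∪ X).sup fun x => fl (β₁ x)
  have hr : 2 * K * (r + 1) ≤ (S ∩ A).card + X.card := by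
    rcases Finset.eq_empty_or_nonempty (A ∪ X) with he | hne
    · have : r = 0 := by
        simp only [r, he, Finset.sup_empty]
        rfl
      rw [this]
      omega
    · obtain ⟨x, hx, hxr⟩ := Finset.exists_mem_eq_sup (A ∪ X) hne fun x => fl (β₁ x)
      have hrx : r = fl (β₁ x) := hxr
      rw [hrx]
      rcases hβx : β₁ x with _ | ⟨i, α⟩
      · show 2 * K * (0 + 1) ≤ _
        omega
      · show 2 * K * (i.1 + 1 + 1) ≤ _
        have := h₁.letter x hx i α hβx
        rw [hS1card] at this
        exact this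
  have hlt : ∀ x ∈ A ∪ X, ∀ i α, β₁ x = i :: α → i.1 < r := by
    intro x hx i α hxi
    have h5 : fl (β₁ x) ≤ r := Finset.le_sup (f := fun x => fl (β₁ x)) hx
    rw [hxi] at h5
    exact h5
  have hsum : ∀ x ∈ X ∪ B, ∀ i α, β₂ x = i :: α → 2 * K * (i.1 + r + 2) ≤ S.card := by
    intro x hx i α hxi
    have h5 := h₂.letter x hx i α hxi
    rw [hS2card] at h5
    have e1 : 2 * K * (i.1 + r + 2) + 2 * K = 2 * K * (i.1 + 2) + 2 * K * (r + 1) := by ring
    omega
  have hlt6 : ∀ x ∈ X ∪ B, ∀ i α, β₂ x = i :: α → i.1 + r < 6 * d := by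
    intro x hx i α hxi
    have h5 := (hsum x hx i α hxi).trans h12
    have h6 : 2 * K * (i.1 + r + 2) ≤ 2 * K * (6 * d) := by
      refine h5.trans (le_of_eq ?_)
      ring
    have h7 : i.1 + r + 2 ≤ 6 * d := Nat.le_of_mul_le_mul_left h6 (by omega)
    omega
  have hshi : ∀ x, ∀ (hx : x ∈ X ∪ B), ∀ i α, ∀ (h : β₂ x = i :: α),
      shi r (β₂ x) = ⟨i.1 + r, hlt6 x hx i α h⟩ :: α := by
    intro x hx i α h
    have h5 := hlt6 x hx i α h
    rw [h]
    simp only [shi, h5, dif_pos]
  have hX1 : ∀ x ∈ X, β₁ x = [] := fun x hx => h₁.root x (Finset.mem_union_right _ hx)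
  have hX2 : ∀ x ∈ X, β₂ x = [] := fun x hx => h₂.root x (Finset.mem_union_right _ hx)
  let β : V → List (Fin (6 * d)) := fun x => if x ∈ B then shi r (β₂ x) else β₁ x
  have hβ1 : ∀ x ∈ A ∪ X, β x = β₁ x := by
    intro x hx
    have hxB : x ∉ B := by
      intro hxB
      rcases Finset.mem_union.1 hx with h | h
      · exact Finset.disjoint_left.1 hAB h hxB
      · exact Finset.disjoint_left.1 hXB h hxB
    simp only [β, hxB, if_false]
  have hβ2 : ∀ x ∈ X ∪ B, β x = shi r (β₂ x) := by
    intro x hx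
    by_cases hxB : x ∈ B
    · simp only [β, hxB, if_true]
    · have hxX : x ∈ X := (Finset.mem_union.1 hx).resolve_right hxB
      rw [hβ1 x (Finset.mem_union_right _ hxX), hX1 x hxX, hX2 x hxX]
      rfl
  have hcase : ∀ x ∈ U, x ∈ A ∪ X ∨ x ∈ X ∪ B := by
    intro x hx
    rcases (hmemU x).1 hx with h | h | h
    · exact Or.inl (Finset.mem_union_left _ h)
    · exact Or.inl (Finset.mem_union_right _ h)
    · exact Or.inr (Finset.mem_union_right _ h)
  have hU1 : A ∪ X ⊆ U := fun x hx => (hmemU x).2 (by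
    rcases Finset.mem_union.1 hx with h | h
    · exact Or.inl h
    · exact Or.inr (Or.inl h))
  have hU2 : X ∪ B ⊆ U := fun x hx => (hmemU x).2 (by
    rcases Finset.mem_union.1 hx with h | h
    · exact Or.inr (Or.inl h)
    · exact Or.inr (Or.inr h))
  have hroot : 2 * (U.filter fun x => β x = []).card + 4 * K ≤ 3 * S.card := by
    have h5 : (U.filter fun x => β x = []) ⊆ ((A ∪ X).filter fun x => β₁ x = []) ∪
        (((X ∪ B).filter fun x => β₂ x = []) \ X) := by
      intro x hx
      rw [Finset.mem_filter] at hx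
      by_cases hxB : x ∈ B
      · rw [hβ2 x (Finset.mem_union_right _ hxB)] at hx
        refine Finset.mem_union_right _ ?_
        rw [Finset.mem_sdiff, Finset.mem_filter]
        refine ⟨⟨Finset.mem_union_right _ hxB, ?_⟩, fun hxX => Finset.disjoint_left.1 hXB hxX hxB⟩
        rcases hβx : β₂ x with _ | ⟨i, α⟩
        · rfl
        · rw [hshi x (Finset.mem_union_right _ hxB) i α hβx] at hx
          simp at hx
      · have hx1 : x ∈ A ∪ X := by
          rcases (hmemU x).1 hx.1 with h | h | h
          · exact Finset.mem_union_left _ h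
          · exact Finset.mem_union_right _ h
          · exact absurd h hxB
        rw [hβ1 x hx1] at hx
        exact Finset.mem_union_left _ (Finset.mem_filter.2 ⟨hx1, hx.2⟩)
    have h6 : X ⊆ (X ∪ B).filter fun x => β₂ x = [] := by
      intro x hx
      exact Finset.mem_filter.2 ⟨Finset.mem_union_left _ hx, hX2 x hx⟩
    have h7 := (Finset.card_le_card h5).trans (Finset.card_union_le _ _)
    rw [Finset.card_sdiff_of_subset h6] at h7
    have h8 := Finset.card_le_card h6
    omega
  refine ⟨β, ?_, ?_, hroot, ?_, ?_, ?_⟩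
  · intro x hx
    rcases (hmemU x).1 (hSU hx) with h | h | h
    · rw [hβ1 x (Finset.mem_union_left _ h)]
      exact h₁.root x (Finset.mem_union_left _ (Finset.mem_inter.2 ⟨hx, h⟩))
    · rw [hβ1 x (Finset.mem_union_right _ h)]
      exact hX1 x h
    · rw [hβ2 x (Finset.mem_union_right _ h),
        h₂.root x (Finset.mem_union_left _ (Finset.mem_inter.2 ⟨hx, h⟩))]
      rfl
  · intro α
    rcases α with _ | ⟨a, α⟩
    · omega
    · by_cases har : a.1 < r
      · refine le_trans (Finset.card_le_card ?_) (h₁.width (a :: α))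
        intro x hx
        rw [Finset.mem_filter] at hx ⊢
        by_cases hx2 : x ∈ X ∪ B
        · exfalso
          have h5 := hx.2
          rw [hβ2 x hx2] at h5
          rcases hβx : β₂ x with _ | ⟨i, γ⟩
          · rw [hβx] at h5
            simp [shi] at h5
          · rw [hshi x hx2 i γ hβx, List.cons.injEq] at h5
            have h6 := congrArg Fin.val h5.1
            simp only at h6
            omega
        · have hx1 := (hcase x hx.1).resolve_right hx2
          rw [hβ1 x hx1] at hx
          exact ⟨hx1, hx.2⟩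
      · refine le_trans (Finset.card_le_card ?_) (h₂.width (⟨a.1 - r, by omega⟩ :: α))
        intro x hx
        rw [Finset.mem_filter] at hx ⊢
        by_cases hx1 : x ∈ A ∪ X
        · exfalso
          have h5 := hx.2
          rw [hβ1 x hx1] at h5
          exact har (hlt x hx1 a α h5)
        · have hx2 := (hcase x hx.1).resolve_left hx1
          refine ⟨hx2, ?_⟩
          have h5 := hx.2
          rw [hβ2 x hx2] at h5
          rcases hβx : β₂ x with _ | ⟨i, γ⟩
          · rw [hβx] at h5
            simp [shi] at h5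
          · rw [hshi x hx2 i γ hβx, List.cons.injEq] at h5
            have h6 := congrArg Fin.val h5.1
            simp only at h6
            rw [List.cons.injEq]
            exact ⟨Fin.ext (by simp only; omega), h5.2⟩
  · intro x hx i α hxi
    by_cases hx1 : x ∈ A ∪ X
    · rw [hβ1 x hx1] at hxi
      have h5 := h₁.letter x hx1 i α hxi
      rw [hS1card] at h5
      omega
    · have hx2 := (hcase x hx).resolve_left hx1
      rw [hβ2 x hx2] at hxi
      rcases hβx : β₂ x with _ | ⟨j, γ⟩
      · rw [hβx] at hxi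
        simp [shi] at hxi
      · rw [hshi x hx2 j γ hβx, List.cons.injEq] at hxi
        rw [← hxi.1]
        exact hsum x hx2 j γ hβx
  · intro x hx α i hxi
    by_cases hx1 : x ∈ A ∪ X
    · rw [hβ1 x hx1] at hxi
      obtain ⟨y, hy, hyα⟩ := h₁.parent x hx1 α i hxi
      exact ⟨y, hU1 hy, by rw [hβ1 y hy, hyα]⟩
    · have hx2 := (hcase x hx).resolve_left hx1
      rw [hβ2 x hx2] at hxi
      rcases α with _ | ⟨a, α⟩
      · obtain ⟨y, hy⟩ := hSne
        refine ⟨y, hSU hy, ?_⟩
        rcases (hmemU y).1 (hSU hy) with h | h | h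
        · rw [hβ1 y (Finset.mem_union_left _ h)]
          exact h₁.root y (Finset.mem_union_left _ (Finset.mem_inter.2 ⟨hy, h⟩))
        · rw [hβ1 y (Finset.mem_union_right _ h)]
          exact hX1 y h
        · rw [hβ2 y (Finset.mem_union_right _ h),
            h₂.root y (Finset.mem_union_left _ (Finset.mem_inter.2 ⟨hy, h⟩))]
          rfl
      · rcases hβx : β₂ x with _ | ⟨j, γ⟩
        · rw [hβx] at hxi
          simp [shi] at hxi
        · rw [hshi x hx2 j γ hβx, List.cons_append, List.cons.injEq] at hxi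
          have h6 : β₂ x = (j :: α) ++ [i] := by
            rw [hβx]
            exact congrArg (List.cons j) hxi.2
          obtain ⟨y, hy, hyα⟩ := h₂.parent x hx2 (j :: α) i h6
          refine ⟨y, hU2 hy, ?_⟩
          rw [hβ2 y hy, hshi y hy j α hyα, hxi.1]
  · intro x hx y hy hxy
    have hboth : (x ∈ A ∪ X ∧ y ∈ A ∪ X) ∨ (x ∈ X ∪ B ∧ y ∈ X ∪ B) := by
      rcases (hmemU x).1 hx with h | h | h <;> rcases (hmemU y).1 hy with h' | h' | h'
      · exact Or.inl ⟨Finset.mem_union_left _ h, Finset.mem_union_left _ h'⟩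
      · exact Or.inl ⟨Finset.mem_union_left _ h, Finset.mem_union_right _ h'⟩
      · exact absurd hxy (hno x h y h')
      · exact Or.inl ⟨Finset.mem_union_right _ h, Finset.mem_union_left _ h'⟩
      · exact Or.inl ⟨Finset.mem_union_right _ h, Finset.mem_union_right _ h'⟩
      · exact Or.inr ⟨Finset.mem_union_left _ h, Finset.mem_union_right _ h'⟩
      · exact absurd hxy.symm (hno y h' x h)
      · exact Or.inr ⟨Finset.mem_union_right _ h, Finset.mem_union_left _ h'⟩
      · exact Or.inr ⟨Finset.mem_union_right _ h, Finset.mem_union_right _ h'⟩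
    rcases hboth with ⟨hx1, hy1⟩ | ⟨hx2, hy2⟩
    · rw [hβ1 x hx1, hβ1 y hy1]
      exact h₁.adj x hx1 y hy1 hxy
    · rw [hβ2 x hx2, hβ2 y hy2]
      rcases h₂.adj x hx2 y hy2 hxy with h | ⟨c, h⟩ | ⟨c, h⟩
      · left
        rw [h]
      · right; left
        rw [h]
        exact shi_append r _ c
      · right; right
        rw [h]
        exact shi_append r _ c

theorem part_aux {k d : ℕ} (hd : 1 ≤ d) {H : SimpleGraph V} (hH : TreeWidthLE k H)
    (hdeg : ∀ v, {w | H.Adj v w}.ncard ≤ d) (N : ℕ) : ∀ U S : Finset V, U.card = N → S ⊆ U →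
      4 * (k + 1) ≤ S.card → S.card ≤ 12 * (k + 1) * d →
      ∃ β : V → List (Fin (6 * d)), PartOf H (k + 1) d U S β := by
  induction N using Nat.strong_induction_on with
  | _ N ih =>
    intro U S hN hSU h4 h12
    by_cases hU : (U \ S).card ≤ 18 * (k + 1) * d
    · exact case_one hd (by omega) H U S hSU h4 h12 hU
    · rw [not_le] at hU
      by_cases h5 : S.card ≤ 12 * (k + 1)
      · refine case_two hd (by omega) H hdeg U S hSU h4 h5 hU fun S' hS' h6 h7 => ?_
        have h8 : (U \ S).card < N := by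
          rw [Finset.card_sdiff_of_subset hSU]
          have := Finset.card_le_card hSU
          omega
        exact ih _ h8 (U \ S) S' rfl hS' h6 h7
      · rw [not_le] at h5
        obtain ⟨A, X, B, hABX, hAX, hAB, hXB, hX, hno, hSA, hSB⟩ := balanced_sep_on hH U S hSU
        refine case_three (by omega) H U S A X B hSU h5 h12 hABX hAX hAB hXB hX hno hSA hSB
          fun U' S' hU' hS' h6 h7 => ?_
        exact ih _ (by omega) U' S' rfl hS' h6 h7

theorem tree_partition {k d : ℕ} (hd : 1 ≤ d) {H : SimpleGraph V} (hH : TreeWidthLE k H)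
    (hdeg : ∀ v, {w | H.Adj v w}.ncard ≤ d) :
    ∃ β : V → List (Fin (6 * d)), (∀ α, Nat.card {x // β x = α} ≤ 18 * (k + 1) * d) ∧
      (∀ x α i, β x = α ++ [i] → ∃ y, β y = α) ∧
      ∀ x y, H.Adj x y → β x = β y ∨ (∃ c, β x = β y ++ [c]) ∨ ∃ c, β y = β x ++ [c] := by
  classical
  have hKd : k + 1 ≤ (k + 1) * d := Nat.le_mul_of_pos_right _ hd
  have e18 : 18 * (k + 1) * d = 18 * ((k + 1) * d) := by ring
  have e12 : 12 * (k + 1) * d = 12 * ((k + 1) * d) := by ring
  by_cases hV : Fintype.card V < 4 * (k + 1)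
  · refine ⟨fun _ => [], fun α => ?_, fun x α i h => ?_, fun x y _ => Or.inl rfl⟩
    · have h1 : Nat.card {x : V // ([] : List (Fin (6 * d))) = α} ≤ Nat.card V :=
        Nat.card_le_card_of_injective Subtype.val Subtype.val_injective
      rw [Nat.card_eq_fintype_card (α := V)] at h1
      show Nat.card {x : V // ([] : List (Fin (6 * d))) = α} ≤ 18 * (k + 1) * d
      omega
    · simp at h
  · rw [not_lt] at hV
    obtain ⟨S, hS, hScard⟩ := Finset.exists_subset_card_eq (s := (Finset.univ : Finset V))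
      (n := 4 * (k + 1)) (by rw [Finset.card_univ]; exact hV)
    obtain ⟨β, hβ⟩ := part_aux hd hH hdeg _ Finset.univ S rfl hS (by omega) (by omega)
    refine ⟨β, fun α => ?_, fun x α i h => ?_, fun x y hxy => ?_⟩
    · have h1 := hβ.width α
      rw [Nat.card_eq_fintype_card, Fintype.card_subtype]
      exact h1
    · obtain ⟨y, -, hy⟩ := hβ.parent x (Finset.mem_univ x) α i h
      exact ⟨y, hy⟩
    · exact hβ.adj x (Finset.mem_univ x) y (Finset.mem_univ y) hxy

end Pool.Agent.Helper72.TW
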