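import Mathlib
import Pool.Agent.Helper72.TW.Lift

set_option autoImplicit false

/-!
# TW-9: the recursion for the states `(s, K, F)`

From left to right: given a valid `C` with `C.size = s`, `WinEq (2 * rad G + 1) K C`, `finfo G k C = F`. If `C.p [] = 0` then
all is empty (`Cfg.Valid.p_eq_zero`, `size_eq_zero`, `finfo_of_empty`). Otherwise take `K' i = C.sub i`, `s' i = (C.sub i).size`,
`F' i = finfo G k (C.sub i)` (`size_eq`, `WinEq.sub`, `finfo_step`).
From right to left: in the first case take `C` with `p = 0` and the relations of `K` (for the nullary relations).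
In the second case the witnesses `C' i` of `PP` for `K' i` and `exists_join` with `H = 2 * rad G`
(`WinEq (2 * rad G) (K.sub i) (C' i)` by `WinEq.trans`), `size_eq`, `size` depends only on `p`,
`finfo_step`, `finfo_congr` and `tinfo_winEq`.
-/

namespace Pool.Agent.Helper72.TW

open FirstOrder FirstOrder.Language

variable {L : FirstOrder.Language.{0, 0}} {b : ℕ}

/-- The size depends only on the numbers of points. -/
private theorem size_congr_p {C C' : Cfg L b} (h : ∀ α, C.p α = C'.p α) : C.size = C'.size := by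
  have hp : C.p = C'.p := funext h
  unfold Cfg.size
  rw [hp]

theorem pp_iff (G k W s : ℕ) (K : Cfg L b) (F : FI L b G k) : PP G k W s K F ↔
    (s = 0 ∧ (∀ α : Adr b, α.length ≤ 2 * rad G + 1 → K.p α = 0) ∧ F = finfo0 L b G k) ∨
    (1 ≤ K.p [] ∧ K.p [] ≤ W ∧ ∃ (K' : Fin b → Cfg L b) (s' : Fin b → ℕ)
      (F' : Fin b → FI L b G k), (∀ i, PP G k W (s' i) (K' i) (F' i)) ∧
        s = K.p [] + ∑ i, s' i ∧ (∀ i, WinEq (2 * rad G) (K.sub i) (K' i)) ∧
        F = upd G k (fun i => tinfo G (K' i)) F') := by
  constructor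
  · rintro ⟨C, hv, hs, hK, hF⟩
    have h0 : K.p [] = C.p [] := hK.1 [] (by simp)
    rcases Nat.eq_zero_or_pos (C.p []) with hz | hz
    · left
      have hall : ∀ α, C.p α = 0 := fun α => hv.p_eq_zero hz α
      refine ⟨?_, ?_, ?_⟩
      · rw [← hs]
        exact (size_eq_zero hv).2 hall
      · intro α hα
        rw [hK.1 α hα]
        exact hall α
      · rw [← hF]
        exact finfo_of_empty hall
    · right
      refine ⟨?_, ?_, fun i => C.sub i, fun i => (C.sub i).size, fun i => finfo G k (C.sub i),
        fun i => ⟨C.sub i, hv.sub i, rfl, WinEq.refl _ _, rfl⟩, ?_, fun i => hK.sub i, ?_⟩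
      · rw [h0]
        exact hz
      · rw [h0]
        exact hv.1 []
      · rw [← hs, h0]
        exact size_eq hv
      · rw [← hF]
        exact finfo_step G k C
  · rintro (⟨hs, hK, hF⟩ | ⟨h1, h2, K', s', F', hPP, hs, hKs, hF⟩)
    · let C : Cfg L b := { p := fun _ => 0, rel := K.rel }
      have hall : ∀ α, C.p α = 0 := fun _ => rfl
      have hv : C.Valid W := by
        refine ⟨fun α => Nat.zero_le _, fun α i h => absurd (hall _) h, ?_⟩
        have he : {α | C.p α ≠ 0} = (∅ : Set (Adr b)) := by
          ext α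
          simp [hall α]
        rw [he]
        exact Set.finite_empty
      refine ⟨C, hv, ?_, ⟨fun α hα => (hK α hα).trans (hall α).symm, fun n R v _ _ _ => Iff.rfl⟩, ?_⟩
      · rw [hs]
        exact (size_eq_zero hv).2 hall
      · rw [hF]
        exact finfo_of_empty hall
    · choose C' hv' hs' hK' hF' using hPP
      have hwin : ∀ i, WinEq (2 * rad G) (K.sub i) (C' i) := fun i =>
        (hKs i).trans ((hK' i).mono (Nat.le_succ _))
      obtain ⟨C, hv, hKC, hsub⟩ := exists_join (2 * rad G) W K C' h1 h2 hv' hwin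
      have h0 : K.p [] = C.p [] := hKC.1 [] (by simp)
      refine ⟨C, hv, ?_, hKC, ?_⟩
      · rw [size_eq hv, hs, h0]
        congr 1
        refine Finset.sum_congr rfl fun i _ => ?_
        rw [← hs' i]
        exact size_congr_p fun α => (hsub i α.length).1 α le_rfl
      · rw [finfo_step G k C, hF]
        congr 1
        · funext i
          exact (tinfo_winEq (hsub i _)).trans
            (tinfo_winEq ((hK' i).mono (Nat.le_succ _))).symm
        · funext i
          rw [finfo_congr (hsub i)]
          exact hF' i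

/-- `PP` depends on `K` only up to `WinEq`. -/
theorem pp_congr {G k W s : ℕ} {K K' : Cfg L b} {F : FI L b G k}
    (hK : WinEq (2 * rad G + 1) K K') (h : PP G k W s K F) : PP G k W s K' F := by
  obtain ⟨C, hv, hs, hw, hf⟩ := h
  exact ⟨C, hv, hs, hK.symm.trans hw, hf⟩

theorem pp_le {G k W s : ℕ} {K : Cfg L b} {F : FI L b G k} (h : PP G k W s K F) (α : Adr b)
    (hα : α.length ≤ 2 * rad G + 1) : K.p α ≤ W := by
  obtain ⟨C, hv, hs, hw, hf⟩ := h
  rw [hw.1 α hα]
  exact hv.1 α

end Pool.Agent.Helper72.TW
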