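import Mathlib
import Pool.Agent.Helper72.TW.Rank
import Pool.Agent.Helper72.TW.TypeL

set_option autoImplicit false

/-!
# TW-13: coded windows and configurations

The map `e (α, u) = (α, rank u)` is an isomorphism of `R.win κ` onto `(R.conf κ).str`: it is an injective
isometry, `(R.win κ).D (α, u) ↔ (R.conf κ).str.D (α, rank u)`, all points of `(R.conf κ).str` are in its range and the
relations agree. So `lt_map` applies.
-/

namespace Pool.Agent.Helper72.TW

open FirstOrder FirstOrder.Language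

variable {L : FirstOrder.Language.{0, 0}} {b G k A C r : ℕ} {U : Type} [Finite U]
  {R : Rc L b G k A C r U}

private theorem sz_unique (hR : R.Ax0) {α : Win b (2 * rad G + 1)} {κ y y' : U}
    (h : R.sz α κ y) (h' : R.sz α κ y') : y' = y := by
  obtain ⟨z, -, -, hz⟩ := hR.sz_ex α κ
  rw [hz y h, hz y' h']

private theorem win_D_of_sz (hR : R.Ax0) {κ y : U} (α : Adr b) (hα : α.length ≤ 2 * rad G + 1)
    (h : R.sz ⟨α, hα⟩ κ y) (u : U) : (R.win κ).D (α, u) ↔ R.ltt u y := by
  constructor
  · rintro ⟨_, z, hz, hu⟩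
    have : z = y := sz_unique hR h hz
    rw [← this]; exact hu
  · intro hu
    exact ⟨hα, y, h, hu⟩

theorem conf_p (hR : R.Ax0) {κ y : U} (α : Win b (2 * rad G + 1)) (h : R.sz α κ y) :
    (R.conf κ).p α.1 = R.rank y := by
  show Nat.card {u // (R.win κ).D (α.1, u)} = Nat.card {u // R.ltt u y}
  exact Nat.card_congr (Equiv.subtypeEquivRight fun u => win_D_of_sz hR α.1 α.2 h u)

private theorem conf_p_zero {κ : U} {α : Adr b} (hα : ¬ α.length ≤ 2 * rad G + 1) :
    (R.conf κ).p α = 0 := by
  show Nat.card {u // (R.win κ).D (α, u)} = 0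
  have : IsEmpty {u // (R.win κ).D (α, u)} := ⟨fun u => hα u.2.1⟩
  exact Nat.card_of_isEmpty

theorem conf_p_le (hR : R.Ax0) (κ : U) (α : Adr b) : (R.conf κ).p α ≤ R.wid := by
  by_cases hα : α.length ≤ 2 * rad G + 1
  · obtain ⟨y, hy, hs, -⟩ := hR.sz_ex ⟨α, hα⟩ κ
    have h := conf_p hR ⟨α, hα⟩ hy
    have h2 := (small_iff hR).1 hs
    calc (R.conf κ).p α = R.rank y := h
      _ ≤ R.wid := h2
  · rw [conf_p_zero hα]; exact Nat.zero_le _

theorem win_D_iff (hR : R.Ax0) (κ : U) (α : Adr b) (u : U) :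
    (R.win κ).D (α, u) ↔ R.rank u < (R.conf κ).p α := by
  by_cases hα : α.length ≤ 2 * rad G + 1
  · obtain ⟨y, hy, -, -⟩ := hR.sz_ex ⟨α, hα⟩ κ
    rw [win_D_of_sz hR α hα hy u, rank_lt hR]
    have h := conf_p hR ⟨α, hα⟩ hy
    have h' : (R.conf κ).p α = R.rank y := h
    rw [h']
  · rw [conf_p_zero hα]
    constructor
    · rintro ⟨h, -⟩
      exact absurd h hα
    · intro h
      exact absurd h (Nat.not_lt_zero _)

theorem win_rel_iff (hR : R.Ax0) (κ : U) (n : ℕ) (P : L.Relations n) (v : Fin n → Adr b × U) :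
    (R.win κ).rel n P v ↔ (R.conf κ).str.rel n P fun i => ((v i).1, R.rank (v i).2) := by
  constructor
  · intro h
    refine ⟨⟨fun i => (v i).2, fun i => rfl, ?_⟩, ?_⟩
    · exact h
    · exact h.2
  · rintro ⟨⟨u, hu, h⟩, -⟩
    have : (fun i => ((v i).1, u i)) = v := by
      funext i
      have := rank_inj hR (hu i)
      rw [this]
    rw [← this]
    exact h

private theorem lt_win (hR : R.Ax0) (κ : U) (g : ℕ) (α : Adr b) (u : U)
    (hu : (R.win κ).D (α, u)) :
    lt (R.win κ) dX g 1 (fun _ => (α, u)) =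
      lt (R.conf κ).str dX g 1 (fun _ => (α, R.rank u)) := by
  refine lt_map (S := (R.conf κ).str) (S' := R.win κ) pm_dX
    (fun x : Adr b × U => (x.1, R.rank x.2)) ?_ ?_ g 1 (fun _ => (α, u)) (fun _ => hu) ?_ ?_ ?_
  · rintro ⟨x1, x2⟩ ⟨y1, y2⟩ h
    have h1 : x1 = y1 := congrArg Prod.fst h
    have h2 : R.rank x2 = R.rank y2 := congrArg Prod.snd h
    rw [h1, rank_inj hR h2]
  · intro x y
    rfl
  · rintro ⟨β, m⟩ hx -
    have hm : m < (R.conf κ).p β := hx
    have : m < Nat.card U := lt_of_lt_of_le hm ((conf_p_le hR κ β).trans (wid_lt_card hR).le)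
    obtain ⟨w, hw⟩ := exists_rank hR this
    exact ⟨(β, w), by simp only [hw]⟩
  · rintro ⟨β, w⟩ -
    exact win_D_iff hR κ β w
  · intro n P v _
    exact win_rel_iff hR κ n P v

theorem ti_eq (hR : R.Ax0) (κ : U) : R.ti κ = tinfo G (R.conf κ) := by
  funext α t
  apply propext
  constructor
  · rintro ⟨u, hu, h⟩
    refine ⟨R.rank u, (win_D_iff hR κ _ u).1 hu, ?_⟩
    rw [← h, lt_win hR κ t.1.1 α.1 u hu]
  · rintro ⟨m, hm, h⟩
    have : m < Nat.card U := lt_of_lt_of_le hm ((conf_p_le hR κ α.1).trans (wid_lt_card hR).le)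
    obtain ⟨u, rfl⟩ := exists_rank hR this
    have hu : (R.win κ).D (α.1, u) := (win_D_iff hR κ _ u).2 hm
    exact ⟨u, hu, by rw [lt_win hR κ t.1.1 α.1 u hu]; exact h⟩

theorem weq_iff (hR : R.Ax0) (i : Fin b) (κ κ' : U) :
    R.weq i κ κ' ↔ WinEq (2 * rad G) ((R.conf κ).sub i) (R.conf κ') := by
  constructor
  · rintro ⟨h1, h2⟩
    refine ⟨?_, ?_⟩
    · intro α hα
      obtain ⟨y, hy, -, -⟩ := hR.sz_ex (winCons i ⟨α, hα⟩) κ
      have hy' := (h1 ⟨α, hα⟩ y).1 hy
      have e1 := conf_p hR _ hy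
      have e2 := conf_p hR _ hy'
      exact e1.trans e2.symm
    · intro n P v hlen hlt htd
      have key : ∀ u : Fin n → U, (∀ j, R.rank (u j) = (v j).2) →
          ((R.win κ).rel n P (fun j => (i :: (v j).1, u j)) ↔
            (R.win κ').rel n P (fun j => ((v j).1, u j))) := by
        intro u hu
        have hp : ∀ j, (R.win κ').D ((v j).1, u j) := by
          intro j
          rw [win_D_iff hR, hu j]
          obtain ⟨y, hy, -, -⟩ := hR.sz_ex (winCons i ⟨(v j).1, hlen j⟩) κ
          have hy' := (h1 ⟨(v j).1, hlen j⟩ y).1 hy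
          have e1 := conf_p hR _ hy
          have e2 := conf_p hR _ hy'
          have e3 : (v j).2 < (R.conf κ).p (i :: (v j).1) := hlt j
          have e4 : (R.conf κ).p (i :: (v j).1) = (R.conf κ').p (v j).1 := e1.trans e2.symm
          rw [← e4]; exact e3
        have hb := h2 ⟨n, P⟩ (fun j => ⟨(v j).1, hlen j⟩) htd u hp
        constructor
        · rintro ⟨⟨_, h⟩, -⟩
          exact ⟨⟨fun j => (hlen j).trans (Nat.le_succ _), hb.1 h⟩, htd⟩
        · rintro ⟨⟨_, h⟩, -⟩
          refine ⟨⟨fun j => ?_, hb.2 h⟩, ?_⟩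
          · have := hlen j
            show (i :: (v j).1).length ≤ 2 * rad G + 1
            simpa using this
          · intro j l
            show td (i :: (v j).1) (i :: (v l).1) ≤ 1
            rw [td_cons_same]
            exact htd j l
      constructor
      · rintro ⟨u, hu, h⟩
        exact ⟨u, hu, (key u hu).1 h⟩
      · rintro ⟨u, hu, h⟩
        exact ⟨u, hu, (key u hu).2 h⟩
  · rintro ⟨h1, h2⟩
    refine ⟨?_, ?_⟩
    · intro α z
      obtain ⟨y, hy, -, -⟩ := hR.sz_ex (winCons i α) κ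
      obtain ⟨y', hy', -, -⟩ := hR.sz_ex (winIncl α) κ'
      have e1 := conf_p hR _ hy
      have e2 := conf_p hR _ hy'
      have e3 : (R.conf κ).p (i :: α.1) = (R.conf κ').p α.1 := h1 α.1 α.2
      have e4 : R.rank y = R.rank y' := e1.symm.trans (e3.trans e2)
      have e5 := rank_inj hR e4
      constructor
      · intro h
        rw [sz_unique hR hy h, e5]; exact hy'
      · intro h
        rw [sz_unique hR hy' h, ← e5]; exact hy
    · intro s w htd v hD
      have h := h2 s.1 s.2 (fun j => ((w j).1, R.rank (v j))) (fun j => (w j).2) ?_ htd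
      · have a1 : ((R.conf κ).sub i).rel s.1 s.2 (fun j => ((w j).1, R.rank (v j))) ↔
            R.bit s (fun j => winCons i (w j)) κ v := by
          constructor
          · rintro ⟨u, hu, ⟨⟨_, h⟩, -⟩⟩
            have : u = v := funext fun j => rank_inj hR (hu j)
            rw [← this]; exact h
          · intro h
            refine ⟨v, fun j => rfl, ⟨⟨fun j => (winCons i (w j)).2, h⟩, ?_⟩⟩
            intro j l
            show td (i :: (w j).1) (i :: (w l).1) ≤ 1
            rw [td_cons_same]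
            exact htd j l
        have a2 : (R.conf κ').rel s.1 s.2 (fun j => ((w j).1, R.rank (v j))) ↔
            R.bit s (fun j => winIncl (w j)) κ' v := by
          constructor
          · rintro ⟨u, hu, ⟨⟨_, h⟩, -⟩⟩
            have : u = v := funext fun j => rank_inj hR (hu j)
            rw [← this]; exact h
          · intro h
            exact ⟨v, fun j => rfl, ⟨⟨fun j => (winIncl (w j)).2, h⟩, htd⟩⟩
        rw [← a1, ← a2]
        exact h
      · intro j
        have e3 : (R.conf κ).p (i :: (w j).1) = (R.conf κ').p (w j).1 := h1 (w j).1 (w j).2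
        show R.rank (v j) < (R.conf κ).p (i :: (w j).1)
        rw [e3]
        exact (win_D_iff hR κ' _ _).1 (hD j)

end Pool.Agent.Helper72.TW
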