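import Mathlib
import Pool.Agent.Helper72.TW.WinConf

set_option autoImplicit false

/-!
# TW-14: every window with at most `W` points per node is coded

`exists_upd`: a set of functions on a finite type that is nonempty and closed under changing one value contains
all functions (induction on the set of arguments where the values differ). Apply it to the type
`Win b (2 * rad G + 1) ⊕ Σ (s : Σ n, L.Relations n) (w : Fin s.1 → Win …), (Fin s.1 → {u // R.wp u})`, with
the values `{y // R.small y}` and `Prop`; the closure is `cl_sz` and `cl_bit` (toggle if the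
value is wrong). Numbers `< W` are the ranks of the elements of `wp`, numbers `≤ W` those of the small elements.
-/

namespace Pool.Agent.Helper72.TW

open FirstOrder FirstOrder.Language

theorem exists_upd {I : Type} [Finite I] [DecidableEq I] {V : I → Type} (P : (∀ i, V i) → Prop)
    (f₀ : ∀ i, V i) (h₀ : P f₀)
    (h : ∀ (f : ∀ i, V i) (i : I) (x : V i), P f → P (Function.update f i x))
    (f : ∀ i, V i) : P f := by
  classical
  cases nonempty_fintype I
  have key : ∀ s : Finset I, P (fun i => if i ∈ s then f i else f₀ i) := by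
    intro s
    induction s using Finset.induction_on with
    | empty => simpa using h₀
    | insert i s hi ih =>
      have h1 := h _ i (f i) ih
      convert h1 using 1
      funext j
      by_cases hj : j = i
      · subst hj
        simp
      · simp [Function.update_of_ne hj, Finset.mem_insert, hj]
  simpa using key Finset.univ

variable {L : FirstOrder.Language.{0, 0}} {b G k A C r : ℕ} {U : Type} [Finite U]
  {R : Rc L b G k A C r U}

/-- The windows are finite. -/
private theorem finite_win (b H : ℕ) : Finite (Win b H) :=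
  (List.finite_length_le (Fin b) H).to_subtype

/-- The places of a window whose relations can be prescribed. -/
private abbrev Pl (R : Rc L b G k A C r U) : Type :=
  Σ p : (Σ s : (Σ n, L.Relations n), Fin s.1 → Win b (2 * rad G + 1)), (Fin p.1.1 → {u // R.wp u})

private theorem finite_pl (hL : Finite (Σ n, L.Relations n)) : Finite (Pl R) := by
  haveI := hL
  haveI := finite_win b (2 * rad G + 1)
  infer_instance

/-- The values at the places. -/
private abbrev Vl (R : Rc L b G k A C r U) : Win b (2 * rad G + 1) ⊕ Pl R → Type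
  | Sum.inl _ => {y // R.small y}
  | Sum.inr _ => Prop

/-- `κ` codes the values `f`. -/
private def Codes (R : Rc L b G k A C r U) (f : ∀ i, Vl R i) (κ : U) : Prop :=
  (∀ α, R.sz α κ (f (Sum.inl α)).1) ∧
    ∀ q : Pl R, R.bit q.1.1 q.1.2 κ (fun i => (q.2 i).1) ↔ f (Sum.inr q)

private theorem codes_all (hL : Finite (Σ n, L.Relations n)) (hR : R.Ax0) [Nonempty U]
    (f : ∀ i, Vl R i) : ∃ κ, Codes R f κ := by
  classical
  haveI := finite_pl (R := R) hL
  haveI := finite_win b (2 * rad G + 1)
  obtain ⟨κ₀⟩ := (inferInstance : Nonempty U)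
  have hy : ∀ α, ∃ y : {y // R.small y}, R.sz α κ₀ y.1 := by
    intro α
    obtain ⟨y, h1, h2, -⟩ := hR.sz_ex α κ₀
    exact ⟨⟨y, h2⟩, h1⟩
  choose y₀ hy₀ using hy
  refine exists_upd (V := Vl R) (fun f => ∃ κ, Codes R f κ)
    (fun i => match i with
      | Sum.inl α => y₀ α
      | Sum.inr q => R.bit q.1.1 q.1.2 κ₀ (fun i => (q.2 i).1)) ⟨κ₀, ?_, ?_⟩ ?_ f
  · intro α
    exact hy₀ α
  · intro q
    exact Iff.rfl
  · rintro f i x ⟨κ, h1, h2⟩
    rcases i with α | q
    · -- change of a size
      obtain ⟨κ', h3, h4, h5⟩ := hR.cl_sz κ α x.1 x.2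
      refine ⟨κ', ?_, ?_⟩
      · intro α'
        by_cases hα : α' = α
        · subst hα
          simpa using h3
        · have hne : (Sum.inl α' : Win b (2 * rad G + 1) ⊕ Pl R) ≠ Sum.inl α := by
            intro h
            exact hα (Sum.inl.inj h)
          rw [Function.update_of_ne hne]
          exact (h4 α' hα _).2 (h1 α')
      · intro q
        have hne : (Sum.inr q : Win b (2 * rad G + 1) ⊕ Pl R) ≠ Sum.inl α := by simp
        rw [Function.update_of_ne hne]
        exact (h5 _ _ _ fun i => (q.2 i).2).trans (h2 q)
    · -- change of a bit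
      by_cases hx : (R.bit q.1.1 q.1.2 κ (fun i => (q.2 i).1) ↔ x)
      · refine ⟨κ, ?_, ?_⟩
        · intro α
          have hne : (Sum.inl α : Win b (2 * rad G + 1) ⊕ Pl R) ≠ Sum.inr q := by simp
          rw [Function.update_of_ne hne]
          exact h1 α
        · intro q'
          by_cases hq : q' = q
          · subst hq
            simpa using hx
          · have hne : (Sum.inr q' : Win b (2 * rad G + 1) ⊕ Pl R) ≠ Sum.inr q := by
              intro h
              exact hq (Sum.inr.inj h)
            rw [Function.update_of_ne hne]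
            exact h2 q'
      · obtain ⟨⟨s, w⟩, v⟩ := q
        obtain ⟨κ', h3, h4, h5⟩ := hR.cl_bit κ s w (fun i => (v i).1) fun i => (v i).2
        refine ⟨κ', ?_, ?_⟩
        · intro α
          have hne : (Sum.inl α : Win b (2 * rad G + 1) ⊕ Pl R) ≠ Sum.inr ⟨⟨s, w⟩, v⟩ := by simp
          rw [Function.update_of_ne hne]
          exact (h3 α _).2 (h1 α)
        · rintro ⟨⟨s', w'⟩, v'⟩
          by_cases hp : (⟨s', w'⟩ : Σ s : (Σ n, L.Relations n), Fin s.1 → Win b (2 * rad G + 1))
              = ⟨s, w⟩
          · cases hp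
            have h6 := h4 (fun i => (v' i).1) fun i => (v' i).2
            by_cases hv : v' = v
            · subst hv
              rw [Function.update_self]
              rw [h6]
              simp only [iff_true]
              constructor
              · intro h7
                by_contra h8
                exact hx ⟨fun h9 => absurd h9 h7, fun h9 => absurd h9 h8⟩
              · intro h7 h8
                exact hx ⟨fun _ => h7, fun _ => h8⟩
            · have hne : (Sum.inr ⟨⟨s, w⟩, v'⟩ : Win b (2 * rad G + 1) ⊕ Pl R) ≠
                  Sum.inr ⟨⟨s, w⟩, v⟩ := by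
                intro h
                apply hv
                have h7 := Sum.inr.inj h
                simpa using h7
              rw [Function.update_of_ne hne]
              have hv' : ¬ ((fun i => (v' i).1) = fun i => (v i).1) := by
                intro h
                apply hv
                funext i
                exact Subtype.ext (congrFun h i)
              rw [← h2 ⟨⟨s, w⟩, v'⟩]
              rw [h6]
              simp only [hv', iff_false, not_not]
          · have hne : (Sum.inr ⟨⟨s', w'⟩, v'⟩ : Win b (2 * rad G + 1) ⊕ Pl R) ≠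
                Sum.inr ⟨⟨s, w⟩, v⟩ := by
              intro h
              apply hp
              have h7 := Sum.inr.inj h
              exact congrArg Sigma.fst h7
            rw [Function.update_of_ne hne]
            exact (h5 s' w' hp _ fun i => (v' i).2).trans (h2 ⟨⟨s', w'⟩, v'⟩)

theorem exists_code (hL : Finite (Σ n, L.Relations n)) (hR : R.Ax0) [Nonempty U] (K : Cfg L b)
    (hK : ∀ α : Adr b, α.length ≤ 2 * rad G + 1 → K.p α ≤ R.wid) :
    ∃ κ, WinEq (2 * rad G + 1) (R.conf κ) K := by
  classical
  have hy : ∀ α : Win b (2 * rad G + 1), ∃ y : {y // R.small y}, R.rank y.1 = K.p α.1 := by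
    intro α
    obtain ⟨y, h1⟩ := exists_rank hR (lt_of_le_of_lt (hK α.1 α.2) (wid_lt_card hR))
    refine ⟨⟨y, (small_iff hR).2 ?_⟩, h1⟩
    rw [h1]
    exact hK α.1 α.2
  choose y hy using hy
  obtain ⟨κ, h1, h2⟩ := codes_all (R := R) hL hR (fun i => match i with
      | Sum.inl α => y α
      | Sum.inr q => K.rel q.1.1.1 q.1.1.2 fun i => ((q.1.2 i).1, R.rank (q.2 i).1))
  have hp : ∀ α : Adr b, α.length ≤ 2 * rad G + 1 → (R.conf κ).p α = K.p α := by
    intro α hα
    have h3 := conf_p hR (κ := κ) ⟨α, hα⟩ (h1 ⟨α, hα⟩)
    exact h3.trans (hy ⟨α, hα⟩)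
  refine ⟨κ, hp, ?_⟩
  intro n P v hv hvp hvt
  have hu : ∀ i, ∃ u : {u // R.wp u}, R.rank u.1 = (v i).2 := by
    intro i
    have h3 : (v i).2 < R.wid := by
      refine lt_of_lt_of_le (hvp i) ?_
      rw [hp _ (hv i)]
      exact hK _ (hv i)
    obtain ⟨u, h4⟩ := exists_rank hR (h3.trans (wid_lt_card hR))
    exact ⟨⟨u, (wp_iff hR).2 (by rw [h4]; exact h3)⟩, h4⟩
  choose u hu using hu
  have h3 := h2 ⟨⟨⟨n, P⟩, fun i => ⟨(v i).1, hv i⟩⟩, u⟩
  have h4 : (K.rel n P fun i => ((v i).1, R.rank (u i).1)) ↔ K.rel n P v := by
    have h5 : (fun i => ((v i).1, R.rank (u i).1)) = v := by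
      funext i
      rw [hu i]
    rw [h5]
  rw [← h4]
  refine Iff.trans ?_ h3
  constructor
  · rintro ⟨u', h5, ⟨h6, h7⟩, -⟩
    have h8 : u' = fun i => (u i).1 := by
      funext i
      exact rank_inj hR ((h5 i).trans (hu i).symm)
    subst h8
    exact h7
  · intro h5
    exact ⟨fun i => (u i).1, fun i => hu i, ⟨⟨hv, h5⟩, hvt⟩⟩

end Pool.Agent.Helper72.TW
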